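import Pool.Agent.Work.MP_e10cd8_co.Four.MainFP
import Pool.Agent.Work.MP_e10cd8_co.Exact.XAsym

-- merged part: Pool.Agent.Work.MP_e10cd8_co.Four.PlanB
section
-- merged part: Pool.Agent.Work.MP_e10cd8_co.Four.MainTP
section
/-! True positives of the decoder, and the main case of the reconstruction (paper 5.3). -/

namespace Pool.Agent.Work.MP_e10cd8_co.Four
namespace PG
open Finset

variable {q : ℕ} {Pt : Type} [Fintype Pt] [DecidableEq Pt] (G : PG q Pt)

/-- the scale `s` is at least `σ q / w ^ 3` -/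
theorem MainTP_s {w : ℝ} {c : ℕ} (hp : Par q w c) {P : Finset Pt}
    (hn1 : 4 * (c + 4) * q ≤ P.card) (hE : G.Ext (1 / 2 ^ 27) P w) :
    sig q P * q / w ^ 3 ≤ G.Zs c P univ / (2 ^ 12 * q) := by
  have hZ := G.Zs_ge hp hn1 hE
  have hw := hp.hw
  have w0 := hp.w_pos
  have q0 := hp.q_pos
  have s0 : 0 ≤ sig q P := Means_sig P
  rw [div_le_iff₀ (by positivity)] at hZ
  rw [div_le_div_iff₀ (by positivity) (by positivity)]
  have h1 : (2 : ℝ) ^ 12 ≤ w := le_trans (by norm_num) hw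
  have h2 : 0 ≤ (q : ℝ) ^ 2 * sig q P := by positivity
  calc sig q P * q * (2 ^ 12 * q) = (q : ℝ) ^ 2 * sig q P * 2 ^ 12 := by ring
    _ ≤ (G.Zs c P univ * w ^ 2) * w := mul_le_mul hZ h1 (by positivity) (h2.trans hZ)
    _ = _ := by ring

theorem MainTP_var {w x s V : ℝ} (hw : 2 ^ 30 ≤ w) (hx : w ^ 100 ≤ x) (hs : x / w ^ 3 ≤ s)
    (hV : V ≤ x ^ 2 / w ^ 16 + 1) : V / (s / 10) ^ 2 ≤ 1 / 100 := by
  have w1 : (1000 : ℝ) ≤ w := le_trans (by norm_num) hw
  have w0 : 0 < w := by linarith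
  have w2 : 1 ≤ w := by linarith
  have x0 : 0 < x := lt_of_lt_of_le (by positivity) hx
  have y0 : 0 < x / w ^ 3 := by positivity
  have s0 : 0 < s := y0.trans_le hs
  have h1 : (x / w ^ 3) ^ 2 ≤ s ^ 2 := pow_le_pow_left₀ y0.le hs 2
  have h2 : (1000 : ℝ) ^ 2 ≤ w ^ 2 := pow_le_pow_left₀ (by norm_num) w1 2
  have h3 : w ^ 2 ≤ w ^ 10 := pow_le_pow_right₀ w2 (by norm_num)
  have h4 : x ^ 2 / w ^ 16 = (x / w ^ 3) ^ 2 / w ^ 10 := by field_simp
  have h5 : (x / w ^ 3) ^ 2 / w ^ 10 ≤ s ^ 2 / 1000 ^ 2 :=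
    div_le_div₀ (by positivity) h1 (by norm_num) (h2.trans h3)
  have h6 : w ≤ x / w ^ 3 := by
    rw [le_div_iff₀ (by positivity)]
    calc w * w ^ 3 = w ^ 4 := by ring
      _ ≤ w ^ 100 := pow_le_pow_right₀ w2 (by norm_num)
      _ ≤ x := hx
  have h7 : (1000 : ℝ) ^ 2 ≤ s ^ 2 := pow_le_pow_left₀ (by norm_num) (w1.trans (h6.trans hs)) 2
  rw [div_le_iff₀ (by positivity)]
  have h8 : (s / 10) ^ 2 = s ^ 2 / 100 := by ring
  rw [h8]
  linarith

/-- one point is missed with small probability -/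
theorem MainTP_pt {w : ℝ} {c : ℕ} (hp : Par q w c) {P H : Finset Pt}
    (hn1 : 4 * (c + 4) * q ≤ P.card) (hn2 : P.card ≤ q ^ 2) {s : ℝ}
    (hs : sig q P * q / w ^ 3 ≤ s) {v : ℕ} (hv : 0.4 * s ≤ (v : ℝ)) (a : Pt) :
    Pr (eta q P) (range (c + 4) ×ˢ P) (fun T =>
      ¬ (G.single H a ∧ G.Sst c ((1 - eta q P) ^ G.nuT P H a) H univ a T < v)) ≤
      ind (¬ G.single H a) +
      ind (G.single H a ∧ sig q P ^ 2 * (q : ℝ) ^ 2 / w ^ 16 < G.vT w c P H a) +
      10 / (w ^ 20 * s) * (ind (G.single H a) * ∑ b ∈ G.pl a, G.om P b * G.ub P H a b ^ 2) +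
      10 / s * (∑ b ∈ G.pl a ∩ G.low (1 / 4) P, (1 - eta q P) ^ (c * G.cnt P b)) + 1 / 100 := by
  obtain ⟨hP, e0, -, e1⟩ := PointD_basic hp hn1
  have e2 : eta q P ≤ 1 := by linarith
  have w0 := hp.w_pos
  have q0 := hp.q_pos
  have g1 := one_le_sig (q := q) hP hn2
  have s0 : 0 < s := lt_of_lt_of_le (by positivity) hs
  have b0 : 0 ≤ 1 - eta q P := by linarith
  have hA : 0 ≤ 10 / s * (∑ b ∈ G.pl a ∩ G.low (1 / 4) P, (1 - eta q P) ^ (c * G.cnt P b)) :=
    mul_nonneg (by positivity) (sum_nonneg fun b _ => pow_nonneg b0 _)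
  have hm : 0 ≤ ∑ b ∈ G.pl a, G.om P b * G.ub P H a b ^ 2 :=
    sum_nonneg fun b _ => mul_nonneg (G.om_nonneg P b) (sq_nonneg _)
  have hM : 0 ≤ 10 / (w ^ 20 * s) *
      (ind (G.single H a) * ∑ b ∈ G.pl a, G.om P b * G.ub P H a b ^ 2) :=
    mul_nonneg (by positivity) (mul_nonneg (ind_nonneg _) hm)
  have i1 := ind_nonneg (¬ G.single H a)
  have i2 := ind_nonneg (G.single H a ∧ sig q P ^ 2 * (q : ℝ) ^ 2 / w ^ 16 < G.vT w c P H a)
  have p1 := Pr_le_one (Ω := range (c + 4) ×ˢ P) e0.le e2 (fun T =>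
      ¬ (G.single H a ∧ G.Sst c ((1 - eta q P) ^ G.nuT P H a) H univ a T < v))
  by_cases ha : G.single H a
  swap
  · rw [ind_pos ha] at i1 ⊢
    linarith
  by_cases hV : sig q P ^ 2 * (q : ℝ) ^ 2 / w ^ 16 < G.vT w c P H a
  · rw [ind_pos (And.intro ha hV)]
    linarith
  rw [ind_pos ha, one_mul] at hM ⊢
  obtain ⟨-, hmean⟩ := G.pt_mean hp (H := H) hn1 a
  have hvar := G.pt_var hp hn1 hn2 ha
  have hup := G.pd_up hp (H := H) hn1 a (t := s / 5) (by positivity)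
  have hch := chebyshev (Ω := range (c + 4) ×ˢ P) e0.le e2
    (G.Sst c ((1 - eta q P) ^ G.nuT P H a) H (G.low (1 / 4) P)ᶜ a) (t := s / 10) (by positivity)
  have hx : w ^ 100 ≤ sig q P * q := hp.hq.trans (le_mul_of_one_le_left q0.le g1)
  have hv2 := MainTP_var hp.hw hx hs (V := Vr (eta q P) (range (c + 4) ×ˢ P)
    (G.Sst c ((1 - eta q P) ^ G.nuT P H a) H (G.low (1 / 4) P)ᶜ a)) (by
      rw [mul_pow]; linarith [not_lt.1 hV])
  generalize ∑ b ∈ G.pl a, G.om P b * G.ub P H a b ^ 2 = m at *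
  generalize ∑ b ∈ G.pl a ∩ G.low (1 / 4) P, (1 - eta q P) ^ (c * G.cnt P b) = A at *
  have hme : 10 / (w ^ 20 * s) * m = (1 / w ^ 20 * m) / (s / 10) := by field_simp
  by_cases hb : s / 10 ≤ 1 / w ^ 20 * m
  · have : 1 ≤ 10 / (w ^ 20 * s) * m := by
      rw [hme]; exact (one_le_div (by positivity)).2 hb
    linarith
  have hAe : 2 * A / (s / 5) = 10 / s * A := by field_simp; ring
  have key := (Pr_mono (Ω := range (c + 4) ×ˢ P) e0.le e2 (p := fun T =>
      ¬ (G.single H a ∧ G.Sst c ((1 - eta q P) ^ G.nuT P H a) H univ a T < v))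
    (p' := fun T => s / 5 ≤ G.Sst c ((1 - eta q P) ^ G.nuT P H a) H (G.low (1 / 4) P) a T ∨
      Ex (eta q P) (range (c + 4) ×ˢ P)
        (G.Sst c ((1 - eta q P) ^ G.nuT P H a) H (G.low (1 / 4) P)ᶜ a) + s / 10 ≤
        G.Sst c ((1 - eta q P) ^ G.nuT P H a) H (G.low (1 / 4) P)ᶜ a T) (by
      intro T _ hT
      have h1 : (v : ℝ) ≤ G.Sst c ((1 - eta q P) ^ G.nuT P H a) H univ a T :=
        not_lt.1 fun h => hT ⟨ha, h⟩
      rw [G.Sst_univ c _ H (G.low (1 / 4) P) a T] at h1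
      by_contra hc
      rw [not_or, not_le, not_le] at hc
      linarith [hc.1, hc.2, not_le.1 hb])).trans (Pr_or e0.le e2 _ _)
  linarith

omit [DecidableEq Pt] in
theorem MainTP_ind (P : Finset Pt) (p : Pt → Prop) : ∑ a ∈ P, ind (p a) ≤ ((sel p).card : ℝ) := by
  rw [card_sel]
  exact sum_le_sum_of_subset_of_nonneg (subset_univ _) fun a _ _ => ind_nonneg _

omit [Fintype Pt] [DecidableEq Pt] in
theorem MainTP_sel (P : Finset Pt) (p : Pt → Prop) (f : Pt → ℝ) :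
    ∑ a ∈ P, ind (p a) * f a = ∑ a ∈ selIn P p, f a := by
  classical
  simp only [selIn, ind, sum_filter]
  exact sum_congr rfl fun a _ => by split_ifs <;> simp

theorem MainTP_low {w : ℝ} {c : ℕ} (hp : Par q w c) {P : Finset Pt}
    (hn1 : 4 * (c + 4) * q ≤ P.card) (hE : G.Ext (1 / 2 ^ 27) P w) :
    10 / (G.Zs c P univ / (2 ^ 12 * q)) *
      ∑ a ∈ P, ∑ b ∈ G.pl a ∩ G.low (1 / 4) P, (1 - eta q P) ^ (c * G.cnt P b) ≤
      P.card / 40 := by
  obtain ⟨hP, e0, -, e1⟩ := PointD_basic hp hn1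
  have e2 : eta q P ≤ 1 := by linarith
  have w0 := hp.w_pos
  have q0 := hp.q_pos
  have n0 : (0 : ℝ) < P.card := by exact_mod_cast hP.card_pos
  have g0 : 0 < sig q P := by unfold sig; positivity
  have hZ := G.Zs_ge hp hn1 hE
  have Z0 : 0 < G.Zs c P univ := lt_of_lt_of_le (by positivity) hZ
  have h1 := G.sum_tb_low hP e2 c univ
  have h2 := hp.exp21
  have h3 : eta q P * ∑ a ∈ P, ∑ b ∈ G.pl a ∩ G.low (1 / 4) P, (1 - eta q P) ^ (c * G.cnt P b) =
      ∑ b ∈ G.low (1 / 4) P ∩ univ, G.tb P b * (1 - eta q P) ^ (c * G.cnt P b) := by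
    have := G.sum_sum_pl P fun b =>
      if b ∈ G.low (1 / 4) P then (1 - eta q P) ^ (c * G.cnt P b) else 0
    simp only [sum_ite_mem, mul_ite, mul_zero, univ_inter] at this
    rw [this, inter_univ, mul_sum]
    exact sum_congr rfl fun b _ => by rw [tb, mul_assoc]
  have h4 := eta_mul_card (q := q) hP
  have h5 : (q : ℝ) ^ 2 * sig q P * Real.exp (-(c : ℝ) / 2 ^ 21) / 2 ≤ G.Zs c P univ / 2 ^ 30 := by
    have a1 : (q : ℝ) ^ 2 * sig q P * Real.exp (-(c : ℝ) / 2 ^ 21) ≤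
        (q : ℝ) ^ 2 * sig q P * (1 / w ^ 4) := mul_le_mul_of_nonneg_left h2 (by positivity)
    have a2 : (q : ℝ) ^ 2 * sig q P * (1 / w ^ 4) = (q : ℝ) ^ 2 * sig q P / w ^ 2 / w ^ 2 := by
      field_simp
    have a3 : (2 : ℝ) ^ 30 ≤ w ^ 2 := hp.hw.trans (le_self_pow₀ hp.one_le_w (by norm_num))
    have a4 : (q : ℝ) ^ 2 * sig q P / w ^ 2 / w ^ 2 ≤ G.Zs c P univ / 2 ^ 30 :=
      div_le_div₀ Z0.le hZ (by norm_num) a3
    have a5 : 0 ≤ G.Zs c P univ / 2 ^ 30 := by positivity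
    linarith
  rw [← h3] at h1
  generalize ∑ a ∈ P, ∑ b ∈ G.pl a ∩ G.low (1 / 4) P, (1 - eta q P) ^ (c * G.cnt P b) = A at *
  generalize G.Zs c P univ = Z at *
  have h6 : eta q P * A ≤ Z / (400 * 2 ^ 12) := by linarith
  have h7 : 10 / (Z / (2 ^ 12 * q)) * A = 10 * 2 ^ 12 * P.card / Z * (eta q P * A) := by
    rw [← h4]; field_simp
  rw [h7]
  calc _ ≤ 10 * 2 ^ 12 * P.card / Z * (Z / (400 * 2 ^ 12)) :=
        mul_le_mul_of_nonneg_left h6 (by positivity)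
    _ = _ := by field_simp; ring

/-- `s = Zs / (2^12 q)`. Discard points that are not single (`n/100`), have large `vT` (`3n/100`)
or mean of the non-low part at least `0.1 s` (`pt_mean`, `sum_mean_T`, Markov: `n/100`). For the
others `Pr (v ≤ Sst) ≤ Pr (0.2 s ≤ Sst low) + Pr (mean + 0.1 s ≤ Sst lowᶜ)`; the first terms sum to
at most `n/40` (`pd_up`, `sum_sum_pl`, `sum_tb_low`, `exp21`, `Zs_ge`), the second is at most
`1/100` (`chebyshev`, `pt_var`). -/
theorem main_tp {w : ℝ} {c : ℕ} (hp : Par q w c) {P H : Finset Pt}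
    (hn1 : 4 * (c + 4) * q ≤ P.card) (hn2 : P.card ≤ q ^ 2) (hE : G.Ext (1 / 2 ^ 27) P w)
    (hH : G.HOK w P H) {v : ℕ} (hv : 0.4 * (G.Zs c P univ / (2 ^ 12 * q)) ≤ (v : ℝ)) :
    Ex (eta q P) (range (c + 4) ×ˢ P)
      (fun T => ((P \ G.dec c (1 - eta q P) (G.nuT P H) H v T).card : ℝ)) ≤ P.card / 8 := by
  obtain ⟨hP, e0, -, e1⟩ := PointD_basic hp hn1
  have w0 := hp.w_pos
  have q0 := hp.q_pos
  have n0 : (0 : ℝ) < P.card := by exact_mod_cast hP.card_pos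
  have g1 := one_le_sig (q := q) hP hn2
  have hs := G.MainTP_s hp hn1 hE
  have hlow := G.MainTP_low hp hn1 hE
  have hpt := G.MainTP_pt hp (H := H) hn1 hn2 hs hv
  generalize G.Zs c P univ / (2 ^ 12 * q) = s at *
  have s0 : 0 < s := lt_of_lt_of_le (by positivity) hs
  have h1 : (fun T => ((P \ G.dec c (1 - eta q P) (G.nuT P H) H v T).card : ℝ)) = fun T =>
      ((selIn P fun a => ¬ (G.single H a ∧
        G.Sst c ((1 - eta q P) ^ G.nuT P H a) H univ a T < v)).card : ℝ) := by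
    funext T
    congr 2
    ext a
    rw [mem_sdiff, mem_selIn, dec, mem_sel]
  rw [h1, Ex_card_selIn]
  refine (sum_le_sum fun a _ => hpt a).trans ?_
  rw [sum_add_distrib, sum_add_distrib, sum_add_distrib, sum_add_distrib, ← mul_sum, ← mul_sum,
    MainTP_sel, sum_const, nsmul_eq_mul]
  have a1 := MainTP_ind P fun a => ¬ G.single H a
  have a2 := MainTP_ind P fun a =>
    G.single H a ∧ sig q P ^ 2 * (q : ℝ) ^ 2 / w ^ 16 < G.vT w c P H a
  have b1 : (100 : ℝ) * (sel fun a => ¬ G.single H a).card ≤ P.card := by exact_mod_cast hH.multi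
  have b2 : (100 : ℝ) * (sel fun a => G.single H a ∧
      sig q P ^ 2 * (q : ℝ) ^ 2 / w ^ 16 < G.vT w c P H a).card ≤ 3 * P.card := by
    exact_mod_cast G.card_vT_large hp hn1 hn2 hH
  have b3 := mul_le_mul_of_nonneg_left (G.sum_mean_T hp hn1 hH)
    (show 0 ≤ 10 / (w ^ 20 * s) by positivity)
  have b4 : 10 / (w ^ 20 * s) * (33 * P.card * q * sig q P) ≤ P.card / 100 := by
    rw [div_le_iff₀ (by positivity)] at hs
    have c1 : (33000 : ℝ) ≤ w ^ 17 :=
      (le_trans (by norm_num) hp.hw).trans (le_self_pow₀ hp.one_le_w (by norm_num))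
    have c2 : sig q P * q * 33000 ≤ s * w ^ 3 * w ^ 17 :=
      mul_le_mul hs c1 (by norm_num) (by positivity)
    rw [div_mul_eq_mul_div, div_le_div_iff₀ (by positivity) (by norm_num)]
    calc 10 * (33 * (P.card : ℝ) * q * sig q P) * 100 = P.card * (sig q P * q * 33000) := by ring
      _ ≤ P.card * (s * w ^ 3 * w ^ 17) := mul_le_mul_of_nonneg_left c2 n0.le
      _ = _ := by ring
  linarith

/-- `v = ⌈0.4 s⌉₊`; three applications of `markov` (probabilities `1/10`, `1/4`, `1/10`) and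
`exists_of_Pr_lt_one` -/
theorem main_rec {w : ℝ} {c : ℕ} (hp : Par q w c) {P H : Finset Pt}
    (hn1 : 4 * (c + 4) * q ≤ P.card) (hn2 : P.card ≤ q ^ 2) (hE : G.Ext (1 / 2 ^ 27) P w)
    (hH : G.HOK w P H) :
    ∃ T ⊆ range (c + 4) ×ˢ P, T.card ≤ 10 * (c + 4) * q ∧ ∃ v ≤ 2 * q ^ 2,
      P.card ≤ 2 * (P ∩ G.dec c (1 - eta q P) (G.nuT P H) H v T).card ∧
      ((G.dec c (1 - eta q P) (G.nuT P H) H v T).card : ℝ) ≤ 30 * w ^ 22 * P.card := by
  obtain ⟨hP, e0, -, e1⟩ := PointD_basic hp hn1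
  have e2 : eta q P ≤ 1 := by linarith
  have w0 := hp.w_pos
  have q0 := hp.q_pos
  have n0 : (0 : ℝ) < P.card := by exact_mod_cast hP.card_pos
  have g1 := one_le_sig (q := q) hP hn2
  have hs := G.MainTP_s hp hn1 hE
  have s5 : 5 ≤ G.Zs c P univ / (2 ^ 12 * q) := by
    refine le_trans ?_ hs
    rw [le_div_iff₀ (by positivity)]
    have c1 : (5 : ℝ) ≤ w := le_trans (by norm_num) hp.hw
    calc 5 * w ^ 3 ≤ w * w ^ 3 := mul_le_mul_of_nonneg_right c1 (by positivity)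
      _ = w ^ 4 := by ring
      _ ≤ w ^ 100 := pow_le_pow_right₀ hp.one_le_w (by norm_num)
      _ ≤ q := hp.hq
      _ ≤ _ := le_mul_of_one_le_left q0.le g1
  have sq : G.Zs c P univ / (2 ^ 12 * q) ≤ (q : ℝ) ^ 2 := by
    have c1 := G.Zs_upper e0.le e2 c univ
    have c2 : ((G.low (1 / 4) P ∩ univ).card : ℝ) ≤ Fintype.card Pt := by
      exact_mod_cast card_le_univ _
    have c3 := G.card_pt_le
    have c4 : (0 : ℝ) < (q : ℝ) ^ 3 := by positivity
    rw [div_le_iff₀ (by positivity)]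
    have c5 : (q : ℝ) ^ 2 * (2 ^ 12 * q) = 2 ^ 12 * (q : ℝ) ^ 3 := by ring
    linarith
  obtain ⟨v, hv1, hv2⟩ : ∃ v : ℕ, 0.4 * (G.Zs c P univ / (2 ^ 12 * q)) ≤ (v : ℝ) ∧
      (v : ℝ) ≤ 0.6 * (G.Zs c P univ / (2 ^ 12 * q)) := by
    refine ⟨⌈0.4 * (G.Zs c P univ / (2 ^ 12 * q))⌉₊, Nat.le_ceil _, ?_⟩
    have := Nat.ceil_lt_add_one (show 0 ≤ 0.4 * (G.Zs c P univ / (2 ^ 12 * q)) by linarith)
    linarith
  have hv3 : v ≤ 2 * q ^ 2 := by
    have : (v : ℝ) ≤ 2 * (q : ℝ) ^ 2 := by linarith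
    exact_mod_cast this
  have htp := G.main_tp hp hn1 hn2 hE hH hv1
  have hfp := G.main_fp hp hn1 hn2 hE hH hv2
  have hc : Ex (eta q P) (range (c + 4) ×ˢ P) (fun T => (T.card : ℝ)) = (c + 4) * q := by
    rw [Ex_congr (g := fun T => ((T ∩ range (c + 4) ×ˢ P).card : ℝ))
      fun T hT => by rw [inter_eq_left.2 hT], Ex_card, inter_self, card_product, card_range,
      ← eta_mul_card (q := q) hP]
    push_cast
    ring
  have m1 := markov (Ω := range (c + 4) ×ˢ P) e0.le e2 (f := fun T => (T.card : ℝ))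
    (fun T _ => Nat.cast_nonneg _) (t := 10 * ((c + 4) * q)) (by positivity)
  have m2 := markov (Ω := range (c + 4) ×ˢ P) e0.le e2
    (f := fun T => ((P \ G.dec c (1 - eta q P) (G.nuT P H) H v T).card : ℝ))
    (fun T _ => Nat.cast_nonneg _) (t := P.card / 2) (by positivity)
  have m3 := markov (Ω := range (c + 4) ×ˢ P) e0.le e2
    (f := fun T => ((G.dec c (1 - eta q P) (G.nuT P H) H v T).card : ℝ))
    (fun T _ => Nat.cast_nonneg _) (t := 30 * w ^ 22 * P.card) (by positivity)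
  replace m1 := m1.trans (show _ ≤ (1 : ℝ) / 10 by
    rw [hc, div_le_iff₀ (by positivity)]; linarith)
  replace m2 := m2.trans (show _ ≤ (1 : ℝ) / 4 by
    rw [div_le_iff₀ (by positivity)]; linarith)
  replace m3 := m3.trans (show _ ≤ (1 : ℝ) / 10 by
    rw [div_le_iff₀ (by positivity)]; linarith)
  obtain ⟨T, hT, h⟩ := exists_of_Pr_lt_one (((Pr_or e0.le e2 _ _).trans
    (add_le_add m1 ((Pr_or e0.le e2 _ _).trans (add_le_add m2 m3)))).trans_lt (by norm_num))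
  rw [not_or, not_or, not_le, not_le, not_le] at h
  obtain ⟨h1, h2, h3⟩ := h
  refine ⟨T, hT, ?_, v, hv3, ?_, h3.le⟩
  · have : (T.card : ℝ) ≤ 10 * (c + 4) * q := by linarith
    exact_mod_cast this
  · have h4 : ((P \ G.dec c (1 - eta q P) (G.nuT P H) H v T).card : ℝ) +
        (P ∩ G.dec c (1 - eta q P) (G.nuT P H) H v T).card = P.card := by
      exact_mod_cast card_sdiff_add_card_inter _ _
    have : (P.card : ℝ) ≤ 2 * (P ∩ G.dec c (1 - eta q P) (G.nuT P H) H v T).card := by linarith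
    exact_mod_cast this

end PG
end Pool.Agent.Work.MP_e10cd8_co.Four
end

-- merged part: Pool.Agent.Work.MP_e10cd8_co.Four.Heavy
section
/-! The set of heavy planes (paper 5.1). -/

namespace Pool.Agent.Work.MP_e10cd8_co.Four
namespace PG
open Finset

variable {q : ℕ} {Pt : Type} [Fintype Pt] [DecidableEq Pt] (G : PG q Pt)

theorem Heavy_sq (P H : Finset Pt) :
    ∑ x ∈ P, G.cnt H x ^ 2 ≤ ∑ b ∈ H, G.cnt P b + H.card ^ 2 * (q + 1) := by
  have h1 : ∀ x, G.cnt H x ^ 2 = ∑ b ∈ H, if x ∈ G.pl b then G.cnt H x else 0 := by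
    intro x
    rw [← sum_filter, sum_const, smul_eq_mul, sq]
    congr 1
    unfold cnt
    congr 1
    ext b
    simp only [mem_inter, mem_filter, G.symm b x]
    tauto
  have h2 : ∀ b, (∑ x ∈ P, if x ∈ G.pl b then G.cnt H x else 0) =
      ∑ b' ∈ H, G.cnt (G.pl b ∩ P) b' := by
    intro b
    rw [G.sum_cnt_comm, ← sum_filter]
    congr 1
    ext x
    simp only [mem_inter, mem_filter]
    tauto
  have h3 : ∀ b ∈ H, ∑ b' ∈ H, G.cnt (G.pl b ∩ P) b' ≤ G.cnt P b + H.card * (q + 1) := by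
    intro b hb
    have h4 : ∀ b' ∈ H, G.cnt (G.pl b ∩ P) b' ≤ (if b' = b then G.cnt P b else 0) + (q + 1) := by
      intro b' _
      by_cases hbb : b' = b
      · subst hbb
        rw [if_pos rfl]
        refine le_trans ?_ (Nat.le_add_right _ _)
        exact card_le_card inter_subset_right
      · rw [if_neg hbb, zero_add, ← G.codeg b' b hbb]
        exact card_le_card (inter_subset_inter_left inter_subset_left)
    refine (sum_le_sum h4).trans ?_
    rw [sum_add_distrib, sum_ite_eq', if_pos hb, sum_const, smul_eq_mul]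
  rw [sum_congr rfl fun x _ => h1 x, sum_comm, sum_congr rfl fun b _ => h2 b]
  refine (sum_le_sum h3).trans ?_
  rw [sum_add_distrib, sum_const, smul_eq_mul, sq, mul_assoc]

theorem Heavy_cs (P H : Finset Pt) :
    (∑ b ∈ H, (G.cnt P b : ℝ)) ^ 2 ≤
      P.card * (∑ b ∈ H, (G.cnt P b : ℝ) + (H.card : ℝ) ^ 2 * (q + 1)) := by
  have h1 : (∑ x ∈ P, G.cnt H x) ^ 2 ≤ P.card * ∑ x ∈ P, G.cnt H x ^ 2 :=
    sq_sum_le_card_mul_sum_sq
  rw [← G.sum_cnt_comm] at h1
  have h2 := h1.trans (Nat.mul_le_mul_left _ (G.Heavy_sq P H))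
  exact_mod_cast h2

theorem Heavy_multi (H : Finset Pt) :
    (sel fun a => ¬ G.single H a).card ≤ H.card ^ 2 * (q + 1) := by
  have h1 : (sel fun a => ¬ G.single H a) ⊆ H.offDiag.biUnion fun p => G.pl p.1 ∩ G.pl p.2 := by
    intro a ha
    rw [mem_sel, single, not_le, one_lt_card] at ha
    obtain ⟨b, hb, b', hb', hne⟩ := ha
    rw [mem_inter] at hb hb'
    exact mem_biUnion.2 ⟨(b, b'), mem_offDiag.2 ⟨hb.1, hb'.1, hne⟩,
      mem_inter.2 ⟨(G.symm a b).2 hb.2, (G.symm a b').2 hb'.2⟩⟩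
  refine (card_le_card h1).trans (card_biUnion_le.trans ?_)
  have h2 : ∑ p ∈ H.offDiag, (G.pl p.1 ∩ G.pl p.2).card = H.offDiag.card * (q + 1) := by
    rw [sum_congr rfl (g := fun _ => q + 1) fun p hp => G.codeg _ _ (mem_offDiag.1 hp).2.2,
      sum_const, smul_eq_mul]
  rw [h2, offDiag_card, sq]
  exact Nat.mul_le_mul_right _ (Nat.sub_le _ _)

omit [Fintype Pt] [DecidableEq Pt] in
theorem Heavy_eta_nonneg (P : Finset Pt) : 0 ≤ eta q P := by unfold eta; positivity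

theorem Heavy_dl_nonneg (P : Finset Pt) (a y : Pt) : 0 ≤ G.dl P a y :=
  mul_nonneg (Heavy_eta_nonneg P) (Nat.cast_nonneg _)

theorem Heavy_mu_le (P : Finset Pt) (a y : Pt) {t : ℝ} (h : min 1 (G.dl P a y) ≤ t) :
    (min 1 (G.dl P a y)) ^ 2 ≤ t ^ 2 :=
  pow_le_pow_left₀ (le_min zero_le_one (G.Heavy_dl_nonneg P a y)) h 2

theorem Heavy_Wf_le {P : Finset Pt} (hP : P.Nonempty) (H : Finset Pt) (a : Pt) :
    G.Wf P H a ≤ q := by
  have h1 : ∑ y ∈ P.erase a \ G.th H a, (min 1 (G.dl P a y)) ^ 2 ≤ (P.card : ℝ) := by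
    refine (sum_le_sum fun y _ => G.Heavy_mu_le P a y (min_le_left _ _)).trans ?_
    rw [sum_const, nsmul_eq_mul, one_pow, mul_one]
    exact_mod_cast card_le_card (sdiff_subset.trans (erase_subset _ _))
  rw [← eta_mul_card (q := q) hP]
  exact mul_le_mul_of_nonneg_left h1 (Heavy_eta_nonneg P)

/-- off the heavy planes through `a`, all planes through `a` and `y` are light -/
theorem Heavy_light {P : Finset Pt} {t : ℝ} {a y : Pt}
    (hy : y ∉ G.th (sel fun b => t ≤ (G.cnt P b : ℝ)) a) :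
    ∀ b ∈ G.pl a ∩ G.pl y, (G.cnt P b : ℝ) < t := by
  intro b hb
  by_contra hn
  rw [mem_inter] at hb
  exact hy (mem_biUnion.2 ⟨b, mem_inter.2 ⟨mem_sel.2 (not_lt.1 hn), hb.1⟩, (G.symm y b).2 hb.2⟩)

theorem Heavy_Wf_Wr {P : Finset Pt} (hP : P.Nonempty) (d0 : ℝ) (a : Pt) :
    G.Wf P (sel fun b => d0 * P.card / 8 ≤ (G.cnt P b : ℝ)) a ≤ q * d0 ^ 2 + G.Wr P d0 a := by
  classical
  set S := P.erase a \ G.th (sel fun b => d0 * P.card / 8 ≤ (G.cnt P b : ℝ)) a with hS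
  set R := selIn (P.erase a) (fun y => d0 ≤ G.dl P a y ∧
    ∀ b ∈ G.pl a ∩ G.pl y, (G.cnt P b : ℝ) < d0 * P.card / 8) with hR
  have h1 : ∑ y ∈ S, (min 1 (G.dl P a y)) ^ 2 ≤
      P.card * d0 ^ 2 + ∑ y ∈ R, (min 1 (G.dl P a y)) ^ 2 := by
    rw [← sum_filter_add_sum_filter_not S fun y => G.dl P a y < d0]
    refine add_le_add ?_ ?_
    · refine (sum_le_sum fun y hy => G.Heavy_mu_le P a y
        ((min_le_right _ _).trans (mem_filter.1 hy).2.le)).trans ?_
      rw [sum_const, nsmul_eq_mul]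
      refine mul_le_mul_of_nonneg_right ?_ (sq_nonneg _)
      exact_mod_cast card_le_card ((filter_subset _ _).trans
        (sdiff_subset.trans (erase_subset _ _)))
    · refine sum_le_sum_of_subset_of_nonneg ?_ fun y _ _ => sq_nonneg _
      intro y hy
      rw [mem_filter, hS, mem_sdiff] at hy
      exact mem_selIn.2 ⟨hy.1.1, not_lt.1 hy.2, G.Heavy_light hy.1.2⟩
  have h2 := mul_le_mul_of_nonneg_left h1 (Heavy_eta_nonneg (q := q) P)
  rw [mul_add, ← mul_assoc, eta_mul_card hP] at h2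
  exact h2

theorem Heavy_Wr_ge {P : Finset Pt} {d0 : ℝ} (hd : 2 * eta q P ≤ d0) (hd' : d0 ≤ 1 / 16)
    {a y : Pt} (hy : y ∈ P.erase a \ G.th (sel fun b => d0 * P.card / 8 ≤ (G.cnt P b : ℝ)) a)
    (hl : 1 / 16 < G.dl P a y) : 1 / 2 ^ 13 ≤ G.Wr P d0 a := by
  rw [mem_sdiff, mem_erase] at hy
  have hA := G.inter_mem_lines hy.1.1.symm
  have ha : a ∈ G.perp (G.pl a ∩ G.pl y) := G.mem_perp.2 inter_subset_left
  set U := (G.perp (G.pl a ∩ G.pl y) ∩ P).erase a with hU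
  have hU1 : ∀ z ∈ U, G.pl a ∩ G.pl z = G.pl a ∩ G.pl y := by
    intro z hz
    rw [hU, mem_erase, mem_inter] at hz
    exact G.line_eq hA ha hz.2.1 hz.1.symm
  have hU2 : ∀ z ∈ U, G.dl P a z = G.dl P a y := by
    intro z hz
    unfold dl
    rw [hU1 z hz]
  have hU3 : U ⊆ selIn (P.erase a) (fun y => d0 ≤ G.dl P a y ∧
      ∀ b ∈ G.pl a ∩ G.pl y, (G.cnt P b : ℝ) < d0 * P.card / 8) := by
    intro z hz
    refine mem_selIn.2 ⟨?_, ?_, ?_⟩
    · rw [hU, mem_erase, mem_inter] at hz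
      exact mem_erase.2 ⟨hz.1, hz.2.2⟩
    · rw [hU2 z hz]; linarith
    · rw [hU1 z hz]; exact G.Heavy_light hy.2
  have h1 : (U.card : ℝ) * (1 / 16) ^ 2 ≤ ∑ z ∈ U, (min 1 (G.dl P a z)) ^ 2 := by
    rw [← nsmul_eq_mul, ← sum_const]
    refine sum_le_sum fun z hz => pow_le_pow_left₀ (by norm_num) (le_min (by norm_num) ?_) 2
    rw [hU2 z hz]; exact hl.le
  have h2 := h1.trans (sum_le_sum_of_subset_of_nonneg hU3 fun z _ _ => sq_nonneg _)
  have h3 := mul_le_mul_of_nonneg_left h2 (Heavy_eta_nonneg (q := q) P)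
  have h4 : ((G.perp (G.pl a ∩ G.pl y) ∩ P).card : ℝ) ≤ U.card + 1 := by
    have := pred_card_le_card_erase (s := G.perp (G.pl a ∩ G.pl y) ∩ P) (a := a)
    rw [← hU] at this
    exact_mod_cast (by omega : (G.perp (G.pl a ∩ G.pl y) ∩ P).card ≤ U.card + 1)
  have h5 := mul_le_mul_of_nonneg_left h4 (Heavy_eta_nonneg (q := q) P)
  unfold dl at hl
  unfold Wr
  nlinarith

omit [DecidableEq Pt] in
theorem Heavy_markov (f : Pt → ℝ) (S : Finset Pt) {t : ℝ} (ht : 0 ≤ t) (h : ∀ a ∈ S, t ≤ f a) :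
    (S.card : ℝ) * t ^ 2 ≤ ∑ a, f a ^ 2 := by
  rw [← nsmul_eq_mul, ← sum_const]
  exact (sum_le_sum fun a ha => pow_le_pow_left₀ ht (h a ha) 2).trans
    (sum_le_sum_of_subset_of_nonneg (subset_univ _) fun a _ _ => sq_nonneg _)

/-- the numerical core of the Cauchy-Schwarz step -/
theorem Heavy_num {I m n Q d : ℝ} (hn : 0 < n) (hQ : 1 ≤ Q) (hd : 0 < d) (hm : 0 ≤ m)
    (h1 : I ^ 2 ≤ n * (I + m ^ 2 * (Q + 1))) (h2 : m * (d * n / 8) ≤ I)
    (h3 : 256 * Q ≤ d ^ 2 * n) : I ≤ 2 * n ∧ m * d ≤ 16 := by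
  have h4 : (m * (d * n / 8)) ^ 2 ≤ I ^ 2 := pow_le_pow_left₀ (by positivity) h2 2
  have h5 : m ^ 2 * n * (256 * Q) ≤ m ^ 2 * n * (d ^ 2 * n) :=
    mul_le_mul_of_nonneg_left h3 (by positivity)
  have h6 : m ^ 2 * n * 1 ≤ m ^ 2 * n * Q := mul_le_mul_of_nonneg_left hQ (by positivity)
  have h7 : I ^ 2 ≤ 2 * n * I := by nlinarith
  have h8 : I ≤ 2 * n := by
    by_contra hc
    have hc' := not_le.1 hc
    nlinarith
  refine ⟨h8, ?_⟩
  have h9 : m * d * n ≤ 16 * n := by linarith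
  exact le_of_mul_le_mul_right h9 hn

theorem Heavy_empty {w : ℝ} {c : ℕ} (hp : Par q w c) {P : Finset Pt} (hP : P.Nonempty)
    (h : (q : ℝ) ≤ sig q P ^ 2 * w ^ 20) : G.HOK w P ∅ := by
  refine ⟨by simp, by simp, by simp, ?_, ?_, Or.inl ?_⟩
  · have : (sel fun a => ¬ G.single ∅ a) = ∅ := by
      ext a
      simp [single]
    rw [this]; simp
  · have : (sel fun a => G.single ∅ a ∧ sig q P ^ 2 * w ^ 20 < G.Wf P ∅ a) = ∅ := by
      ext a
      simp only [mem_sel, notMem_empty, iff_false, not_and, not_lt]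
      exact fun _ => (G.Heavy_Wf_le hP ∅ a).trans h
    rw [this]; simp
  · have hw := hp.hw
    have hw0 := hp.w_pos
    have h1 : w ^ 80 * w ^ 20 ≤ sig q P ^ 2 * w ^ 20 := by
      rw [← pow_add]; exact hp.hq.trans h
    have h2 : (w ^ 40) ^ 2 ≤ sig q P ^ 2 := by
      rw [← pow_mul]; exact le_of_mul_le_mul_right h1 (by positivity)
    have h3 : w ^ 40 ≤ sig q P :=
      (pow_le_pow_iff_left₀ (by positivity) (by unfold sig; positivity) two_ne_zero).1 h2
    have h4 : w ^ 6 ≤ w ^ 40 := pow_le_pow_right₀ hp.one_le_w (by norm_num)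
    have h5 : 4 * w ^ 5 ≤ w * w ^ 5 := mul_le_mul_of_nonneg_right (by linarith) (by positivity)
    have h6 : w * w ^ 5 = w ^ 6 := by ring
    linarith

/-- If `q ≤ σ^2 w^20` take `H = ∅` (then `Wf ≤ q`, and `σ ≥ w^40`). Otherwise let
`d0 = sqrt (w^20 σ^2 / (2 q))` and `H = {b | d0 n / 8 ≤ cnt P b}`. Cauchy-Schwarz over `x ∈ P` for
the number of planes of `H` through `x` (two planes share `q + 1 ≤ 2 q` points) gives
`I^2 ≤ n (I + 2 q |H|^2)` for `I = ∑ H cnt ≥ |H| d0 n / 8`, hence `I ≤ 2 n`, `|H| ≤ 16 / d0 ≤ q`;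
points on two planes of `H` number at most `|H|^2 (q+1) ≤ n / 100`. For single `a` and
`y ∉ th H a` no plane through `a, y` is in `H`, so `Wf ≤ q d0^2 + Wr`; `hair` and Markov
(`Wr > σ^2 w^20 / 2`, respectively `Wr ≥ 16^(-3)`: all points of `P.erase a` on a line with
`dl > 1/16 ≥ d0` count in `Wr`; there are at least `|perp ∩ P| - 1` of them, which costs a
factor `2` that the bound `w^22 n` absorbs). -/
theorem heavy_ok {w : ℝ} {c : ℕ} (hp : Par q w c) {P : Finset Pt}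
    (hn1 : 4 * (c + 4) * q ≤ P.card) (hn2 : P.card ≤ q ^ 2)
    (h : (q : ℝ) ≤ sig q P ^ 2 * w ^ 20 ∨ ∀ b, 2 * G.cnt P b ≤ P.card) :
    ∃ H : Finset Pt, H.card ≤ q ∧ G.HOK w P H := by
  have hq0 : 0 < q := lt_of_lt_of_le (by norm_num) G.two_le
  have hP : P.Nonempty := nonempty_of_le hq0 hn1
  by_cases hA : (q : ℝ) ≤ sig q P ^ 2 * w ^ 20
  · exact ⟨∅, by simp, G.Heavy_empty hp hP hA⟩
  have hhalf := h.resolve_left hA
  have hw := hp.hw
  have hw0 := hp.w_pos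
  have hw1 := hp.one_le_w
  have hQ0 := hp.q_pos
  have hQ2 : (2 : ℝ) ≤ q := by exact_mod_cast G.two_le
  have hn0 : (0 : ℝ) < P.card := by exact_mod_cast hP.card_pos
  have hs1 : 1 ≤ sig q P := one_le_sig hP hn2
  have hsn : sig q P * P.card = (q : ℝ) ^ 2 := sig_mul_card hP
  have hes : eta q P * q = sig q P := eta_mul_q
  have he0 := Heavy_eta_nonneg (q := q) P
  have hW : (2 : ℝ) ^ 30 ≤ w ^ 20 := hw.trans (le_self_pow₀ hw1 (by norm_num))
  obtain ⟨d0, hd0, hdd⟩ : ∃ d0 : ℝ, 0 < d0 ∧ q * d0 ^ 2 = sig q P ^ 2 * w ^ 20 / 2 := by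
    refine ⟨Real.sqrt (sig q P ^ 2 * w ^ 20 / (2 * q)), Real.sqrt_pos.2 (by positivity), ?_⟩
    rw [Real.sq_sqrt (by positivity)]
    field_simp
  generalize hσ : sig q P = σ at *
  generalize hWW : w ^ 20 = W at *
  have hs2 : 1 ≤ σ ^ 2 := one_le_pow₀ hs1
  have hsW : (2 : ℝ) ^ 30 ≤ σ * W := by nlinarith
  have hsW2 : (2 : ℝ) ^ 30 ≤ σ ^ 2 * W := by nlinarith
  have hdn : d0 ^ 2 * P.card = σ * W * q / 2 := by
    have : q * (d0 ^ 2 * P.card) = q * (σ * W * q / 2) := by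
      rw [← mul_assoc, hdd]
      linear_combination σ * W / 2 * hsn
    exact mul_left_cancel₀ hQ0.ne' this
  have hdq : 16 ≤ d0 * q := by
    refine (pow_le_pow_iff_left₀ (by norm_num) (by positivity) two_ne_zero).1 ?_
    have : (d0 * q) ^ 2 = σ ^ 2 * W / 2 * q := by rw [← hdd]; ring
    rw [this]
    nlinarith
  have hed : 2 * eta q P ≤ d0 := by
    refine (pow_le_pow_iff_left₀ (by positivity) hd0.le two_ne_zero).1 ?_
    have h1 : q * (2 * eta q P) ^ 2 ≤ q * d0 ^ 2 := by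
      rw [hdd, ← hes]
      have h2 : (eta q P) ^ 2 * q * 8 ≤ (eta q P) ^ 2 * q * (q * W) :=
        mul_le_mul_of_nonneg_left (by nlinarith) (by positivity)
      nlinarith
    exact le_of_mul_le_mul_left h1 hQ0
  set H : Finset Pt := sel fun b => d0 * P.card / 8 ≤ (G.cnt P b : ℝ) with hH
  have hHm : ∀ b ∈ H, d0 * P.card / 8 ≤ (G.cnt P b : ℝ) := fun b hb => by
    rw [hH, mem_sel] at hb
    exact hb
  have hI : (H.card : ℝ) * (d0 * P.card / 8) ≤ ∑ b ∈ H, (G.cnt P b : ℝ) := by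
    rw [← nsmul_eq_mul, ← sum_const]
    exact sum_le_sum hHm
  obtain ⟨hI2, hHd⟩ := Heavy_num hn0 (by linarith) hd0 (Nat.cast_nonneg _) (G.Heavy_cs P H) hI
    (by rw [hdn]; nlinarith)
  have hair' := G.hair hP hn2 hed
  rw [hσ] at hair'
  refine ⟨H, ?_, fun b _ => hhalf b, ?_, by exact_mod_cast hI2, ?_, ?_, ?_⟩
  · have : (H.card : ℝ) * d0 ≤ q * d0 := by linarith
    exact_mod_cast le_of_mul_le_mul_right this hd0
  · intro b hb hl
    have h1 := (hHm b hb).trans (G.mem_low.1 hl)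
    rw [le_div_iff₀ hQ0] at h1
    nlinarith
  · have h1 : ((sel fun a => ¬ G.single H a).card : ℝ) ≤ (H.card : ℝ) ^ 2 * (q + 1) := by
      exact_mod_cast G.Heavy_multi H
    have h2 : ((H.card : ℝ) * d0) ^ 2 ≤ 16 ^ 2 := pow_le_pow_left₀ (by positivity) hHd 2
    have h3 : 100 * ((H.card : ℝ) ^ 2 * (q + 1)) * d0 ^ 2 ≤ P.card * d0 ^ 2 := by
      have h4 : ((H.card : ℝ) * d0) ^ 2 * (q + 1) ≤ 16 ^ 2 * (q + 1) :=
        mul_le_mul_of_nonneg_right h2 (by positivity)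
      have h5 : 2 ^ 30 * (q : ℝ) ≤ σ * W * q := mul_le_mul_of_nonneg_right hsW hQ0.le
      nlinarith
    have h6 := le_of_mul_le_mul_right h3 (by positivity)
    have h7 : 100 * ((sel fun a => ¬ G.single H a).card : ℝ) ≤ P.card := by linarith
    exact_mod_cast h7
  · rw [hσ, hWW]
    have h1 := Heavy_markov (G.Wr P d0) (sel fun a => G.single H a ∧ σ ^ 2 * W < G.Wf P H a)
      (t := σ ^ 2 * W / 2) (by positivity) fun a ha => by
        have h2 := (mem_sel.1 ha).2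
        have h3 := G.Heavy_Wf_Wr hP d0 a
        rw [← hH] at h3
        linarith
    generalize (sel fun a => G.single H a ∧ σ ^ 2 * W < G.Wf P H a).card = m at h1 ⊢
    have h2 : (m : ℝ) * (σ ^ 2 * W / 2) ^ 2 ≤ 340 * (σ * P.card) * σ ^ 3 := by
      rw [hsn]; exact h1.trans hair'
    have h3 : σ ^ 4 * ((m : ℝ) * W ^ 2) ≤ σ ^ 4 * (1360 * P.card) := by nlinarith
    have h4 := le_of_mul_le_mul_left h3 (by positivity)
    have h5 : (m : ℝ) * 136000 ≤ m * W ^ 2 :=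
      mul_le_mul_of_nonneg_left (by nlinarith) (Nat.cast_nonneg _)
    have h7 : 100 * (m : ℝ) ≤ P.card := by linarith
    exact_mod_cast h7
  · rw [hσ]
    by_cases hσ5 : 4 * w ^ 5 ≤ σ
    · exact Or.inl hσ5
    right
    have hσ4 : σ ^ 2 ≤ 16 * w ^ 10 := by
      have := pow_le_pow_left₀ (by linarith) (not_le.1 hσ5).le 2
      linarith [show (4 * w ^ 5) ^ 2 = 16 * w ^ 10 by ring]
    have hd16 : d0 ≤ 1 / 16 := by
      refine (pow_le_pow_iff_left₀ hd0.le (by norm_num) two_ne_zero).1 ?_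
      have h1 : w ^ 31 ≤ q := (pow_le_pow_right₀ hw1 (by norm_num)).trans hp.hq
      have h2 : w ^ 31 = w * (w ^ 10 * W) := by rw [← hWW]; ring
      have h3 : σ ^ 2 * W ≤ 16 * w ^ 10 * W := mul_le_mul_of_nonneg_right hσ4 (by linarith)
      have h4 : 2 ^ 30 * (w ^ 10 * W) ≤ w * (w ^ 10 * W) :=
        mul_le_mul_of_nonneg_right hw (mul_nonneg (by positivity) (by linarith))
      have h5 : q * d0 ^ 2 ≤ q * (1 / 16) ^ 2 := by
        rw [hdd]
        have h6 : 0 ≤ w ^ 10 * W := mul_nonneg (by positivity) (by linarith)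
        nlinarith
      exact le_of_mul_le_mul_left h5 hQ0
    have h1 := Heavy_markov (G.Wr P d0) (sel fun a => G.single H a ∧
        ∃ y ∈ P.erase a \ G.th H a, 1 / 16 < G.dl P a y)
      (t := 1 / 2 ^ 13) (by positivity) fun a ha => by
        obtain ⟨y, hy, hl⟩ := (mem_sel.1 ha).2
        exact G.Heavy_Wr_ge hed hd16 hy hl
    generalize (sel fun a => G.single H a ∧
        ∃ y ∈ P.erase a \ G.th H a, 1 / 16 < G.dl P a y).card = m at h1 ⊢
    have h2 : (m : ℝ) * (1 / 2 ^ 13) ^ 2 ≤ 340 * (σ * P.card) * σ ^ 3 := by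
      rw [hsn]; exact h1.trans hair'
    have h3 : (σ ^ 2) ^ 2 ≤ (16 * w ^ 10) ^ 2 := pow_le_pow_left₀ (by positivity) hσ4 2
    have h4 : (16 * w ^ 10) ^ 2 = 256 * W := by rw [← hWW]; ring
    have h5 : (σ ^ 2) ^ 2 * P.card ≤ 256 * W * P.card :=
      mul_le_mul_of_nonneg_right (h4 ▸ h3) hn0.le
    have h6 : w ^ 22 = w ^ 2 * W := by rw [← hWW]; ring
    have h7 : (2 : ℝ) ^ 60 ≤ w ^ 2 := by nlinarith
    have h8 : 2 ^ 60 * (W * P.card) ≤ w ^ 2 * (W * P.card) :=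
      mul_le_mul_of_nonneg_right h7 (mul_nonneg (by linarith) hn0.le)
    have h9 : 0 ≤ W * P.card := mul_nonneg (by linarith) hn0.le
    rw [h6]
    nlinarith

end PG
end Pool.Agent.Work.MP_e10cd8_co.Four
end

-- merged part: Pool.Agent.Work.MP_e10cd8_co.Four.PlanB
section
/-! The planar case of the reconstruction (paper 5.4). -/

namespace Pool.Agent.Work.MP_e10cd8_co.Four
namespace PG
open Finset

variable {q : ℕ} {Pt : Type} [Fintype Pt] [DecidableEq Pt] (G : PG q Pt)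

theorem PlanB_exp {q x : ℝ} (hq : 0 < q) (h : x ≤ -(3 * Real.log q)) :
    2 * Real.exp x ≤ 2 / q ^ 3 := by
  have e : Real.exp (-(3 * Real.log q)) = 1 / q ^ 3 := by
    rw [Real.exp_neg, show 3 * Real.log q = Real.log (q ^ 3) by rw [Real.log_pow]; norm_num,
      Real.exp_log (by positivity), one_div]
  have := Real.exp_le_exp.2 h
  rw [e] at this
  rw [div_eq_mul_one_div]
  linarith only [this]

theorem PlanB_lam {q w s L : ℝ} (hw : 2 ^ 30 ≤ w) (hL0 : 1 ≤ L) (hL : L ≤ w) (hq : w ^ 100 ≤ q)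
    (hs0 : 0 < s) (hs : q * w ^ 16 ≤ s ^ 2) : 5 ≤ s ∧ ∃ lam : ℝ, 0 ≤ lam ∧ lam ≤ 1 / 2 ^ 20 ∧
      lam * s = 200 * L ∧ lam ^ 2 * (2 * q * (1 / w ^ 20)) ≤ 1 := by
  have w1 : 1 ≤ w := by linarith only [hw]
  have w0 : 0 < w := by linarith only [hw]
  have a1 : (w ^ 2) ^ 2 ≤ s ^ 2 := by
    refine le_trans ?_ hs
    have b1 : (w ^ 2) ^ 2 ≤ w ^ 16 := by
      rw [← pow_mul]; exact pow_le_pow_right₀ w1 (by norm_num)
    have b2 : 1 ≤ q := (one_le_pow₀ w1).trans hq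
    exact b1.trans (le_mul_of_one_le_left (by positivity) b2)
  have a2 : w ^ 2 ≤ s := (pow_le_pow_iff_left₀ (by positivity) hs0.le two_ne_zero).1 a1
  have a3 : 2 ^ 30 * w ≤ w ^ 2 := by
    rw [sq]; exact mul_le_mul_of_nonneg_right hw w0.le
  have a4 : 200 * L / s * s = 200 * L := div_mul_cancel₀ _ hs0.ne'
  refine ⟨by linarith only [a2, a3, hw], 200 * L / s, by positivity, ?_, a4, ?_⟩
  · rw [div_le_iff₀ hs0]; linarith only [a2, a3, hL, w0]
  · generalize 200 * L / s = lam at a4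
    have b1 : lam ^ 2 * (q * w ^ 16) ≤ (200 * L) ^ 2 := by
      rw [← a4, mul_pow]; exact mul_le_mul_of_nonneg_left hs (sq_nonneg _)
    have b2 : (200 * L) ^ 2 ≤ (200 * w) ^ 2 :=
      pow_le_pow_left₀ (by positivity) (by linarith only [hL]) 2
    have b3 : w ^ 3 ≤ w ^ 36 := pow_le_pow_right₀ w1 (by norm_num)
    have b4 : 2 ^ 30 * w ^ 2 ≤ w ^ 3 := by
      rw [pow_succ' w 2]; exact mul_le_mul_of_nonneg_right hw (by positivity)
    have b5 : 0 ≤ w ^ 2 := by positivity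
    rw [show lam ^ 2 * (2 * q * (1 / w ^ 20)) = 2 * (lam ^ 2 * (q * w ^ 16)) / w ^ 36 by
      field_simp, div_le_one (by positivity)]
    linarith only [b1, b2, b3, b4, b5]

theorem PlanB_swap {Y : Finset Pt} (hY : Y.Nonempty) (S : Finset Pt) (φ : Pt → ℝ) :
    q * ∑ b ∈ Y, ∑ x ∈ G.pl b ∩ S, φ x = Y.card * ∑ x ∈ S, G.tb Y x * φ x := by
  have e1 : ∑ b ∈ Y, ∑ x ∈ G.pl b ∩ S, φ x = ∑ x ∈ S, (G.cnt Y x : ℝ) * φ x := by
    simp only [← sum_ite_mem]
    rw [G.sum_sum_pl Y fun x => if x ∈ S then φ x else 0]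
    simp only [mul_ite, mul_zero, sum_ite_mem, univ_inter]
  rw [e1, mul_sum, mul_sum]
  refine sum_congr rfl fun x _ => ?_
  rw [tb, ← eta_mul_card (q := q) hY]
  have h : eta q Y * Y.card = q := eta_mul_card hY
  rw [h]
  linear_combination (-(G.cnt Y x : ℝ) * φ x) * h

theorem PlanB_Apl (c : ℕ) (π : Pt) {Y : Finset Pt} (h : eta q Y ≤ 1) (b : Pt) :
    0 ≤ G.Apl c π Y b :=
  sum_nonneg fun _ _ => pow_nonneg (sub_nonneg.2 h) _

omit [Fintype Pt] [DecidableEq Pt] in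
theorem PlanB_eta {w : ℝ} {c : ℕ} (hp : Par q w c) {Y : Finset Pt}
    (hY : 4 * (c + 4) * (q * (q + 1)) ≤ Y.card) : Y.Nonempty ∧ eta q Y ≤ 1 / 2 := by
  have q0 : 0 < q := by have := hp.thousand_le_q; omega
  have h : 4 * (c + 4) * q ≤ Y.card :=
    (Nat.mul_le_mul_left _ (Nat.le_mul_of_pos_right _ (Nat.succ_pos q))).trans hY
  have e := eta_le q0 h
  have e0 := Means_eta (q := q) Y
  have c0 : (0 : ℝ) ≤ c := Nat.cast_nonneg c
  exact ⟨nonempty_of_le q0 h, by nlinarith only [e, e0, mul_nonneg e0 c0]⟩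

/-- a plane of large weight is rarely decoded -/
theorem PlanB_fp {w : ℝ} {c : ℕ} (hp : Par q w c) {Y : Finset Pt}
    (hY : 4 * (c + 4) * (q * (q + 1)) ≤ Y.card) {π b : Pt} {s lam : ℝ} {v : ℕ} (h0 : 0 ≤ lam)
    (h1 : lam ≤ 1 / 2 ^ 20) (h2 : lam * s = 200 * Real.log q)
    (h3 : lam ^ 2 * (2 * q * (1 / w ^ 20)) ≤ 1) (hv : (v : ℝ) ≤ 3 / 5 * s)
    (hb : 3072 * s ≤ G.Apl c π Y b) :
    Pr (eta q Y) (range (c + 4) ×ˢ Y) (fun T => b ∈ G.decP c π Y.card v T) ≤ 2 / (q : ℝ) ^ 3 := by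
  obtain ⟨-, e1⟩ := PlanB_eta hp hY
  have e0 := Means_eta (q := q) Y
  have e2 : eta q Y ≤ 1 := by linarith only [e1]
  have q0 := hp.q_pos
  by_cases hbπ : b = π
  · refine le_trans (le_of_eq ?_) (show (0 : ℝ) ≤ _ by positivity)
    rw [Pr, ← Ex_const (η := eta q Y) (Ω := range (c + 4) ×ˢ Y) 0]
    exact Ex_congr fun T _ => ind_neg fun h => (G.mem_decP.1 h).1 hbπ
  have a1 := G.pl_mean_lower hp hY hbπ
  have a2 := G.pl_tail hp hY hbπ h0 (by linarith only [h1]) (G.Apl c π Y b / 20480)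
  have A0 := G.PlanB_Apl c π e2 b
  refine (Pr_mono e0 e2 fun T _ h => ?_).trans (a2.trans (PlanB_exp q0 ?_))
  · have := (G.mem_decP.1 h).2
    rw [abs_sub_comm]
    refine le_trans ?_ (le_abs_self _)
    linarith only [this, a1, hv, hb]
  · have L1 := hp.one_le_L
    have b1 := mul_le_mul_of_nonneg_left hb h0
    have b2 := mul_le_mul_of_nonneg_left h1 (mul_nonneg h0 A0)
    linarith only [b1, b2, h2, h3, L1]

/-- a plane of small weight is usually decoded -/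
theorem PlanB_tp {w : ℝ} {c : ℕ} (hp : Par q w c) {Y : Finset Pt}
    (hY : 4 * (c + 4) * (q * (q + 1)) ≤ Y.card) {π b : Pt} (hbπ : b ≠ π) {s lam : ℝ} {v : ℕ}
    (hs : 0 < s) (h0 : 0 ≤ lam) (h1 : lam ≤ 1 / 2 ^ 20) (h2 : lam * s = 200 * Real.log q)
    (h3 : lam ^ 2 * (2 * q * (1 / w ^ 20)) ≤ 1) (hv : 2 / 5 * s ≤ v) :
    Pr (eta q Y) (range (c + 4) ×ˢ Y) (fun T => b ∉ G.decP c π Y.card v T) ≤
      20 / s * G.Apl c π Y b + 10 / s * (1 / w ^ 20) * (∑ x ∈ G.pl b ∩ G.pl π,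
        G.om Y x * (2 * G.gb Y x ^ 2 + 2 * (eta q Y * (q + 2)) ^ 2)) + 1 / 100 := by
  obtain ⟨-, e1⟩ := PlanB_eta hp hY
  have e0 := Means_eta (q := q) Y
  have e2 : eta q Y ≤ 1 := by linarith only [e1]
  have q0 := hp.q_pos
  have w0 := hp.w_pos
  have a1 := G.pl_mean_upper hp hY hbπ
  have a2 := G.pl_tail hp hY hbπ h0 (by linarith only [h1]) (s / 5)
  have A0 := G.PlanB_Apl c π e2 b
  have B0 : 0 ≤ ∑ x ∈ G.pl b ∩ G.pl π,
      G.om Y x * (2 * G.gb Y x ^ 2 + 2 * (eta q Y * (q + 2)) ^ 2) :=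
    sum_nonneg fun x _ => mul_nonneg (G.om_nonneg Y x) (by positivity)
  rw [mul_assoc (10 / s)]
  have B1 := mul_nonneg (show 0 ≤ 1 / w ^ 20 by positivity) B0
  generalize 1 / w ^ 20 * ∑ x ∈ G.pl b ∩ G.pl π,
      G.om Y x * (2 * G.gb Y x ^ 2 + 2 * (eta q Y * (q + 2)) ^ 2) = B at a1 B1 ⊢
  have p1 := Pr_le_one e0 e2 (Ω := range (c + 4) ×ˢ Y) fun T => b ∉ G.decP c π Y.card v T
  have c1 : 0 ≤ 20 / s * G.Apl c π Y b := by positivity
  have c2 : 0 ≤ 10 / s * B := by positivity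
  by_cases hA : s ≤ 20 * G.Apl c π Y b
  · have : 1 ≤ 20 / s * G.Apl c π Y b := by rwa [div_mul_eq_mul_div, one_le_div hs]
    linarith only [this, p1, c2]
  by_cases hB : s ≤ 10 * B
  · have : 1 ≤ 10 / s * B := by rwa [div_mul_eq_mul_div, one_le_div hs]
    linarith only [this, p1, c1]
  have d1 : 2 / (q : ℝ) ^ 3 ≤ 1 / 100 := by
    have d2 : (1000 : ℝ) ≤ q := by exact_mod_cast hp.thousand_le_q
    have d3 : (q : ℝ) ≤ q ^ 3 := le_self_pow₀ (by linarith only [d2]) (by norm_num)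
    rw [div_le_iff₀ (by positivity)]
    linarith only [d2, d3]
  rw [not_le] at hA hB
  refine ((Pr_mono e0 e2 fun T _ h => ?_).trans (a2.trans (PlanB_exp q0 ?_))).trans
    (by linarith only [d1, c1, c2])
  · have : (v : ℝ) ≤ G.Spl c π Y.card b T := not_lt.1 fun h' => h (G.mem_decP.2 ⟨hbπ, h'⟩)
    refine le_trans ?_ (le_abs_self _)
    linarith only [this, a1, hv, hA, hB]
  · have L1 := hp.one_le_L
    have b1 := mul_le_mul_of_nonneg_left hA.le (sq_nonneg lam)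
    have b2 := mul_le_mul_of_nonneg_left h1 (mul_nonneg h0 hs.le)
    linarith only [b1, b2, h2, h3, L1]

theorem PlanB_Efp {w : ℝ} {c : ℕ} (hp : Par q w c) {Y : Finset Pt}
    (hY : 4 * (c + 4) * (q * (q + 1)) ≤ Y.card) {π : Pt} {s lam : ℝ} {v : ℕ} (hs : 0 < s)
    (h0 : 0 ≤ lam) (h1 : lam ≤ 1 / 2 ^ 20) (h2 : lam * s = 200 * Real.log q)
    (h3 : lam ^ 2 * (2 * q * (1 / w ^ 20)) ≤ 1) (hv : (v : ℝ) ≤ 3 / 5 * s)
    (hZ : G.Zs c Y (G.pl π) = 4096 * q * s)
    (hz : (q : ℝ) ^ 4 ≤ 4 * w ^ 2 * Y.card * G.Zs c Y (G.pl π)) :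
    Ex (eta q Y) (range (c + 4) ×ˢ Y) (fun T => ((G.decP c π Y.card v T).card : ℝ)) ≤
      65 * w ^ 2 * Y.card := by
  obtain ⟨Y0, e1⟩ := PlanB_eta hp hY
  have e0 := Means_eta (q := q) Y
  have e2 : eta q Y ≤ 1 := by linarith only [e1]
  have q0 := hp.q_pos
  have a1 : ((sel fun a => G.Apl c π Y a ≤ 3 / 4 * (G.Zs c Y (G.pl π) / q)).card : ℝ) *
      G.Zs c Y (G.pl π) ≤ 16 * (q : ℝ) ^ 4 := G.card_mean_small e0 e2 c (G.pl π)
  have Z0 : 0 < G.Zs c Y (G.pl π) := by rw [hZ]; positivity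
  have a2 : G.Zs c Y (G.pl π) / q = 4096 * s := by rw [hZ]; field_simp
  rw [a2, card_sel] at a1
  have a3 : ∑ a, ind (G.Apl c π Y a ≤ 3 / 4 * (4096 * s)) ≤ 64 * w ^ 2 * Y.card :=
    le_of_mul_le_mul_right (by linarith only [a1, hz]) Z0
  have a4 : ∀ T, G.decP c π Y.card v T = selIn univ fun b => b ∈ G.decP c π Y.card v T :=
    fun T => by ext b; simp only [mem_selIn, mem_univ, true_and]
  rw [Ex_congr fun T _ => congrArg (fun X : Finset Pt => (X.card : ℝ)) (a4 T), Ex_card_selIn]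
  have a5 : ∀ b ∈ (univ : Finset Pt), Pr (eta q Y) (range (c + 4) ×ˢ Y)
      (fun T => b ∈ G.decP c π Y.card v T) ≤
      ind (G.Apl c π Y b ≤ 3 / 4 * (4096 * s)) + 2 / (q : ℝ) ^ 3 := fun b _ => by
    by_cases hb : G.Apl c π Y b ≤ 3 / 4 * (4096 * s)
    · rw [ind_pos hb]
      exact (Pr_le_one e0 e2 _).trans (le_add_of_nonneg_right (by positivity))
    · rw [ind_neg hb, zero_add]
      exact G.PlanB_fp hp hY h0 h1 h2 h3 hv (by linarith only [not_le.1 hb])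
  refine (sum_le_sum a5).trans ?_
  rw [sum_add_distrib, sum_const, card_univ, nsmul_eq_mul]
  have b1 := mul_le_mul_of_nonneg_right G.card_pt_le (show 0 ≤ 2 / (q : ℝ) ^ 3 by positivity)
  rw [show 2 * (q : ℝ) ^ 3 * (2 / (q : ℝ) ^ 3) = 4 by field_simp; norm_num] at b1
  have b2 : (1 : ℝ) ≤ Y.card := by exact_mod_cast Y0.card_pos
  have b3 : 4 ≤ w ^ 2 := by nlinarith only [hp.hw]
  have b4 := mul_le_mul b3 b2 zero_le_one (sq_nonneg w)
  linarith only [a3, b1, b4]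

theorem PlanB_Etp {w : ℝ} {c : ℕ} (hp : Par q w c) {Y : Finset Pt}
    (hY : 4 * (c + 4) * (q * (q + 1)) ≤ Y.card) {π : Pt} (hπ : π ∉ Y) {s lam : ℝ} {v : ℕ}
    (hs : 0 < s) (h0 : 0 ≤ lam) (h1 : lam ≤ 1 / 2 ^ 20) (h2 : lam * s = 200 * Real.log q)
    (h3 : lam ^ 2 * (2 * q * (1 / w ^ 20)) ≤ 1) (hv : 2 / 5 * s ≤ v)
    (hZ : G.Zs c Y (G.pl π) = 4096 * q * s)
    (hz : (q : ℝ) ^ 4 ≤ 4 * w ^ 2 * Y.card * G.Zs c Y (G.pl π)) :
    Ex (eta q Y) (range (c + 4) ×ˢ Y)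
      (fun T => ((selIn Y fun b => b ∉ G.decP c π Y.card v T).card : ℝ)) ≤ Y.card / 8 := by
  obtain ⟨Y0, e1⟩ := PlanB_eta hp hY
  have e0 := Means_eta (q := q) Y
  have e2 : eta q Y ≤ 1 := by linarith only [e1]
  have q0 := hp.q_pos
  have q1 : (1000 : ℝ) ≤ q := by exact_mod_cast hp.thousand_le_q
  have w0 := hp.w_pos
  have w1 := hp.one_le_w
  have y0 : (0 : ℝ) < Y.card := by exact_mod_cast Y0.card_pos
  have g0 := Means_sig (q := q) Y
  have g1 : sig q Y * Y.card = (q : ℝ) ^ 2 := sig_mul_card Y0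
  have g2 : (q : ℝ) ^ 2 * sig q Y ≤ 4 * w ^ 2 * (4096 * q * s) := by
    refine le_of_mul_le_mul_right ?_ y0
    rw [mul_assoc, g1, ← hZ]
    linarith only [hz]
  have g3 : sig q Y ≤ 1 := by
    refine le_of_mul_le_mul_right ?_ y0
    rw [g1, one_mul]
    have : q ^ 2 ≤ Y.card := le_trans (by nlinarith) hY
    exact_mod_cast this
  have qs : 0 < q * s := mul_pos q0 hs
  have a1 : ∑ b ∈ Y, G.Apl c π Y b ≤ Y.card * s / 500 := by
    have b1 := G.PlanB_swap Y0 (G.low (1 / 4) Y ∩ G.pl π)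
      fun x => (1 - eta q Y) ^ (c * G.cnt Y x)
    have b2 := G.sum_tb_low Y0 e2 c (G.pl π)
    have b3 := mul_le_mul g2 hp.exp21 (Real.exp_pos _).le (by positivity)
    have b4 : 4 * w ^ 2 * (4096 * q * s) * (1 / w ^ 4) ≤ q * s / 2 ^ 16 := by
      rw [show 4 * w ^ 2 * (4096 * q * s) * (1 / w ^ 4) = 16384 * (q * s) / w ^ 2 by
        field_simp; norm_num, div_le_div_iff₀ (by positivity) (by positivity)]
      have : 2 ^ 30 ≤ w ^ 2 := hp.hw.trans (le_self_pow₀ w1 two_ne_zero)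
      have := mul_le_mul_of_nonneg_left this qs.le
      linarith only [this]
    rw [hZ] at b2
    have b5 := mul_le_mul_of_nonneg_left (b2.trans (show _ ≤ q * s / 500 by
      linarith only [b3, b4, qs])) y0.le
    refine le_of_mul_le_mul_left ?_ q0
    refine (le_of_eq b1).trans (b5.trans (le_of_eq ?_))
    ring
  have a2 : ∑ b ∈ Y, ∑ x ∈ G.pl b ∩ G.pl π,
      G.om Y x * (2 * G.gb Y x ^ 2 + 2 * (eta q Y * (q + 2)) ^ 2) ≤
      294912 * w ^ 2 * (Y.card * s) := by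
    have b1 := G.PlanB_swap Y0 (G.pl π)
      fun x => G.om Y x * (2 * G.gb Y x ^ 2 + 2 * (eta q Y * (q + 2)) ^ 2)
    have b2 : ∑ x ∈ G.pl π, G.tb Y x *
        (G.om Y x * (2 * G.gb Y x ^ 2 + 2 * (eta q Y * (q + 2)) ^ 2)) ≤
        ∑ x ∈ G.pl π, (2 * G.gb Y x ^ 2 + 2 * (eta q Y * (q + 2)) ^ 2) :=
      sum_le_sum fun x _ => by
        rw [← mul_assoc]
        exact mul_le_of_le_one_left (by positivity) (G.tb_mul_om_le Y x)
    rw [sum_add_distrib, ← mul_sum, sum_const, nsmul_eq_mul] at b2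
    have b3 : ∑ x ∈ G.pl π, G.gb Y x ^ 2 ≤ (q : ℝ) ^ 2 * sig q Y :=
      (sum_le_sum_of_subset_of_nonneg (subset_univ _) fun _ _ _ => sq_nonneg _).trans
        (G.sum_gb_sq Y0)
    have b4 : eta q Y * (q + 2) ≤ 2 * sig q Y := by
      rw [← eta_mul_q]
      have := mul_le_mul_of_nonneg_left (show (2 : ℝ) ≤ q by linarith only [q1]) e0
      linarith only [this]
    have b5 : (eta q Y * (q + 2)) ^ 2 ≤ 4 * sig q Y := by
      have := pow_le_pow_left₀ (by positivity) b4 2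
      have := mul_le_mul_of_nonneg_left g3 g0
      nlinarith only [this, ‹(eta q Y * (q + 2)) ^ 2 ≤ (2 * sig q Y) ^ 2›]
    have b6 := mul_le_mul (G.card_pl_le π) (mul_le_mul_of_nonneg_left b5 zero_le_two)
      (by positivity) (by positivity)
    have b7 := mul_le_mul_of_nonneg_left (b2.trans (show _ ≤ 294912 * w ^ 2 * (q * s) by
      linarith only [b3, b6, g2])) y0.le
    refine le_of_mul_le_mul_left ?_ q0
    refine (le_of_eq b1).trans (b7.trans (le_of_eq ?_))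
    ring
  rw [Ex_card_selIn]
  refine (sum_le_sum fun b hb =>
    G.PlanB_tp hp hY (fun h : b = π => hπ (h ▸ hb)) hs h0 h1 h2 h3 hv).trans ?_
  rw [sum_add_distrib, sum_add_distrib, ← mul_sum, ← mul_sum, sum_const, nsmul_eq_mul]
  have c1 := mul_le_mul_of_nonneg_left a1 (show 0 ≤ 20 / s by positivity)
  have c2 := mul_le_mul_of_nonneg_left a2 (show 0 ≤ 10 / s * (1 / w ^ 20) by positivity)
  rw [show 20 / s * (Y.card * s / 500) = Y.card / 25 by field_simp; norm_num] at c1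
  rw [show 10 / s * (1 / w ^ 20) * (294912 * w ^ 2 * (Y.card * s)) = 2949120 * Y.card / w ^ 18 by
    field_simp; norm_num] at c2
  have c3 : 2949120 * (Y.card : ℝ) / w ^ 18 ≤ Y.card / 100 := by
    rw [div_le_div_iff₀ (by positivity) (by positivity)]
    have : 2 ^ 30 ≤ w ^ 18 := hp.hw.trans (le_self_pow₀ w1 (by norm_num))
    have := mul_le_mul_of_nonneg_left this y0.le
    linarith only [this, y0]
  linarith only [c1, c2, c3, y0]

/-- `y = |Y| ≥ q^2 σ / w ≥ 8 w q^2` (`low_subset_low` with `t = 2`), `π ∉ Y`.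
`Z = Zs c Y (pl π) ≥ n / (4 w)` (`half_low`, `Zs_lower` with `x = 1/2^25`, `exp24`),
`s = Z / (2^12 q) ≥ q / (σ w^2) ≥ w^8 sqrt q`, `v = ⌈0.4 s⌉₊ ≤ 0.6 s`, `lam = 200 log q / s`.
False positives: outside `card_mean_small` (at most `16 q^4 / Z ≤ 64 w^2 y` planes)
`Apl / 2^12 > 0.75 s`; `pl_tail` with `t = 0.2 Apl / 2^12` gives `2 q^(-14)`; expectation at most
`65 w^2 y`. True positives: `∑ b ∈ Y, Apl b = (y/q) ∑ tb β^(c cnt)` (`sum_sum_pl`, `sum_tb_low`,
`exp21`), so at most `0.04 y` planes have `2 Apl ≥ 0.1 s`; the second term of `pl_mean_upper` sums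
to at most `18 w^(-16) y s` (`tb om ≤ 1`, `sum_gb_sq`, `η (q+2) ≤ 2 w / σ`); for the others
`pl_tail` with `t = 0.2 s`. Expectation of `|Y \ decP|` at most `y / 8`. Three times `markov`. -/
theorem planar_rec {w : ℝ} {c : ℕ} (hp : Par q w c) {P : Finset Pt} (hn2 : P.card ≤ q ^ 2)
    (hE : G.Ext (1 / 2 ^ 27) P w) {π : Pt} (hπ : P.card < 2 * G.cnt P π)
    (h1 : 8 * w ^ 2 ≤ sig q P) (h2 : sig q P ^ 2 * w ^ 20 < q) {Y : Finset Pt}
    (hY : Y = G.low (1 / 2 ^ 26) (P ∩ G.pl π)) :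
    ∃ T ⊆ range (c + 4) ×ˢ Y, T.card ≤ 10 * (c + 4) * q ∧ ∃ v ≤ 2 * q,
      Y.card ≤ 2 * (Y ∩ G.decP c π Y.card v T).card ∧
      ((G.decP c π Y.card v T).card : ℝ) ≤ 650 * w ^ 2 * Y.card := by
  obtain ⟨P0, hE⟩ := hE
  have q0 := hp.q_pos
  have w0 := hp.w_pos
  have w1 := hp.one_le_w
  have n0 : (0 : ℝ) < P.card := by exact_mod_cast P0.card_pos
  have f1 : sig q P * P.card = (q : ℝ) ^ 2 := sig_mul_card P0
  have σ0 := Means_sig (q := q) P
  have hP1 : (P.card : ℝ) < 2 * (P ∩ G.pl π).card := by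
    rw [cnt, inter_comm] at hπ; exact_mod_cast hπ
  have f2 : (q : ℝ) ^ 4 ≤ Y.card * P.card * w := by
    refine hE.trans (mul_le_mul_of_nonneg_right (mul_le_mul_of_nonneg_right ?_ n0.le) w0.le)
    rw [hY]
    exact_mod_cast card_le_card (G.low_subset_low (t := 2) inter_subset_left (by norm_num) hP1.le
      (by norm_num))
  have hπY : π ∉ Y := fun h => by
    rw [hY, mem_low, cnt, inter_eq_right.2 inter_subset_right, le_div_iff₀ q0] at h
    have q1 : (1000 : ℝ) ≤ q := by exact_mod_cast hp.thousand_le_q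
    have := mul_le_mul_of_nonneg_left q1 (Nat.cast_nonneg (α := ℝ) (P ∩ G.pl π).card)
    linarith only [this, h, hP1, n0]
  have y0 : (0 : ℝ) ≤ Y.card := Nat.cast_nonneg _
  have g1 : (q : ℝ) ^ 2 * sig q P ≤ Y.card * w := by
    refine le_of_mul_le_mul_right ?_ n0
    rw [mul_assoc, f1]
    linarith only [f2]
  have g2 : 8 * w * (q : ℝ) ^ 2 ≤ Y.card := by
    refine le_of_mul_le_mul_right ?_ w0
    have := mul_le_mul_of_nonneg_left h1 (sq_nonneg (q : ℝ))
    linarith only [this, g1]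
  have hY4 : 4 * (c + 4) * (q * (q + 1)) ≤ Y.card := by
    have q1 : (1000 : ℝ) ≤ q := by exact_mod_cast hp.thousand_le_q
    have a1 : (q : ℝ) * (q + 1) ≤ 2 * q ^ 2 := by nlinarith only [q1]
    have a2 := mul_le_mul hp.c_le a1 (by positivity) w0.le
    have : (4 : ℝ) * (c + 4) * (q * (q + 1)) ≤ Y.card := by linarith only [a2, g2]
    exact_mod_cast this
  obtain ⟨Y0, e1⟩ := PlanB_eta hp hY4
  have e0 := Means_eta (q := q) Y
  have e2 : eta q Y ≤ 1 := by linarith only [e1]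
  have f3 : (P.card : ℝ) ≤ 4 * w * G.Zs c Y (G.pl π) := by
    have a1 : ((P ∩ G.pl π).card : ℝ) ≤ 2 * (P ∩ G.pl π ∩ G.low (2 * (1 / 2 ^ 26)) Y).card := by
      exact_mod_cast G.half_low (by norm_num) hY.le
    have a2 := G.Zs_lower Y0 e1 c (x := 2 * (1 / 2 ^ 26)) (by norm_num) (S := G.pl π)
      (Y := P ∩ G.pl π ∩ G.low (2 * (1 / 2 ^ 26)) Y) inter_subset_right
      (inter_subset_left.trans inter_subset_right)
    rw [show -(2 * (c : ℝ) * (2 * (1 / 2 ^ 26))) = -(c : ℝ) / 2 ^ 24 by ring] at a2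
    have a3 := (mul_le_mul_of_nonneg_left hp.exp24 (Nat.cast_nonneg _)).trans a2
    rw [mul_one_div, div_le_iff₀ w0] at a3
    linarith only [a1, a3, hP1]
  have f4 : G.Zs c Y (G.pl π) ≤ 2 * (q : ℝ) ^ 2 := by
    refine (G.Zs_upper e0 e2 c _).trans (le_trans ?_ (G.card_pl_le π))
    exact_mod_cast card_le_card inter_subset_right
  have hz : (q : ℝ) ^ 4 ≤ 4 * w ^ 2 * Y.card * G.Zs c Y (G.pl π) := by
    have := mul_le_mul_of_nonneg_left f3 (mul_nonneg y0 w0.le)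
    linarith only [this, f2]
  obtain ⟨s, hZ⟩ : ∃ s : ℝ, G.Zs c Y (G.pl π) = 4096 * q * s :=
    ⟨G.Zs c Y (G.pl π) / (4096 * q), by field_simp⟩
  have s0 : 0 < s := by
    rw [hZ] at f3
    exact (mul_pos_iff_of_pos_left (by positivity)).1
      ((mul_pos_iff_of_pos_left (by positivity)).1 (n0.trans_le f3))
  have s1 : q * w ^ 16 ≤ s ^ 2 := by
    rw [hZ] at f3
    have a1 : (q : ℝ) ≤ sig q P * w ^ 2 * s := by
      refine le_of_mul_le_mul_left ?_ q0
      have b1 := mul_le_mul_of_nonneg_left f3 σ0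
      have b2 := mul_le_mul_of_nonneg_left hp.hw
        (show 0 ≤ sig q P * w * q * s by positivity)
      have b3 : 0 ≤ sig q P * w * q * s := by positivity
      linarith only [b1, b2, b3, f1]
    have a2 := mul_le_mul_of_nonneg_right (pow_le_pow_left₀ q0.le a1 2) (pow_pos w0 16).le
    have a3 := mul_le_mul_of_nonneg_right h2.le (sq_nonneg s)
    refine le_of_mul_le_mul_left ?_ q0
    linarith only [a2, a3]
  obtain ⟨s5, lam, l0, l1, l2, l3⟩ := PlanB_lam hp.hw hp.one_le_L hp.hL hp.hq s0 s1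
  have v1 : 2 / 5 * s ≤ ⌈2 / 5 * s⌉₊ := Nat.le_ceil _
  have v2 : (⌈2 / 5 * s⌉₊ : ℝ) ≤ 3 / 5 * s := by
    have := Nat.ceil_lt_add_one (show 0 ≤ 2 / 5 * s by positivity)
    linarith only [this, s5]
  have v3 : ⌈2 / 5 * s⌉₊ ≤ 2 * q := by
    have a1 : s ≤ q := by
      refine le_of_mul_le_mul_left ?_ q0
      rw [hZ] at f4
      nlinarith only [f4, mul_pos q0 s0]
    have : (⌈2 / 5 * s⌉₊ : ℝ) ≤ 2 * q := by linarith only [a1, v2, s0]
    exact_mod_cast this
  generalize ⌈2 / 5 * s⌉₊ = v at v1 v2 v3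
  have y1 : (0 : ℝ) < Y.card := by exact_mod_cast Y0.card_pos
  have E1 := G.PlanB_Efp hp hY4 s0 l0 l1 l2 l3 v2 hZ hz
  have E2 := G.PlanB_Etp hp hY4 hπY s0 l0 l1 l2 l3 v1 hZ hz
  have E3 : Ex (eta q Y) (range (c + 4) ×ˢ Y) (fun T => (T.card : ℝ)) = (c + 4) * q := by
    rw [← Ex_congr (f := fun T => ((T ∩ range (c + 4) ×ˢ Y).card : ℝ))
      fun T hT => by rw [inter_eq_left.2 hT], Ex_card, inter_self, card_product, card_range,
      ← eta_mul_card (q := q) Y0]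
    have h : eta q Y * Y.card = q := eta_mul_card Y0
    rw [h]
    push_cast
    linear_combination ((c : ℝ) + 4) * h
  have M1 := (markov e0 e2 (fun T _ => Nat.cast_nonneg _) (t := 650 * w ^ 2 * Y.card)
    (by positivity)).trans (div_le_div_of_nonneg_right E1 (by positivity))
  have M2 := (markov e0 e2 (fun T _ => Nat.cast_nonneg _) (t := Y.card / 2)
    (by positivity)).trans (div_le_div_of_nonneg_right E2 (by positivity))
  have M3 := (markov e0 e2 (fun T _ => Nat.cast_nonneg _) (t := 10 * (c + 4) * q)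
    (by positivity)).trans (div_le_div_of_nonneg_right E3.le (by positivity))
  rw [show 65 * w ^ 2 * Y.card / (650 * w ^ 2 * Y.card) = 1 / 10 by field_simp; norm_num] at M1
  rw [show (Y.card : ℝ) / 8 / (Y.card / 2) = 1 / 4 by field_simp; norm_num] at M2
  rw [show ((c : ℝ) + 4) * q / (10 * (c + 4) * q) = 1 / 10 by field_simp] at M3
  obtain ⟨T, hT, hn⟩ := exists_of_Pr_lt_one (((Pr_or e0 e2 _ _).trans (add_le_add M1
    ((Pr_or e0 e2 _ _).trans (add_le_add M2 M3)))).trans_lt (by norm_num))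
  simp only [not_or, not_le] at hn
  obtain ⟨k1, k2, k3⟩ := hn
  refine ⟨T, hT, by exact_mod_cast k3.le, v, v3, ?_, k1.le⟩
  have k4 : (selIn Y fun b => b ∉ G.decP c π Y.card v T) = Y \ G.decP c π Y.card v T := by
    ext b; simp only [mem_selIn, mem_sdiff]
  have k5 := card_sdiff_add_card_inter Y (G.decP c π Y.card v T)
  rw [k4, lt_div_iff₀ two_pos] at k2
  have k6 : (Y \ G.decP c π Y.card v T).card * 2 < Y.card := by exact_mod_cast k2
  omega

end PG
end Pool.Agent.Work.MP_e10cd8_co.Four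
end
end

-- merged part: Pool.Agent.Work.MP_e10cd8_co.All.AAsym
section
-- merged part: Pool.Agent.Work.MP_e10cd8_co.Four.Prob3
section
/-! Threshold tests, counting of small subsets, the covering lemma and BOOST. -/

namespace Pool.Agent.Work.MP_e10cd8_co.Four
open Finset

section
variable {ι : Type} [DecidableEq ι] {η : ℝ} {Ω : Finset ι}

theorem Prob3_mgf (h0 : 0 ≤ η) (h1 : η ≤ 1) (A : Finset ι) {p : Finset ι → Prop} {y c : ℝ}
    (h : ∀ T, p T → 0 ≤ c + (T ∩ A).card * y) :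
    Pr η Ω p ≤ Real.exp (c + η * (A ∩ Ω).card * (Real.exp y - 1)) := by
  refine (Ex_mono h0 h1 (g := fun T => Real.exp c * Real.exp y ^ (T ∩ A).card) fun T _ =>
    Prob1_le (fun k => ?_) (by positivity)).trans ?_
  · rw [← Real.exp_nat_mul, ← Real.exp_add]
    exact Real.one_le_exp (h T k)
  · rw [Ex_mul_left, Ex_pow_card, Real.exp_add,
      mul_comm η ((A ∩ Ω).card : ℝ), mul_assoc, Real.exp_nat_mul]
    have := mul_nonneg h0 (Real.exp_pos y).le
    gcongr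
    linarith [Real.add_one_le_exp (η * (Real.exp y - 1))]

/-- Chernoff, upper tail: `Ex_pow_card` with `x = 2`, `exp m / 2 ^ (2 m) ≤ exp (-m/3)` -/
theorem thr_up (h0 : 0 ≤ η) (h1 : η ≤ 1) (A : Finset ι) {m : ℝ} (hm : 0 ≤ m)
    (h : η * (A ∩ Ω).card ≤ m) :
    Pr η Ω (fun T => 2 * m < ((T ∩ A).card : ℝ)) ≤ Real.exp (-m / 3) := by
  have l := Real.log_two_gt_d9
  refine (Prob3_mgf h0 h1 A (y := Real.log 2) (c := -(2 * m * Real.log 2)) fun T k => by
    nlinarith).trans (Real.exp_le_exp.2 ?_)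
  rw [Real.exp_log two_pos]
  nlinarith

/-- Chernoff, lower tail: `x = 1/2`, `exp (-2 m) * 2 ^ (2 m) ≤ exp (-m/3)` -/
theorem thr_down (h0 : 0 ≤ η) (h1 : η ≤ 1) (A : Finset ι) {m : ℝ} (hm : 0 ≤ m)
    (h : 4 * m ≤ η * (A ∩ Ω).card) :
    Pr η Ω (fun T => ((T ∩ A).card : ℝ) ≤ 2 * m) ≤ Real.exp (-m / 3) := by
  have l := Real.log_two_gt_d9
  have l' := Real.log_two_lt_d9
  refine (Prob3_mgf h0 h1 A (y := -Real.log 2) (c := 2 * m * Real.log 2) fun T k => by
    nlinarith).trans (Real.exp_le_exp.2 ?_)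
  rw [Real.exp_neg, Real.exp_log two_pos]
  nlinarith

/-- weighted count of small subsets: multiply each term by `x ^ (|T| - t) ≥ 1` and use the binomial
theorem, `(1 + x p) ^ |Ω| ≤ exp (x p |Ω|)` -/
theorem sum_small_le (Ω : Finset ι) {p x t : ℝ} (hp : 0 ≤ p) (hx0 : 0 < x) (hx1 : x ≤ 1) :
    ∑ T ∈ selIn Ω.powerset (fun T => (T.card : ℝ) ≤ t), p ^ T.card ≤
      Real.exp (t * Real.log (1 / x) + x * p * Ω.card) := by
  have l : 0 ≤ Real.log (1 / x) := Real.log_nonneg (one_le_one_div hx0 hx1)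
  calc _ ≤ ∑ T ∈ selIn Ω.powerset (fun T => (T.card : ℝ) ≤ t),
        Real.exp (t * Real.log (1 / x)) * ((x * p) ^ T.card * 1 ^ (Ω.card - T.card)) := by
        refine sum_le_sum fun T hT => ?_
        rw [one_pow, mul_one, mul_pow, ← mul_assoc]
        refine le_mul_of_one_le_left (pow_nonneg hp _) ?_
        conv_rhs => rw [← Real.exp_log hx0, ← Real.exp_nat_mul, Real.exp_log hx0, ← Real.exp_add]
        refine Real.one_le_exp ?_
        rw [one_div, Real.log_inv] at l ⊢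
        nlinarith [(mem_selIn.1 hT).2]
    _ ≤ _ := by
        refine (sum_le_sum_of_subset_of_nonneg (selIn_subset _ _) fun _ _ _ => by
          positivity).trans ?_
        rw [← mul_sum, sum_pow_mul_eq_add_pow, Real.exp_add, mul_comm (x * p), Real.exp_nat_mul]
        gcongr
        exact Real.add_one_le_exp _

/-- crude count of small subsets -/
theorem card_small_le (Ω : Finset ι) (t : ℕ) :
    (selIn Ω.powerset fun T => T.card ≤ t).card ≤ (Ω.card + 1) ^ t := by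
  induction t with
  | zero => exact card_le_one.2 fun a ha b hb => by simp_all
  | succ t ih =>
    refine (card_le_card (t := (selIn Ω.powerset fun T => T.card ≤ t) ∪ Ω.biUnion fun a =>
      (selIn Ω.powerset fun T => T.card ≤ t).image (insert a)) fun T hT => ?_).trans ?_
    · obtain ⟨h1, h2⟩ := mem_selIn.1 hT
      obtain rfl | ⟨a, ha⟩ := T.eq_empty_or_nonempty
      · simp
      · exact mem_union_right _ (mem_biUnion.2 ⟨a, mem_powerset.1 h1 ha, mem_image.2 ⟨T.erase a,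
          mem_selIn.2 ⟨mem_powerset.2 ((erase_subset _ _).trans (mem_powerset.1 h1)), by
            rw [card_erase_of_mem ha]; omega⟩, insert_erase ha⟩⟩)
    · refine (card_union_le _ _).trans ((add_le_add ih (card_biUnion_le_card_mul _ _ _
        fun a _ => card_image_le.trans ih)).trans (le_of_eq ?_))
      ring

/-- COVER: some sample serves half of the objects; induct on `j` -/
theorem cover {κ : Type} [DecidableEq κ] (h0 : 0 ≤ η) (h1 : η ≤ 1) (good : κ → Finset ι → Prop)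
    (j : ℕ) (O : Finset κ) (hO : O.card < 2 ^ j) (hg : ∀ o ∈ O, 1 / 2 ≤ Pr η Ω (good o)) :
    ∃ F : Finset (Finset ι), F.card ≤ j ∧ (∀ R ∈ F, R ⊆ Ω) ∧ ∀ o ∈ O, ∃ R ∈ F, good o R := by
  induction j generalizing O with
  | zero => exact ⟨∅, le_rfl, by simp, fun o ho => absurd (card_pos.2 ⟨o, ho⟩) (by omega)⟩
  | succ j ih =>
    obtain ⟨R, hR, h⟩ := exists_ge_Ex (Ω := Ω) h0 h1 fun T => ((selIn O fun o => good o T).card : ℝ)
    rw [Ex_card_selIn] at h
    have h2 := (card_nsmul_le_sum O _ _ hg).trans h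
    have h3 : O.card ≤ 2 * (selIn O fun o => good o R).card := by
      rw [nsmul_eq_mul] at h2
      exact_mod_cast (by linarith : (O.card : ℝ) ≤ 2 * (selIn O fun o => good o R).card)
    obtain ⟨F, f1, f2, f3⟩ := ih (O \ selIn O fun o => good o R) (by
      rw [card_sdiff_of_subset (selIn_subset _ _)]
      omega) fun o ho => hg o (mem_sdiff.1 ho).1
    refine ⟨insert R F, (card_insert_le _ _).trans (by omega), forall_mem_insert .. |>.2 ⟨hR, f2⟩,
      fun o ho => ?_⟩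
    by_cases k : good o R
    · exact ⟨R, mem_insert_self _ _, k⟩
    · obtain ⟨S, s1, s2⟩ := f3 o (mem_sdiff.2 ⟨ho, fun e => k (mem_selIn.1 e).2⟩)
      exact ⟨S, mem_insert_of_mem s1, s2⟩

theorem choose_mul_pow_le (n k : ℕ) (hk : 1 ≤ k) {p : ℝ} (hp : 0 ≤ p) :
    (n.choose k : ℝ) * p ^ k ≤ (Real.exp 1 * n * p / k) ^ k := by
  have k0 : (0 : ℝ) < k := Nat.cast_pos.2 hk
  have h1 : (n.choose k : ℝ) ≤ n ^ k / k.factorial := Nat.choose_le_pow_div k n
  have h2 := Real.pow_div_factorial_le_exp (k : ℝ) k0.le k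
  rw [← mul_one (k : ℝ), Real.exp_nat_mul, mul_one] at h2
  rw [div_pow, mul_pow, mul_pow, le_div_iff₀ (pow_pos k0 k)]
  calc _ ≤ n ^ k / k.factorial * p ^ k * (k : ℝ) ^ k := by gcongr
    _ = k ^ k / k.factorial * n ^ k * p ^ k := by ring
    _ ≤ _ := by gcongr

end

namespace PG
variable {q : ℕ} {Pt : Type} [Fintype Pt] [DecidableEq Pt] (G : PG q Pt)

theorem Prob3_one (hq : 1000 ≤ q) (U : Finset Pt) {Om : ℝ} (hOm : 1 ≤ Om) (n : ℕ) :
    ∃ (θ : ℝ) (F : Finset (Finset Pt)), F.card ≤ Fintype.card Pt + 1 ∧ ∀ X ⊆ U, X.Nonempty →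
      X.card = n → (U.card : ℝ) ≤ Om * n → ∃ R ∈ F, (R.card : ℝ) ≤ Om * (1200 * q * Real.log q) ∧
        ∃ T ⊆ R, (T.card : ℝ) ≤ 1200 * q * Real.log q ∧
          G.low (1 / 8) X ⊆ (sel fun b => (G.cnt T b : ℝ) ≤ θ) ∧
          (sel fun b => (G.cnt T b : ℝ) ≤ θ) ⊆ G.low (1 / 2) X := by
  have q1 : (1000 : ℝ) ≤ q := by exact_mod_cast hq
  have q0 : (0 : ℝ) < q := by linarith
  have L0 : 0 < Real.log q := Real.log_pos (by linarith)
  have t0 : 0 < q * Real.log q := mul_pos q0 L0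
  by_cases hn : (n : ℝ) ≤ 120 * q * Real.log q
  · refine ⟨1 / 4 * n / q, {U}, by simp, fun X hX _ e h => ⟨U, mem_singleton_self _,
      h.trans (mul_le_mul_of_nonneg_left (by linarith) (by linarith)), X, hX, by rw [e]; linarith,
      e ▸ G.low_mono (x' := 1 / 4) (by norm_num) X, e ▸ G.low_mono (x := 1 / 4) (by norm_num) X⟩⟩
  have n1 := not_le.1 hn
  have n0 : (0 : ℝ) < n := by linarith
  obtain ⟨η, he⟩ : ∃ η : ℝ, η * n = 120 * q * Real.log q := ⟨_, div_mul_cancel₀ _ n0.ne'⟩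
  have h0 : 0 < η := (mul_pos_iff_of_pos_right n0).1 (by rw [he]; linarith)
  have h1 : η ≤ 1 := le_of_mul_le_mul_right (by rw [he]; linarith) n0
  obtain ⟨F, f1, -, f3⟩ := cover (Ω := U) h0.le h1 (fun X R => ¬ ((10 * (η * U.card) ≤ (R ∩ U).card ∨
      10 * (η * n) ≤ (R ∩ X).card) ∨
      ((∃ b ∈ G.low (1 / 8) X, 2 * (15 * Real.log q) < ((R ∩ (G.pl b ∩ X)).card : ℝ)) ∨
      ∃ b ∈ (G.low (1 / 2) X)ᶜ, ((R ∩ (G.pl b ∩ X)).card : ℝ) ≤ 2 * (15 * Real.log q))) ∧ R ⊆ U)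
    (Fintype.card Pt + 1) (U.powersetCard n) ((card_le_card fun X hX => mem_powerset.2
      (mem_powersetCard.1 hX).1).trans_lt (by
        rw [card_powerset]
        exact Nat.pow_lt_pow_right one_lt_two (Nat.lt_succ_of_le (card_le_univ U)))) fun X hX => by
      obtain ⟨x1, x2⟩ := mem_powersetCard.1 hX
      have u0 : (0 : ℝ) < U.card := n0.trans_le (by exact_mod_cast x2 ▸ card_le_card x1)
      have c : ∀ b, (G.pl b ∩ X ∩ U).card = G.cnt X b := fun b => by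
        rw [inter_assoc, inter_eq_left.2 x1, cnt]
      have s : ∀ (I : Finset Pt) (p : Pt → Finset Pt → Prop), (∀ b ∈ I, Pr η U (p b) ≤
          Real.exp (-(15 * Real.log q) / 3)) → Pr η U (fun R => ∃ b ∈ I, p b R) ≤ 1 / 10 :=
        fun I p k => by
          refine (Pr_exists h0.le h1 I p).trans ((sum_le_card_nsmul _ _ _ k).trans ?_)
          have e : -(15 * Real.log q) / 3 = -((5 : ℕ) * Real.log q) := by push_cast; ring
          rw [nsmul_eq_mul, e, Real.exp_neg, Real.exp_nat_mul, Real.exp_log q0, ← div_eq_mul_inv,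
            div_le_iff₀ (by positivity)]
          have : (I.card : ℝ) ≤ 2 * q ^ 3 := (Nat.cast_le.2 (card_le_univ I)).trans G.card_pt_le
          nlinarith [mul_le_mul_of_nonneg_left (show (20 : ℝ) ≤ q ^ 2 by nlinarith)
            (pow_pos q0 3).le]
      have a1 := markov (Ω := U) h0.le h1 (f := fun R => ((R ∩ U).card : ℝ))
        (fun _ _ => Nat.cast_nonneg _) (t := 10 * (η * U.card)) (by positivity)
      have a2 := markov (Ω := U) h0.le h1 (f := fun R => ((R ∩ X).card : ℝ))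
        (fun _ _ => Nat.cast_nonneg _) (t := 10 * (η * n)) (by positivity)
      rw [Ex_card, inter_self, div_mul_cancel_right₀ (by positivity)] at a1
      rw [Ex_card, inter_eq_left.2 x1, x2, div_mul_cancel_right₀ (by positivity)] at a2
      have a3 := s _ _ fun b (hb : b ∈ G.low (1 / 8) X) => thr_up (Ω := U) h0.le h1 (G.pl b ∩ X)
        (m := 15 * Real.log q) (by positivity) (by
          rw [c]
          have := G.mem_low.1 hb
          rw [x2, le_div_iff₀ q0] at this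
          exact le_of_mul_le_mul_right (by nlinarith) q0)
      have a4 := s _ _ fun b (hb : b ∈ (G.low (1 / 2) X)ᶜ) => thr_down (Ω := U) h0.le h1
        (G.pl b ∩ X) (m := 15 * Real.log q) (by positivity) (by
          rw [c]
          have := not_le.1 (G.mem_low.not.1 (mem_compl.1 hb))
          rw [x2, div_lt_iff₀ q0] at this
          exact le_of_mul_le_mul_right (by nlinarith) q0)
      refine le_trans ?_ (Pr_mono h0.le h1 fun R hR k => ⟨k, hR⟩)
      rw [Pr_not]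
      linarith [(Pr_or h0.le h1 _ _).trans (add_le_add ((Pr_or h0.le h1 _ _).trans
        (add_le_add a1 a2)) ((Pr_or h0.le h1 _ _).trans (add_le_add a3 a4)))]
  refine ⟨2 * (15 * Real.log q), F, f1, fun X hX _ e h => ?_⟩
  obtain ⟨R, r1, r2, r3⟩ := f3 X (mem_powersetCard.2 ⟨hX, e⟩)
  simp only [not_or, not_le, not_exists, not_and, not_lt, inter_eq_left.2 r3] at r2
  obtain ⟨⟨b1, b2⟩, b3, b4⟩ := r2
  have c : ∀ b, G.cnt (R ∩ X) b = (R ∩ (G.pl b ∩ X)).card := fun b => by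
    rw [cnt, inter_left_comm]
  refine ⟨R, r1, by nlinarith [mul_le_mul_of_nonneg_left h h0.le], R ∩ X, inter_subset_left,
    by linarith, fun b hb => mem_sel.2 (c b ▸ b3 b hb), fun b hb => by_contra fun k => ?_⟩
  rw [mem_sel, c] at hb
  exact (b4 b (mem_compl.2 k)).not_ge hb

/-- BOOST. Treat each size `n = |X|` (with `|U| ≤ Om n`) separately and take the union.
`L = log q`, `m = 15 L`, `η = 120 L q / n`. If `η ≥ 1` list `low (1/8) X` for all `X ⊆ U` of size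
`n` (`sum_small_le` with `p = 1`, `x = 1/Om`). Otherwise `R` is a Bernoulli subset of `U`,
`T = R ∩ X`, `Y = {b | cnt T b ≤ 2 m}`; `R` is good for `X` if `|R| ≤ 10 η |U|`, `|T| ≤ 10 η n`
and all threshold tests succeed (`thr_up`, `thr_down`, failure at most `Q q^(-5)`); then
`low (1/8) X ⊆ Y ⊆ low (1/2) X`. `cover` with `j = Q + 1`; for each `R` count the subsets `T` of
size at most `1200 L q` by `sum_small_le`. -/
theorem boost (hq : 1000 ≤ q) (U : Finset Pt) {Om : ℝ} (hOm : 1 ≤ Om) :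
    ∃ F : Finset (Finset Pt),
      (F.card : ℝ) ≤ Real.exp (1300 * q * Real.log q * (1 + Real.log Om)) ∧
      ∀ X ⊆ U, X.Nonempty → (U.card : ℝ) ≤ Om * X.card →
        ∃ Y ∈ F, G.low (1 / 8) X ⊆ Y ∧ (Y.card : ℝ) * X.card ≤ 4 * (q : ℝ) ^ 4 := by
  have q1 : (1000 : ℝ) ≤ q := by exact_mod_cast hq
  have q0 : (0 : ℝ) < q := by linarith
  have L0 : 0 < Real.log q := Real.log_pos (by linarith)
  have O0 := Real.log_nonneg hOm
  choose θ F f1 f2 using G.Prob3_one hq U hOm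
  refine ⟨(range (Fintype.card Pt + 1)).biUnion fun n => (selIn (F n) fun R =>
    (R.card : ℝ) ≤ Om * (1200 * q * Real.log q)).biUnion fun R => (selIn R.powerset fun T =>
      (T.card : ℝ) ≤ 1200 * q * Real.log q).image fun T => sel fun b => (G.cnt T b : ℝ) ≤ θ n, ?_,
    fun X hX hne h => ?_⟩
  · have s : ∀ {α β : Type} [DecidableEq β] (I : Finset α) (f : α → Finset β) (c d : ℝ), 0 ≤ d →
        (I.card : ℝ) ≤ c → (∀ a ∈ I, ((f a).card : ℝ) ≤ d) → ((I.biUnion f).card : ℝ) ≤ c * d :=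
      fun I f c d d0 k k' => by
        refine (Nat.cast_le.2 card_biUnion_le).trans ?_
        rw [Nat.cast_sum]
        exact (sum_le_card_nsmul _ _ _ k').trans
          ((nsmul_eq_mul _ _).le.trans (mul_le_mul_of_nonneg_right k d0))
    have Q : ((Fintype.card Pt + 1 : ℕ) : ℝ) ≤ Real.exp ((4 : ℕ) * Real.log q) := by
      rw [Real.exp_nat_mul, Real.exp_log q0]
      push_cast
      nlinarith [G.card_pt_le, one_le_pow₀ (n := 3) (show (1 : ℝ) ≤ q by linarith)]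
    refine (s _ _ _ _ (by positivity) ((congrArg _ (card_range _)).trans_le Q) fun n _ => s _ _ _
      (Real.exp (1200 * q * Real.log q * (1 + Real.log Om))) (by positivity)
      ((Nat.cast_le.2 ((card_le_card (selIn_subset _ _)).trans (f1 n))).trans Q)
      fun R hR => (Nat.cast_le.2 card_image_le).trans ?_).trans ?_
    · have := sum_small_le R (p := 1) (x := 1 / Om) (t := 1200 * q * Real.log q) zero_le_one
        (by positivity) ((div_le_one (by linarith)).2 hOm)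
      simp only [one_pow, sum_const, nsmul_eq_mul, mul_one, one_div_one_div] at this
      refine this.trans (Real.exp_le_exp.2 ?_)
      have := (mem_selIn.1 hR).2
      rw [mul_comm, ← div_le_iff₀ (by linarith)] at this
      rw [one_div, mul_comm Om⁻¹, ← div_eq_mul_inv]
      linarith
    · rw [← Real.exp_add, ← Real.exp_add, Real.exp_le_exp]
      push_cast
      nlinarith [mul_nonneg (mul_pos q0 L0).le O0]
  · obtain ⟨R, r1, r2, T, t1, t2, t3, t4⟩ := f2 _ X hX hne rfl h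
    refine ⟨_, mem_biUnion.2 ⟨X.card, mem_range.2 (Nat.lt_succ_of_le (card_le_univ X)),
      mem_biUnion.2 ⟨R, mem_selIn.2 ⟨r1, r2⟩, mem_image.2
        ⟨T, mem_selIn.2 ⟨mem_powerset.2 t1, t2⟩, rfl⟩⟩⟩, t3, ?_⟩
    have := G.card_low_le (x := 1 / 2) (by norm_num) X
    nlinarith [mul_le_mul_of_nonneg_right (Nat.cast_le (α := ℝ).2 (card_le_card t4))
      (Nat.cast_nonneg (α := ℝ) X.card)]

end PG

end Pool.Agent.Work.MP_e10cd8_co.Four
end

-- merged part: Pool.Agent.Work.MP_e10cd8_co.Four.FinP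
section
/-! Parameters of the final count. -/

namespace Pool.Agent.Work.MP_e10cd8_co.Four
open Finset

/-- sampling probability -/
noncomputable def pp (q r k : ℕ) : ℝ := (k : ℝ) / (10000 * r * (q : ℝ) ^ 3)

/-- number of flags required in the pool -/
def ww (k : ℕ) : ℕ := k / 16 + 1

/-- degree threshold -/
def dd (q r k : ℕ) : ℕ := k / (r * q) + 1

namespace FPar
variable {q R r k : ℕ}

theorem six_le_L (h : FPar q R r k) : 6 ≤ Real.log q := by
  have q1 : (1000 : ℝ) ≤ q := by exact_mod_cast h.hq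
  rw [Real.le_log_iff_exp_le (by linarith)]
  have e : Real.exp 6 = Real.exp 1 ^ 6 := by rw [← Real.exp_nat_mul]; norm_num
  have := pow_le_pow_left₀ (Real.exp_pos 1).le (Real.exp_one_lt_d9.le.trans
    (show (2.7182818286 : ℝ) ≤ 3 by norm_num)) 6
  rw [e]
  linarith

theorem r_ge (h : FPar q R r k) : 10 ^ 12 * (R + 2) ≤ r := by
  rw [h.hr]
  exact Nat.mul_le_mul_right _ (by norm_num)

theorem r_le_q (h : FPar q R r k) : r ≤ q := by
  nlinarith [h.hrq]

theorem logL_le (h : FPar q R r k) : Real.log (Real.log q) ≤ R := by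
  have := h.six_le_L
  have h2 : (2 : ℝ) ^ R ≤ Real.exp R := by
    rw [← mul_one (R : ℝ), Real.exp_nat_mul]
    exact pow_le_pow_left₀ (by norm_num) (by linarith [Real.add_one_le_exp 1]) R
  rw [Real.log_le_iff_le_exp (by linarith)]
  linarith [h.hR]

theorem pp_nonneg (q r k : ℕ) : 0 ≤ pp q r k := by
  unfold pp
  positivity

theorem pp_le_one (h : FPar q R r k) : pp q r k ≤ 1 := by
  have q1 : (1000 : ℝ) ≤ q := by exact_mod_cast h.hq
  have hL := Real.log_le_sub_one_of_pos (show (0 : ℝ) < q by linarith)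
  refine div_le_one_of_le₀ (h.hk2.trans ?_) (by positivity)
  have q0 : (0 : ℝ) ≤ q := by linarith
  have : (q : ℝ) * Real.log q ≤ q ^ 3 := by
    rw [pow_succ']
    exact mul_le_mul_of_nonneg_left (by nlinarith) q0
  rw [mul_assoc (10000 * (r : ℝ))]
  exact mul_le_mul_of_nonneg_left this (by positivity)

theorem ww_ge (k : ℕ) : (k : ℝ) / 16 ≤ ww k := by
  have : k ≤ ww k * 16 := by unfold ww; omega
  rw [div_le_iff₀ (by norm_num)]
  exact_mod_cast this

theorem ww_le (k : ℕ) : (ww k : ℝ) ≤ k / 16 + 1 := by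
  have := Nat.cast_div_le (α := ℝ) (m := k) (n := 16)
  unfold ww
  push_cast at this ⊢
  linarith

theorem FinP_pos (h : FPar q R r k) : 0 < r * q :=
  Nat.mul_pos (by have := h.r_ge; omega) (by have := h.hq; omega)

theorem FinP_le (h : FPar q R r k) : k ≤ dd q r k * (r * q) := by
  have := Nat.lt_div_mul_add (a := k) h.FinP_pos
  unfold dd
  rw [add_mul, one_mul]
  exact this.le

theorem div_dd_le (h : FPar q R r k) : k / dd q r k ≤ r * q := by
  exact Nat.div_le_of_le_mul h.FinP_le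

theorem dd_ge (h : FPar q R r k) : (k : ℝ) / (r * q) ≤ dd q r k := by
  rw [div_le_iff₀ (by exact_mod_cast h.FinP_pos)]
  exact_mod_cast h.FinP_le

theorem dd_le (h : FPar q R r k) : (12 * dd q r k + 1 : ℝ) ≤ 13 * k / (r * q) := by
  have h0 : (0 : ℝ) < r * q := by exact_mod_cast h.FinP_pos
  have h1 := Nat.cast_div_le (α := ℝ) (m := k) (n := r * q)
  have h2 : 13 ≤ (k : ℝ) / (r * q) := by
    rw [le_div_iff₀ h0]
    nlinarith [h.hk1, h.six_le_L]
  unfold dd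
  push_cast at h1 ⊢
  rw [mul_div_assoc]
  linarith

/-- the pool factor: `choose_mul_pow_le`, `e B p / ww ≤ 16 e β / (10000 r) ≤ exp (-y)` -/
theorem pool_factor (h : FPar q R r k) {B : ℕ} {β y : ℝ} (hy : 0 ≤ y)
    (hB : (B : ℝ) ≤ β * (q : ℝ) ^ 3) (hβ : 44 * β / (10000 * r) ≤ Real.exp (-y)) :
    (B.choose (ww k) : ℝ) * pp q r k ^ ww k ≤ Real.exp (-(y * k / 16)) := by
  have q0 : (0 : ℝ) < q := by exact_mod_cast (show 0 < q by have := h.hq; omega)
  have r0 : (0 : ℝ) < r := by exact_mod_cast (show 0 < r by have := h.r_ge; omega)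
  have w1 : 1 ≤ ww k := by unfold ww; omega
  have w0 : (0 : ℝ) < ww k := by exact_mod_cast w1
  have b0 : 0 ≤ β := le_of_mul_le_mul_right (by rw [zero_mul]; exact (Nat.cast_nonneg B).trans hB)
    (pow_pos q0 3)
  have p0 := pp_nonneg q r k
  have e1 : Real.exp 1 ≤ 44 / 16 := Real.exp_one_lt_d9.le.trans (by norm_num)
  have key : Real.exp 1 * B * pp q r k / ww k ≤ Real.exp (-y) := by
    rw [div_le_iff₀ w0]
    calc Real.exp 1 * B * pp q r k ≤ 44 / 16 * (β * (q : ℝ) ^ 3) * pp q r k := by gcongr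
      _ = 44 * β / (10000 * r) * (k / 16) := by unfold pp; field_simp
      _ ≤ _ := mul_le_mul hβ (ww_ge k) (by positivity) (Real.exp_pos _).le
  refine (choose_mul_pow_le B _ w1 p0).trans ((pow_le_pow_left₀ (by positivity) key _).trans ?_)
  rw [← Real.exp_nat_mul, Real.exp_le_exp]
  nlinarith [ww_ge k]

end FPar

section
variable {φ : Type} [DecidableEq φ]

theorem hits_mono {C C' : Finset (Finset φ × Finset φ)} {w0 : ℕ} {I I' : Finset φ} (hC : C ⊆ C')
    (hI : I ⊆ I') (h : hits C w0 I) : hits C' w0 I' := by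
  obtain ⟨x, hx, h1, h2⟩ := h
  exact ⟨x, hC hx, h1.trans hI, h2.trans (card_le_card
    (sdiff_subset_sdiff (inter_subset_inter_right hI) Subset.rfl))⟩

theorem wtC_union_le {p : ℝ} (hp : 0 ≤ p) (w0 : ℕ) (C C' : Finset (Finset φ × Finset φ)) :
    wtC p w0 (C ∪ C') ≤ wtC p w0 C + wtC p w0 C' := by
  have := sum_union_inter (s₁ := C) (s₂ := C')
    (f := fun x => p ^ x.1.card * (x.2.card.choose w0 : ℝ) * p ^ w0)
  have h2 : 0 ≤ ∑ x ∈ C ∩ C', p ^ x.1.card * (x.2.card.choose w0 : ℝ) * p ^ w0 :=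
    sum_nonneg fun _ _ => by positivity
  unfold wtC
  linarith

theorem wtC_biUnion_le {κ : Type} {p : ℝ} (hp : 0 ≤ p) (w0 : ℕ) (I : Finset κ)
    (C : κ → Finset (Finset φ × Finset φ)) :
    wtC p w0 (I.biUnion C) ≤ ∑ i ∈ I, wtC p w0 (C i) := by
  classical
  induction I using Finset.induction_on with
  | empty => simp [wtC]
  | insert a s ha ih =>
    rw [biUnion_insert, sum_insert ha]
    exact (wtC_union_le hp w0 _ _).trans (add_le_add le_rfl ih)

theorem wtC_image_le {κ : Type} {p : ℝ} (hp : 0 ≤ p) (w0 : ℕ) (I : Finset κ)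
    (f : κ → Finset φ × Finset φ) :
    wtC p w0 (I.image f) ≤
      ∑ i ∈ I, p ^ (f i).1.card * (((f i).2.card.choose w0 : ℝ) * p ^ w0) := by
  refine (sum_image_le_of_nonneg fun _ _ => by positivity).trans (le_of_eq ?_)
  exact sum_congr rfl fun _ _ => mul_assoc _ _ _

theorem FinP_sub (Ω : Finset φ) {p : ℝ} (h0 : 0 ≤ p) (h1 : p ≤ 1) (A : Finset φ) :
    Pr p Ω (fun T => A ⊆ T) ≤ p ^ A.card := by
  by_cases h : A ⊆ Ω
  · exact (Pr_subset h).le
  · refine (Ex_mono h0 h1 (g := fun _ => 0) fun T hT => (ind_neg fun k => h (k.trans hT)).le).trans ?_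
    rw [Ex_const]
    positivity

theorem FinP_hits (Ω : Finset φ) {p : ℝ} (h0 : 0 ≤ p) (h1 : p ≤ 1) (w0 : ℕ)
    (C : Finset (Finset φ × Finset φ)) : Pr p Ω (hits C w0) ≤ wtC p w0 C := by
  refine (Pr_exists h0 h1 C fun x T => x.1 ⊆ T ∧ w0 ≤ ((T ∩ x.2) \ x.1).card).trans
    (sum_le_sum fun x _ => ?_)
  refine (Pr_mono h0 h1 (p' := fun T => ∃ W ∈ powersetCard w0 (x.2 \ x.1), x.1 ∪ W ⊆ T)
    fun T _ k => ?_).trans ((Pr_exists h0 h1 _ _).trans ?_)
  · obtain ⟨W, hW, e⟩ := exists_subset_card_eq k.2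
    exact ⟨W, mem_powersetCard.2 ⟨hW.trans (sdiff_subset_sdiff inter_subset_right Subset.rfl), e⟩,
      union_subset k.1 (hW.trans (sdiff_subset.trans inter_subset_left))⟩
  · refine (sum_le_card_nsmul _ _ (p ^ x.1.card * p ^ w0) fun W hW => ?_).trans ?_
    · obtain ⟨a, b⟩ := mem_powersetCard.1 hW
      refine (FinP_sub Ω h0 h1 _).trans (le_of_eq ?_)
      rw [card_union_of_disjoint (disjoint_sdiff.mono_right a), pow_add, b]
    · rw [nsmul_eq_mul, card_powersetCard, ← mul_assoc, mul_comm _ (p ^ x.1.card)]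
      have : ((x.2 \ x.1).card.choose w0 : ℝ) ≤ x.2.card.choose w0 :=
        Nat.cast_le.2 (Nat.choose_le_choose _ (card_le_card sdiff_subset))
      gcongr

/-- Sampling. `bad X` = number of pairs `(x, W)`, `x ∈ C`, `W ⊆ x.2 \ x.1`, `|W| = w0`,
`x.1 ∪ W ⊆ X`; its expectation is at most `wtC` (`Pr_subset`; pairs not inside `Ω` have probability
zero). `exists_ge_Ex` for `|X| - |Ω| * bad X`. -/
theorem sample (Ω : Finset φ) {p : ℝ} (h0 : 0 ≤ p) (h1 : p ≤ 1) (w0 : ℕ)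
    (C : Finset (Finset φ × Finset φ)) (hC : wtC p w0 C * Ω.card ≤ 1) (hΩ : 1 < p * Ω.card) :
    ∃ X ⊆ Ω, p * Ω.card - 1 ≤ X.card ∧ ∀ I ⊆ X, ¬ hits C w0 I := by
  obtain ⟨X, hX, h⟩ := exists_ge_Ex (Ω := Ω) h0 h1
    fun T => ((T ∩ Ω).card : ℝ) - Ω.card * ind (hits C w0 T)
  rw [Ex_sub, Ex_card, Ex_mul_left, inter_self, inter_eq_left.2 hX] at h
  have h2 := mul_le_mul_of_nonneg_left (FinP_hits Ω h0 h1 w0 C) (Nat.cast_nonneg Ω.card)
  have h3 : (X.card : ℝ) ≤ Ω.card := Nat.cast_le.2 (card_le_card hX)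
  unfold Pr at h2
  by_cases k : hits C w0 X
  · rw [ind_pos k] at h
    linarith
  · rw [ind_neg k] at h
    exact ⟨X, hX, by linarith, fun I hI e => k (hits_mono Subset.rfl hI e)⟩

end

end Pool.Agent.Work.MP_e10cd8_co.Four
end

-- merged part: Pool.Agent.Work.MP_e10cd8_co.All.ADefs
section
/-!
Definitions for the exact order for every fixed tournament size.
Paper: team store file h81_e10cd8_all.md.
-/

namespace Pool.Agent.Work.MP_e10cd8_co.All

open Finset Four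

noncomputable section

/-- number of points of a subspace of rank `i` -/
def gs (q i : ℕ) : ℕ := ∑ e ∈ range i, q ^ e

/-- the projective space of dimension `t`; points and hyperplanes are the same type, `pl b` is the
set of points on the hyperplane `b` and the set of hyperplanes through the point `b` -/
structure GP (q t : ℕ) (Pt : Type) [Fintype Pt] [DecidableEq Pt] where
  pl : Pt → Finset Pt
  rk : Finset Pt → ℕ
  two_le : 2 ≤ q
  ht : 2 ≤ t
  symm : ∀ a b, a ∈ pl b ↔ b ∈ pl a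
  rk_le : ∀ A, rk A ≤ t + 1
  card_perp' : ∀ A, (sel fun z => A ⊆ pl z).card = gs q (t + 1 - rk A)
  rk_perp' : ∀ A, rk (sel fun z => A ⊆ pl z) = t + 1 - rk A
  rk_empty : rk ∅ = 0
  rk_one : ∀ a, rk {a} = 1
  rk_two : ∀ a y, a ≠ y → rk {a, y} = 2
  rk_insert : ∀ y A, rk (insert y A) ≤ rk A + 1

/-- projection from the centre `c`: `π` on points, `φ` lists the hyperplanes through `c` -/
structure Prj {q t : ℕ} {Pt Pt' : Type} [Fintype Pt] [DecidableEq Pt] [Fintype Pt']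
    [DecidableEq Pt'] (G : GP q (t + 1) Pt) (G' : GP q t Pt') (c : Pt) (π : Pt → Pt')
    (φ : Pt' → Pt) : Prop where
  inj : Function.Injective φ
  mem : ∀ b', φ b' ∈ G.pl c
  surj : ∀ b ∈ G.pl c, ∃ b', φ b' = b
  inc : ∀ a, a ≠ c → ∀ b', (π a ∈ G'.pl b' ↔ a ∈ G.pl (φ b'))
  fib : ∀ y, (sel fun a => a ≠ c ∧ π a = y).card = q

/-- side conditions of the final count -/
structure NP (q t H D k : ℕ) : Prop where
  ht : 2 ≤ t
  hH : 10 ^ 6 * (t + 1) ^ 4 ≤ H
  hq : 1000 ≤ q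
  hbig : Real.log q ^ 4 ≤ q
  hD1 : (D : ℝ) ^ 2 ≤ Real.log q
  hD2 : 1000 * (H : ℝ) ^ 3 * Real.log (Real.log q) ≤ D
  hk1 : (H : ℝ) ^ 6 * q * Real.log q ≤ k
  hk2 : (k : ℝ) ≤ 5 * (H : ℝ) ^ 6 * q * Real.log q

/-- sampling probability -/
def ap (q t H k : ℕ) : ℝ := (k : ℝ) / ((H : ℝ) ^ 10 * (q : ℝ) ^ t)

def aw (H k : ℕ) : ℕ := k / H + 1

def ad (q H k : ℕ) : ℕ := k / (H ^ 3 * q) + 1

def at0 (q H : ℕ) : ℝ := (H : ℝ) ^ 4 * q * Real.log q

def am0 (q t : ℕ) : ℝ := 3 * (t + 1) * Real.log q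

def am2 (q : ℕ) : ℝ := 78 * Real.log (Real.log q)

def aJ (q t : ℕ) : ℕ := ⌊t * Real.log q⌋₊ + 1

/-- level of the second sample -/
def ax (q H k s : ℕ) : ℝ := (H : ℝ) * (s + 1) * q / k

def lam (q : ℕ) (Om : ℝ) : ℝ := 1 + Real.log Om + Real.log (Real.log q)

/-- exchange points and hyperplanes -/
def sw {Pt : Type} [DecidableEq Pt] (Z : Finset (Pt × Pt)) : Finset (Pt × Pt) := Z.image Prod.swap

namespace GP

variable {q t : ℕ} {Pt : Type} [Fintype Pt] [DecidableEq Pt] (G : GP q t Pt)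

def perp (A : Finset Pt) : Finset Pt := sel fun z => A ⊆ G.pl z

/-- the span -/
def cl (A : Finset Pt) : Finset Pt := G.perp (G.perp A)

def cnt (X : Finset Pt) (b : Pt) : ℕ := (G.pl b ∩ X).card

def low (x : ℝ) (X : Finset Pt) : Finset Pt := sel fun b => (G.cnt X b : ℝ) ≤ x * X.card / q

def Ext (x : ℝ) (P : Finset Pt) (Om : ℝ) : Prop :=
  P.Nonempty ∧ (q : ℝ) ^ (t + 1) ≤ (G.low x P).card * P.card * Om

/-- `F` contains a container for the low hyperplanes of each extremal set in `Dom` -/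
def Cont (x Om Γ : ℝ) (Dom : Finset Pt → Prop) (F : Finset (Finset Pt)) : Prop :=
  ∀ P, Dom P → G.Ext x P Om →
    ∃ Y ∈ F, G.low x P ⊆ Y ∧ (Y.card : ℝ) * P.card ≤ Γ * (q : ℝ) ^ (t + 1)

def KLp (x A Γ : ℝ) : Prop :=
  ∀ Om : ℝ, 1 ≤ Om → ∃ F : Finset (Finset Pt),
    (F.card : ℝ) ≤ Real.exp (A * q * Real.log q * lam q Om) ∧ G.Cont x Om Γ (fun _ => True) F

def flags : Finset (Pt × Pt) := sel fun z => z.1 ∈ G.pl z.2

def arc (u v : Pt × Pt) : Prop := u.1 ∈ G.pl v.2 ∧ v.1 ∉ G.pl u.2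

def indep (I : Finset (Pt × Pt)) : Prop :=
  I ⊆ G.flags ∧ ∀ u ∈ I, ∀ v ∈ I, (u.1 ∈ G.pl v.2 ↔ v.1 ∈ G.pl u.2)

def pool (X Y : Finset Pt) : Finset (Pt × Pt) := sel fun z => z.1 ∈ G.pl z.2 ∧ z.1 ∈ X ∧ z.2 ∈ Y

def sparse (d : ℕ) (Z : Finset (Pt × Pt)) : Prop :=
  Z ⊆ G.flags ∧ ∀ z ∈ Z, (selIn Z fun u => z.1 ∈ G.pl u.2).card ≤ d ∧
    (selIn Z fun u => u.1 ∈ G.pl z.2).card ≤ d

def Pof (m : ℝ) (T : Finset (Pt × Pt)) : Finset Pt :=
  sel fun a => ((selIn T fun u => a ∈ G.pl u.2).card : ℝ) ≤ 2 * m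

def Pio (m : ℝ) (T : Finset (Pt × Pt)) : Finset Pt :=
  sel fun b => ((selIn T fun u => u.1 ∈ G.pl b).card : ℝ) ≤ 2 * m

open Classical in
/-- the pool after the second sample -/
def st2 (X0 Y0 : Finset Pt) (m x : ℝ) (T' : Finset (Pt × Pt)) : Finset (Pt × Pt) :=
  if ((X0 ∩ G.Pof m T').card : ℝ) ≤ Real.exp (-m / 6) * X0.card ∨
      ((Y0 ∩ G.Pio m T').card : ℝ) ≤ Real.exp (-m / 6) * Y0.card then
    G.pool (X0 ∩ G.Pof m T') (Y0 ∩ G.Pio m T')
  else G.pool (X0 ∩ G.Pof m T' ∩ G.low x (Y0 ∩ G.Pio m T'))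
    (Y0 ∩ G.Pio m T' ∩ G.low x (X0 ∩ G.Pof m T'))

/-- flags that are low both ways -/
def BB (x : ℝ) (P Q : Finset Pt) : Finset (Pt × Pt) := G.pool (P ∩ G.low x Q) (Q ∩ G.low x P)

/-- the span of `a` and the points of the flags of `T` whose hyperplane contains `a` -/
def spn (T : Finset (Pt × Pt)) (a : Pt) : Finset Pt :=
  G.cl (insert a ((selIn T fun u => a ∈ G.pl u.2).image Prod.fst))

/-- flags of `Z` that are new for `a` -/
def nw (T Z : Finset (Pt × Pt)) (a : Pt) : Finset (Pt × Pt) :=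
  selIn Z fun u => a ∈ G.pl u.2 ∧ u.1 ∉ G.spn T a

/-- all flags of `Z` have spans of rank `u` and few new flags -/
structure Cl1 (T : Finset (Pt × Pt)) (u d : ℕ) (Z : Finset (Pt × Pt)) : Prop where
  one_le : 1 ≤ u
  le_t : u ≤ t
  rank : ∀ z ∈ Z, G.rk (G.spn T z.1) = u
  sub : ∀ z ∈ Z, G.spn T z.1 ⊆ G.pl z.2
  few : ∀ z ∈ Z, (G.nw T Z z.1).card ≤ d

/-- allowed points after the sample `T` -/
def PPf (T0 : Finset (Pt × Pt)) (u : ℕ) (m : ℝ) (T : Finset (Pt × Pt)) : Finset Pt :=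
  sel fun a => G.rk (G.spn T0 a) = u ∧ ((G.nw T0 T a).card : ℝ) ≤ 2 * m

/-- flags whose point lies in the span of a member of `A` -/
def popP (T0 : Finset (Pt × Pt)) (u : ℕ) (A : Finset Pt) : Finset (Pt × Pt) :=
  sel fun z => z.1 ∈ A.biUnion (G.spn T0) ∧ G.rk (G.spn T0 z.1) = u ∧ G.spn T0 z.1 ⊆ G.pl z.2

def NoPop (T0 : Finset (Pt × Pt)) (u w M : ℕ) (Z : Finset (Pt × Pt)) : Prop :=
  ∀ A : Finset Pt, A.card ≤ M → (∀ a ∈ A, G.rk (G.spn T0 a) = u) → (Z ∩ G.popP T0 u A).card < w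

/-- `T` is a valid sample of the part `Z'` of `Z` -/
structure Valid (PP QQ : Finset (Pt × Pt) → Finset Pt) (x : ℝ) (H k : ℕ)
    (Z Z' T : Finset (Pt × Pt)) : Prop where
  sub : T ⊆ Z'
  card : (T.card : ℝ) ≤ at0 q H
  all : Z ⊆ G.pool (PP T) (QQ T)
  lp : ∀ P' ⊆ PP T, ((selIn Z' fun z => z.2 ∉ G.low x P').card : ℝ) ≤ 5 * k / H
  lq : ∀ Q' ⊆ QQ T, ((selIn Z' fun z => z.1 ∉ G.low x Q').card : ℝ) ≤ 5 * k / H

def Smp (PP QQ : Finset (Pt × Pt) → Finset Pt) (x : ℝ) (H k : ℕ) (Z : Finset (Pt × Pt)) : Prop :=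
  ∀ Z' ⊆ Z, ∃ T, G.Valid PP QQ x H k Z Z' T

/-- `z'` is a parent of `z` -/
def par (T : Finset (Pt × Pt)) (z' z : Pt × Pt) : Prop :=
  z.1 ∈ G.spn T z'.1 ∧ z.2 ∈ G.spn (sw T) z'.2

/-- the possible children of `z'` -/
def ppool (T : Finset (Pt × Pt)) (P Q : Finset Pt) (z' : Pt × Pt) : Finset (Pt × Pt) :=
  sel fun z => z.1 ∈ G.spn T z'.1 ∩ P ∧ z.2 ∈ G.spn (sw T) z'.2 ∩ Q ∧
    G.rk (G.spn T z.1) = G.rk (G.spn T z'.1) ∧ G.spn T z.1 ⊆ G.pl z.2 ∧
    G.rk (G.spn (sw T) z.2) = G.rk (G.spn (sw T) z'.2) ∧ G.spn (sw T) z.2 ⊆ G.pl z.1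

/-- the menu of final pools -/
def mn (x : ℝ) (H k : ℕ) (P Q : Finset Pt) (A B : Finset (Pt × Pt)) : ℕ → Finset (Pt × Pt)
  | 0 => G.BB x P Q
  | 1 => B.biUnion (G.ppool A P Q)
  | s + 2 => G.st2 P Q (am2 q) (ax q H k s) A

/-- the cover of level `j` over the family `F` of container pairs -/
def Cov (PP QQ : Finset (Pt × Pt) → Finset Pt) (x : ℝ) (H k j : ℕ)
    (F : Finset (Finset Pt × Finset Pt)) (β : ℝ) : Finset (Finset (Pt × Pt) × Finset (Pt × Pt)) :=
  sel fun y => ∃ XY ∈ F, ∃ T1 W : Finset (Pt × Pt), T1 ⊆ G.pool XY.1 XY.2 ∧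
    ((G.pool XY.1 XY.2).card : ℝ) ≤ (H : ℝ) ^ 3 * Real.exp (4 * j) * (q : ℝ) ^ t ∧
    (T1.card : ℝ) ≤ at0 q H ∧ W ⊆ G.pool (PP T1) (QQ T1) ∧
    ((G.pool (PP T1) (QQ T1)).card : ℝ) ≤ 35 * Real.exp (2 * j) * (q : ℝ) ^ t ∧
    (W.card : ℝ) ≤ 2 * at0 q H ∧ Disjoint T1 W ∧ y.1 = T1 ∪ W ∧
    (∃ Ts ⊆ y.1, ∃ A ⊆ y.1, ∃ B ⊆ y.1, ∃ i ≤ k + 2, y.2 = G.mn x H k (PP Ts) (QQ Ts) A B i) ∧
    (y.2.card : ℝ) ≤ β * (q : ℝ) ^ t

/-- outcome of the fine reduction -/
structure Fine (H D k : ℕ) (Z T2 Z2 Zs : Finset (Pt × Pt)) (u v s : ℕ) : Prop where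
  hk : Z.card ≤ k
  big : 1000 * (k : ℝ) / H ≤ Z.card
  t2 : T2 ⊆ Z
  t2c : 2 * (T2.card : ℝ) ≤ at0 q H
  z2 : Z2 ⊆ Z
  cl1 : G.Cl1 T2 u D Z2
  cl2 : G.Cl1 (sw T2) v D (sw Z2)
  s16 : 16 * D ≤ s
  zs : Zs ⊆ Z2
  zsc : 1000 * (k : ℝ) / H ≤ Zs.card
  sp : G.sparse (s + 1) Zs

/-- a large part of `Z2` has many parents -/
structure Kids (H k : ℕ) (T2 Z2 Zl : Finset (Pt × Pt)) (s : ℕ) : Prop where
  sub : Zl ⊆ Z2
  big : 10000 * (k : ℝ) / H ≤ Zl.card
  many : ∀ z ∈ Zl, s ≤ 2 * (selIn Z2 fun z' => G.par T2 z' z).card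

end GP

end

end Pool.Agent.Work.MP_e10cd8_co.All
end

-- merged part: Pool.Agent.Work.MP_e10cd8_co.All.GeoA
section
/-! Ranks and spans. Compare `Four/Geo`. -/

namespace Pool.Agent.Work.MP_e10cd8_co.All

open Finset Four

theorem gs_succ (q i : ℕ) : gs q (i + 1) = q * gs q i + 1 := by
  rw [gs, sum_range_succ', gs, mul_sum, pow_zero]
  exact congrArg (· + 1) (sum_congr rfl fun e _ => pow_succ' q e)

theorem GeoA_succ (q i : ℕ) : gs q (i + 1) = gs q i + q ^ i := sum_range_succ _ _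

theorem GeoA_lt {q : ℕ} (hq : 2 ≤ q) (i : ℕ) : gs q i + 1 ≤ q ^ i := by
  induction i with
  | zero => simp [gs]
  | succ i ih =>
    have := Nat.mul_le_mul_left (q ^ i) hq
    rw [GeoA_succ, pow_succ]
    omega

theorem GeoA_small {ι : Type} [Fintype ι] [DecidableEq ι] (n : ℕ) :
    (sel fun T : Finset ι => T.card ≤ n).card ≤ (Fintype.card ι + 1) ^ n := by
  induction n with
  | zero => exact card_le_one.2 fun a ha b hb => by simp_all
  | succ n ih =>
    refine (card_le_card (t := (sel fun T : Finset ι => T.card ≤ n) ∪ univ.biUnion fun a =>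
      (sel fun T : Finset ι => T.card ≤ n).image (insert a)) fun T hT => ?_).trans ?_
    · have h2 := mem_sel.1 hT
      obtain rfl | ⟨a, ha⟩ := T.eq_empty_or_nonempty
      · simp
      · exact mem_union_right _ (mem_biUnion.2 ⟨a, mem_univ a, mem_image.2 ⟨T.erase a,
          mem_sel.2 (by rw [card_erase_of_mem ha]; omega), insert_erase ha⟩⟩)
    · refine (card_union_le _ _).trans ((add_le_add ih (card_biUnion_le_card_mul _ _ _
        fun a _ => card_image_le.trans ih)).trans (le_of_eq ?_))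
      rw [card_univ]
      ring

theorem gs_strictMono {q : ℕ} (hq : 2 ≤ q) : StrictMono (gs q) := by
  refine strictMono_nat_of_lt_succ fun i => ?_
  rw [GeoA_succ]
  exact Nat.lt_add_of_pos_right (Nat.pow_pos (by omega))

theorem pow_le_gs (q i : ℕ) : q ^ i ≤ gs q (i + 1) := by
  rw [GeoA_succ]
  exact Nat.le_add_left _ _

theorem gs_mul_le {q : ℕ} (hq : 2 ≤ q) (i : ℕ) : gs q i * q ≤ 2 * q ^ i := by
  cases i with
  | zero => simp [gs]
  | succ i =>
    have := GeoA_lt hq i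
    rw [GeoA_succ, pow_succ, ← mul_assoc]
    exact Nat.mul_le_mul_right _ (by omega)

theorem gs_succ_le {q : ℕ} (hq : 2 ≤ q) (i : ℕ) : gs q i + 1 ≤ q ^ i ∧
    gs q (i + 1) ≤ 2 * q ^ i := by
  have := GeoA_lt hq i
  rw [GeoA_succ]
  omega

theorem mem_sw {Pt : Type} [DecidableEq Pt] {Z : Finset (Pt × Pt)} {z : Pt × Pt} :
    z ∈ sw Z ↔ z.swap ∈ Z := by
  refine mem_image.trans ⟨?_, fun h => ⟨_, h, Prod.swap_swap z⟩⟩
  rintro ⟨u, hu, rfl⟩
  exact hu

theorem sw_sw {Pt : Type} [DecidableEq Pt] (Z : Finset (Pt × Pt)) : sw (sw Z) = Z := by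
  ext z
  rw [mem_sw, mem_sw, Prod.swap_swap]

theorem card_sw {Pt : Type} [DecidableEq Pt] (Z : Finset (Pt × Pt)) : (sw Z).card = Z.card := by
  exact card_image_of_injective _ Prod.swap_injective

theorem sw_mono {Pt : Type} [DecidableEq Pt] {Z Z' : Finset (Pt × Pt)} (h : Z ⊆ Z') :
    sw Z ⊆ sw Z' := by
  exact image_subset_image h

theorem card_selIn_sw {Pt : Type} [DecidableEq Pt] (Z : Finset (Pt × Pt)) (p : Pt × Pt → Prop) :
    (selIn (sw Z) p).card = (selIn Z fun z => p z.swap).card := by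
  rw [← card_sw (selIn Z _)]
  congr 1
  ext z
  rw [mem_sw, mem_selIn, mem_selIn, mem_sw, Prod.swap_swap]

namespace GP

variable {q t : ℕ} {Pt : Type} [Fintype Pt] [DecidableEq Pt] (G : GP q t Pt)

theorem mem_perp {A : Finset Pt} {z : Pt} : z ∈ G.perp A ↔ A ⊆ G.pl z := by
  exact mem_sel

theorem card_perp (A : Finset Pt) : (G.perp A).card = gs q (t + 1 - G.rk A) := G.card_perp' A

theorem rk_perp (A : Finset Pt) : G.rk (G.perp A) = t + 1 - G.rk A := G.rk_perp' A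

theorem perp_anti {A B : Finset Pt} (h : A ⊆ B) : G.perp B ⊆ G.perp A := by
  exact fun z hz => G.mem_perp.2 (h.trans (G.mem_perp.1 hz))

theorem subset_cl (A : Finset Pt) : A ⊆ G.cl A := by
  exact fun a ha => G.mem_perp.2 fun z hz => (G.symm _ _).1 (G.mem_perp.1 hz ha)

theorem cl_mono {A B : Finset Pt} (h : A ⊆ B) : G.cl A ⊆ G.cl B := by
  exact G.perp_anti (G.perp_anti h)

theorem perp_cl (A : Finset Pt) : G.perp (G.cl A) = G.perp A := by
  exact (G.perp_anti (G.subset_cl A)).antisymm (G.subset_cl (G.perp A))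

theorem cl_cl (A : Finset Pt) : G.cl (G.cl A) = G.cl A := by
  exact congrArg G.perp (G.perp_cl A)

theorem cl_perp (A : Finset Pt) : G.cl (G.perp A) = G.perp A := by
  exact G.perp_cl A

theorem cl_subset_pl {A : Finset Pt} {b : Pt} : G.cl A ⊆ G.pl b ↔ A ⊆ G.pl b := by
  rw [← mem_perp, ← mem_perp, perp_cl]

theorem perp_singleton (a : Pt) : G.perp {a} = G.pl a := by
  ext z
  rw [mem_perp, singleton_subset_iff, G.symm]

theorem perp_pair (a y : Pt) : G.perp {a, y} = G.pl a ∩ G.pl y := by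
  ext z
  rw [mem_perp, insert_subset_iff, singleton_subset_iff, mem_inter, G.symm a, G.symm y]

theorem rk_cl (A : Finset Pt) : G.rk (G.cl A) = G.rk A := by
  have := G.rk_le A
  rw [cl, rk_perp, rk_perp]
  omega

theorem card_cl (A : Finset Pt) : (G.cl A).card = gs q (G.rk A) := by
  have := G.rk_le A
  rw [cl, card_perp, rk_perp]
  congr 1
  omega

theorem rk_mono {A B : Finset Pt} (h : A ⊆ B) : G.rk A ≤ G.rk B := by
  have h1 := card_le_card (G.perp_anti h)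
  rw [card_perp, card_perp, (gs_strictMono G.two_le).le_iff_le] at h1
  have := G.rk_le A
  omega

/-- otherwise the two perps have the same size, hence are equal -/
theorem rk_lt {A B : Finset Pt} (h : A ⊆ B) {y : Pt} (hy : y ∈ B) (hn : y ∉ G.cl A) :
    G.rk A < G.rk B := by
  refine lt_of_le_of_ne (G.rk_mono h) fun e => hn ?_
  have h1 : G.perp B = G.perp A :=
    eq_of_subset_of_card_le (G.perp_anti h) (by rw [card_perp, card_perp, e])
  rw [cl, ← h1]
  exact G.subset_cl B hy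

theorem rk_le_of_subset_pl {A : Finset Pt} {b : Pt} (h : A ⊆ G.pl b) : G.rk A ≤ t := by
  have h1 := card_pos.2 ⟨b, G.mem_perp.2 h⟩
  rw [card_perp] at h1
  by_contra hn
  rw [show t + 1 - G.rk A = 0 by omega] at h1
  exact absurd h1 (by simp [gs])

theorem one_le_rk {A : Finset Pt} (h : A.Nonempty) : 1 ≤ G.rk A := by
  obtain ⟨a, ha⟩ := h
  exact (G.rk_one a).ge.trans (G.rk_mono (singleton_subset_iff.2 ha))

/-- the intersection is closed and a proper subset of `R` -/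
theorem card_inter_closed {R R' : Finset Pt} (hR : G.cl R = R) (hR' : G.cl R' = R') (h : R ≠ R')
    (hr : G.rk R = G.rk R') : (R ∩ R').card ≤ gs q (G.rk R - 1) := by
  have h1 : G.cl (R ∩ R') = R ∩ R' := (subset_inter ((G.cl_mono inter_subset_left).trans hR.le)
    ((G.cl_mono inter_subset_right).trans hR'.le)).antisymm (G.subset_cl _)
  obtain ⟨y, hy, hn⟩ := not_subset.1 fun k : R ⊆ R' => h (eq_of_subset_of_card_le k (by
    rw [← hR, ← hR', card_cl, card_cl, hr]))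
  have h2 := G.rk_lt inter_subset_left hy (by rw [h1]; exact fun k => hn (mem_inter.1 k).2)
  rw [← h1, card_cl]
  exact (gs_strictMono G.two_le).monotone (by omega)

/-- a basis: a subset of largest size among those whose rank is at least their size -/
theorem exists_basis (A : Finset Pt) : ∃ B ⊆ A, B.card ≤ t + 1 ∧ G.cl B = G.cl A := by
  obtain ⟨B, hB, hm⟩ := exists_max_image (A.powerset.filter fun B => B.card ≤ G.rk B) card
    ⟨∅, by simp⟩
  obtain ⟨h1, h2⟩ := mem_filter.1 hB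
  rw [mem_powerset] at h1
  refine ⟨B, h1, h2.trans (G.rk_le B), (G.cl_mono h1).antisymm ?_⟩
  rw [← G.cl_cl B]
  refine G.cl_mono fun y hy => by_contra fun hn => ?_
  have h3 := G.rk_lt (subset_insert y B) (mem_insert_self y B) hn
  have h4 := card_insert_of_notMem fun k => hn (G.subset_cl B k)
  have := hm (insert y B) (mem_filter.2 ⟨mem_powerset.2 (insert_subset hy h1), by omega⟩)
  omega

include G in
theorem card_pt : Fintype.card Pt = gs q (t + 1) := by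
  have h := G.card_perp ∅
  rwa [G.rk_empty, eq_univ_of_forall fun z => G.mem_perp.2 (empty_subset _), card_univ] at h

theorem deg (a : Pt) : (G.pl a).card = gs q t := by
  rw [← perp_singleton, card_perp, G.rk_one]
  rfl

theorem codeg {a y : Pt} (h : a ≠ y) : (G.pl a ∩ G.pl y).card = gs q (t - 1) := by
  rw [← perp_pair, card_perp, G.rk_two a y h]
  rfl

include G in
theorem card_pt_le : (Fintype.card Pt : ℝ) ≤ 2 * (q : ℝ) ^ t := by
  rw [G.card_pt]
  exact_mod_cast (gs_succ_le G.two_le t).2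

include G in
theorem le_card_pt : (q : ℝ) ^ t ≤ Fintype.card Pt := by
  rw [G.card_pt]
  exact_mod_cast pow_le_gs q t

include G in
theorem card_pt_succ_le : Fintype.card Pt + 1 ≤ q ^ (t + 1) := by
  rw [G.card_pt]
  exact (gs_succ_le G.two_le _).1

/-- `exists_basis`: closed sets are images of sets with at most `t + 1` elements, which number at
most `(|Pt| + 1) ^ (t + 1)` (induction, or `Four.card_small_le` reproved) -/
theorem card_closed_le : (sel fun R => G.cl R = R).card ≤ q ^ ((t + 1) * (t + 1)) := by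
  refine (card_le_card (t := (sel fun T : Finset Pt => T.card ≤ t + 1).image G.cl)
    fun R hR => ?_).trans (card_image_le.trans ((GeoA_small _).trans ?_))
  · obtain ⟨B, -, h1, h2⟩ := G.exists_basis R
    exact mem_image.2 ⟨B, mem_sel.2 h1, h2.trans (mem_sel (p := fun R => G.cl R = R).1 hR)⟩
  · rw [pow_mul]
    exact Nat.pow_le_pow_left G.card_pt_succ_le _

theorem mem_flags {z : Pt × Pt} : z ∈ G.flags ↔ z.1 ∈ G.pl z.2 := by
  exact mem_sel

theorem mem_pool {X Y : Finset Pt} {z : Pt × Pt} :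
    z ∈ G.pool X Y ↔ z.1 ∈ G.pl z.2 ∧ z.1 ∈ X ∧ z.2 ∈ Y := by
  exact mem_sel

theorem sw_pool (X Y : Finset Pt) : sw (G.pool X Y) = G.pool Y X := by
  ext z
  rw [mem_sw, mem_pool, mem_pool, Prod.fst_swap, Prod.snd_swap, G.symm z.2, and_comm (a := z.2 ∈ X)]

theorem indep_sw {I : Finset (Pt × Pt)} (h : G.indep I) : G.indep (sw I) := by
  refine ⟨fun z hz => G.mem_flags.2 ((G.symm _ _).1 (G.mem_flags.1 (h.1 (mem_sw.1 hz)))),
    fun u hu v hv => ?_⟩
  rw [G.symm u.1, G.symm v.1]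
  exact h.2 _ (mem_sw.1 hv) _ (mem_sw.1 hu)

theorem indep_mono {I J : Finset (Pt × Pt)} (h : G.indep I) (hJ : J ⊆ I) : G.indep J := by
  exact ⟨hJ.trans h.1, fun u hu v hv => h.2 u (hJ hu) v (hJ hv)⟩

theorem cl_spn (T : Finset (Pt × Pt)) (a : Pt) : G.cl (G.spn T a) = G.spn T a := G.cl_cl _

theorem mem_spn (T : Finset (Pt × Pt)) (a : Pt) : a ∈ G.spn T a := by
  exact G.subset_cl _ (mem_insert_self _ _)

theorem spn_mono {T T' : Finset (Pt × Pt)} (h : T ⊆ T') (a : Pt) : G.spn T a ⊆ G.spn T' a := by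
  exact G.cl_mono (insert_subset_insert _ (image_subset_image fun u hu =>
    mem_selIn.2 ⟨h (mem_selIn.1 hu).1, (mem_selIn.1 hu).2⟩))

theorem card_spn (T : Finset (Pt × Pt)) (a : Pt) :
    (G.spn T a).card = gs q (G.rk (G.spn T a)) := by
  conv_lhs => rw [← cl_spn, card_cl]

theorem spn_subset_pl {I T : Finset (Pt × Pt)} (hI : G.indep I) (hT : T ⊆ I) {z : Pt × Pt}
    (hz : z ∈ I) : G.spn T z.1 ⊆ G.pl z.2 := by
  refine G.cl_subset_pl.2 (insert_subset (G.mem_flags.1 (hI.1 hz)) fun a ha => ?_)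
  obtain ⟨u, hu, rfl⟩ := mem_image.1 ha
  exact (hI.2 z hz u (hT (mem_selIn.1 hu).1)).1 (mem_selIn.1 hu).2

theorem card_flags : (q : ℝ) ^ (2 * t) ≤ G.flags.card * q ∧
    (G.flags.card : ℝ) * q ≤ 4 * (q : ℝ) ^ (2 * t) := by
  have h1 : G.flags.card = gs q (t + 1) * gs q t := by
    rw [card_eq_sum_card_fiberwise (f := Prod.snd) (t := univ) fun z _ => mem_coe.2 (mem_univ _),
      ← G.card_pt, ← card_univ, ← smul_eq_mul, ← sum_const]
    refine sum_congr rfl fun b _ => (card_bij (fun z _ => z.1) ?_ ?_ ?_).trans (G.deg b)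
    · exact fun z hz => (mem_filter.1 hz).2 ▸ G.mem_flags.1 (mem_filter.1 hz).1
    · exact fun z hz z' hz' e => Prod.ext e ((mem_filter.1 hz).2.trans (mem_filter.1 hz').2.symm)
    · exact fun a ha => ⟨(a, b), mem_filter.2 ⟨G.mem_flags.2 ha, rfl⟩, rfl⟩
  have h2 : q ^ t ≤ gs q t * q := by
    obtain ⟨s, rfl⟩ : ∃ s, t = s + 1 := ⟨t - 1, by have := G.ht; omega⟩
    rw [pow_succ]
    exact Nat.mul_le_mul_right _ (pow_le_gs q s)
  have h3 := Nat.mul_le_mul (pow_le_gs q t) h2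
  have h4 := Nat.mul_le_mul (gs_succ_le G.two_le t).2 (gs_mul_le G.two_le t)
  rw [← mul_assoc (gs q (t + 1)), ← h1] at h3 h4
  rw [← pow_add, ← two_mul] at h3
  rw [mul_mul_mul_comm, ← pow_add, ← two_mul t] at h4
  exact ⟨by exact_mod_cast h3, by exact_mod_cast h4⟩

/-- the points of the first `i` flags lie on the hyperplane of flag `i - 1`, the next point does
not, so the ranks grow (`rk_lt`); all `t + 1` points lie on the last hyperplane -/
theorem no_tt (f : Fin (t + 1) → Pt × Pt) (hf : ∀ i, f i ∈ G.flags)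
    (h : ∀ i j, i < j → G.arc (f i) (f j)) : False := by
  let B : ℕ → Finset Pt := fun n => sel fun a => ∃ i : Fin (t + 1), i.1 ≤ n ∧ (f i).1 = a
  have h1 : ∀ j : Fin (t + 1), B j.1 ⊆ G.pl (f j).2 := fun j a ha => by
    obtain ⟨i, hi, rfl⟩ := mem_sel.1 ha
    rcases (show i ≤ j from hi).eq_or_lt with rfl | k
    exacts [G.mem_flags.1 (hf i), (h i j k).1]
  have h2 : ∀ n, n ≤ t → n + 1 ≤ G.rk (B n) := fun n => by
    induction n with
    | zero => exact fun _ => G.one_le_rk ⟨_, mem_sel.2 ⟨0, le_rfl, rfl⟩⟩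
    | succ n ih =>
      intro hn
      refine Nat.succ_le_of_lt ((ih (by omega)).trans_lt (G.rk_lt (y := (f ⟨n + 1, by omega⟩).1)
        (fun a ha => ?_) (mem_sel.2 ⟨_, le_rfl, rfl⟩) fun k => ?_))
      · exact mem_sel.2 ((mem_sel.1 ha).imp fun i e => ⟨e.1.trans n.le_succ, e.2⟩)
      · exact (h ⟨n, by omega⟩ ⟨n + 1, by omega⟩ n.lt_succ_self).2
          (G.cl_subset_pl.2 (h1 ⟨n, by omega⟩) k)
  exact absurd ((h2 t le_rfl).trans (G.rk_le_of_subset_pl (h1 (Fin.last t)))) (by omega)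

end GP

end Pool.Agent.Work.MP_e10cd8_co.All
end

-- merged part: Pool.Agent.Work.MP_e10cd8_co.All.GeoB
section
/-! Mixing. Copy the proofs of `Four/Geo` with `q ^ 2` replaced by `q ^ t / q`. -/

namespace Pool.Agent.Work.MP_e10cd8_co.All

open Finset Four

namespace GP

variable {q t : ℕ} {Pt : Type} [Fintype Pt] [DecidableEq Pt] (G : GP q t Pt)

theorem mem_low {x : ℝ} {X : Finset Pt} {b : Pt} :
    b ∈ G.low x X ↔ (G.cnt X b : ℝ) ≤ x * X.card / q := by
  simp [low]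

theorem sum_cnt_comm (X Y : Finset Pt) : ∑ b ∈ Y, G.cnt X b = ∑ a ∈ X, G.cnt Y a := by
  unfold cnt
  have h1 : ∀ (U : Finset Pt) (b : Pt), (G.pl b ∩ U).card =
      ∑ a ∈ U, if a ∈ G.pl b then 1 else 0 := by
    intro U b
    rw [sum_boole, filter_mem_eq_inter, inter_comm]
    rfl
  simp only [h1]
  rw [sum_comm]
  refine sum_congr rfl fun a _ => sum_congr rfl fun b _ => ?_
  simp only [G.symm a b]

theorem GeoB_ite (f : Pt → ℝ) (b : Pt) :
    ∑ x ∈ G.pl b, f x = ∑ x, (if b ∈ G.pl x then 1 else 0) * f x := by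
  simp only [ite_mul, one_mul, zero_mul, G.symm b]
  rw [← sum_filter]
  congr 1
  ext x
  simp

theorem GeoB_lin (f : Pt → ℝ) :
    ∑ b, ∑ x ∈ G.pl b, f x = (gs q t : ℝ) * ∑ x, f x := by
  simp only [G.GeoB_ite f]
  rw [sum_comm, mul_sum]
  refine sum_congr rfl fun x _ => ?_
  rw [← sum_mul, sum_boole, filter_mem_eq_inter, univ_inter, G.deg]

theorem GeoB_sq (f : Pt → ℝ) : ∑ b, (∑ x ∈ G.pl b, f x) ^ 2 =
    ((gs q t : ℝ) - gs q (t - 1)) * ∑ x, f x ^ 2 + (gs q (t - 1) : ℝ) * (∑ x, f x) ^ 2 := by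
  have h1 : ∀ x y : Pt, ∑ b, ((if b ∈ G.pl x then (1 : ℝ) else 0) * f x) *
      ((if b ∈ G.pl y then 1 else 0) * f y) =
      (if x = y then ((gs q t : ℝ) - gs q (t - 1)) * f x ^ 2 else 0) +
        (gs q (t - 1) : ℝ) * (f x * f y) := by
    intro x y
    have h2 : ∀ b, ((if b ∈ G.pl x then (1 : ℝ) else 0) * f x) *
        ((if b ∈ G.pl y then 1 else 0) * f y) =
        (if b ∈ G.pl x ∩ G.pl y then (1 : ℝ) else 0) * (f x * f y) := by
      intro b
      by_cases hx : b ∈ G.pl x <;> by_cases hy : b ∈ G.pl y <;> simp [hx, hy]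
    simp only [h2]
    rw [← sum_mul, sum_boole, filter_mem_eq_inter, univ_inter]
    by_cases e : x = y
    · subst e
      rw [inter_self, G.deg, if_pos rfl]
      ring
    · rw [G.codeg e, if_neg e]
      ring
  simp only [G.GeoB_ite f, sq (∑ x, (if _ ∈ G.pl x then (1 : ℝ) else 0) * f x), sum_mul_sum]
  rw [sum_comm]
  rw [sum_congr rfl fun x _ => sum_comm]
  simp only [h1, sum_add_distrib, sum_ite_eq, mem_univ, if_true]
  rw [sq (∑ x, f x), sum_mul_sum, mul_sum, mul_sum]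
  simp only [mul_sum]

/-- with `c = gs q (t - 1)`: degree `q c + 1`, number of points `q (q c + 1) + 1`, and
`deg - c = q ^ (t - 1)`; the bracket is `-1/q + 1/q^2` -/
theorem mix (f : Pt → ℝ) :
    ∑ b, (∑ x ∈ G.pl b, f x - (∑ x, f x) / q) ^ 2 ≤ (q : ℝ) ^ t / q * ∑ x, f x ^ 2 := by
  have hq : (2 : ℝ) ≤ q := by exact_mod_cast G.two_le
  have hq0 : (0 : ℝ) < q := by linarith
  have h1 := G.GeoB_lin f
  have h2 := G.GeoB_sq f
  have ht := G.ht
  have e1 : gs q t = q * gs q (t - 1) + 1 := by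
    rw [← gs_succ, Nat.sub_add_cancel (by omega)]
  have e2 : gs q t = gs q (t - 1) + q ^ (t - 1) := by
    unfold gs
    rw [← sum_range_succ, Nat.sub_add_cancel (by omega)]
  have e3 : (q : ℝ) ^ t / q = (q : ℝ) ^ (t - 1) := by
    rw [div_eq_iff hq0.ne', ← pow_succ, Nat.sub_add_cancel (by omega)]
  have e4 : (gs q t : ℝ) - gs q (t - 1) = (q : ℝ) ^ (t - 1) := by
    rw [e2]
    push_cast
    ring
  set S := ∑ x, f x with hS
  have h3 : ∑ b, (∑ x ∈ G.pl b, f x - S / q) ^ 2 =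
      ∑ b, (∑ x ∈ G.pl b, f x) ^ 2 - 2 * (S / q) * ∑ b, ∑ x ∈ G.pl b, f x +
        (Fintype.card Pt : ℝ) * (S / q) ^ 2 := by
    rw [mul_sum, ← sum_sub_distrib, ← card_univ, ← nsmul_eq_mul, ← sum_const, ← sum_add_distrib]
    exact sum_congr rfl fun b _ => by ring
  rw [h3, h1, h2, G.card_pt, e3, e4, gs_succ, e1]
  push_cast
  obtain ⟨u, hu⟩ : ∃ u, S = u * q := ⟨S / q, by field_simp⟩
  rw [hu, mul_div_cancel_right₀ u hq0.ne']
  nlinarith [mul_nonneg (sq_nonneg u) (show (0 : ℝ) ≤ q - 1 by linarith)]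

theorem mix_cnt (X : Finset Pt) :
    ∑ b, ((G.cnt X b : ℝ) - X.card / q) ^ 2 ≤ (q : ℝ) ^ t / q * X.card := by
  have h := G.mix fun x => if x ∈ X then 1 else 0
  have h1 : ∀ b, ∑ x ∈ G.pl b, (if x ∈ X then (1 : ℝ) else 0) = G.cnt X b := by
    intro b
    rw [sum_boole, filter_mem_eq_inter]
    rfl
  have h2 : ∑ x, (if x ∈ X then (1 : ℝ) else 0) = X.card := by simp
  have h3 : ∑ x, (if x ∈ X then (1 : ℝ) else 0) ^ 2 = X.card := by simp
  simp only [h1, h2, h3] at h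
  exact h

theorem card_low_le {x : ℝ} (hx : x < 1) (X : Finset Pt) :
    ((G.low x X).card : ℝ) * X.card * (1 - x) ^ 2 ≤ (q : ℝ) ^ (t + 1) := by
  have hq : (2 : ℝ) ≤ q := by exact_mod_cast G.two_le
  have hq0 : (0 : ℝ) < q := by linarith
  have hX0 : (0 : ℝ) ≤ X.card := Nat.cast_nonneg _
  rcases hX0.eq_or_lt with h0 | h0
  · rw [← h0]
    simp only [mul_zero, zero_mul]
    positivity
  have h1 : ∑ b ∈ G.low x X, ((1 - x) * X.card / q) ^ 2 ≤
      ∑ b ∈ G.low x X, ((G.cnt X b : ℝ) - X.card / q) ^ 2 := by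
    refine sum_le_sum fun b hb => ?_
    have hb' := G.mem_low.1 hb
    have h2 : 0 ≤ (1 - x) * X.card / q := by
      have : 0 ≤ 1 - x := by linarith
      positivity
    have h3 : (1 - x) * X.card / q ≤ X.card / q - (G.cnt X b : ℝ) := by
      have : (1 - x) * X.card / q = X.card / q - x * X.card / q := by ring
      linarith
    calc ((1 - x) * X.card / q) ^ 2 ≤ (X.card / q - (G.cnt X b : ℝ)) ^ 2 := by gcongr
      _ = _ := by ring
  have h4 : ∑ b ∈ G.low x X, ((G.cnt X b : ℝ) - X.card / q) ^ 2 ≤ (q : ℝ) ^ t / q * X.card :=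
    le_trans (sum_le_sum_of_subset_of_nonneg (subset_univ _) fun b _ _ => sq_nonneg _)
      (G.mix_cnt X)
  rw [sum_const, nsmul_eq_mul] at h1
  have h5 := h1.trans h4
  have h6 : ((G.low x X).card : ℝ) * ((1 - x) * X.card / q) ^ 2 =
      ((G.low x X).card * X.card * (1 - x) ^ 2) * (X.card / (q : ℝ) ^ 2) := by
    field_simp
  have h7 : (q : ℝ) ^ t / q * X.card = (q : ℝ) ^ (t + 1) * (X.card / (q : ℝ) ^ 2) := by
    rw [pow_succ]
    field_simp
  rw [h6, h7] at h5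
  exact le_of_mul_le_mul_right h5 (by positivity)

theorem low_mono {x x' : ℝ} (h : x ≤ x') (X : Finset Pt) : G.low x X ⊆ G.low x' X := by
  intro b hb
  rw [mem_low] at hb ⊢
  refine hb.trans ?_
  gcongr

theorem low_subset_low {x x' c : ℝ} {P X : Finset Pt} (hX : X ⊆ P) (hx : 0 ≤ x)
    (hc : (P.card : ℝ) ≤ c * X.card) (h : x * c ≤ x') : G.low x P ⊆ G.low x' X := by
  intro b hb
  rw [mem_low] at hb ⊢
  have h1 : (G.cnt X b : ℝ) ≤ G.cnt P b := by
    exact_mod_cast card_le_card (inter_subset_inter_left hX)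
  refine h1.trans (hb.trans ?_)
  have h2 : x * P.card ≤ x' * X.card := by
    calc x * P.card ≤ x * (c * X.card) := mul_le_mul_of_nonneg_left hc hx
      _ = x * c * X.card := by ring
      _ ≤ x' * X.card := mul_le_mul_of_nonneg_right h (Nat.cast_nonneg _)
  gcongr

theorem half_low {x : ℝ} (hx : 0 < x) {P Y : Finset Pt} (hY : Y ⊆ G.low x P) :
    P.card ≤ 2 * (P ∩ G.low (2 * x) Y).card := by
  have hq : (2 : ℝ) ≤ q := by exact_mod_cast G.two_le
  have hq0 : (0 : ℝ) < q := by linarith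
  rcases Y.eq_empty_or_nonempty with rfl | hne
  · have h0 : P ∩ G.low (2 * x) ∅ = P := by
      refine inter_eq_left.2 fun a _ => ?_
      rw [mem_low]
      simp [cnt]
    rw [h0]
    omega
  have hY0 : (0 : ℝ) < Y.card := by exact_mod_cast hne.card_pos
  have h1 : ∑ b ∈ Y, (G.cnt P b : ℝ) ≤ Y.card * (x * P.card / q) := by
    rw [← nsmul_eq_mul, ← sum_const]
    exact sum_le_sum fun b hb => G.mem_low.1 (hY hb)
  have h2 : ∑ b ∈ Y, (G.cnt P b : ℝ) = ∑ a ∈ P, (G.cnt Y a : ℝ) := by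
    exact_mod_cast G.sum_cnt_comm P Y
  have h3 : ((P \ G.low (2 * x) Y).card : ℝ) * (2 * x * Y.card / q) ≤
      ∑ a ∈ P, (G.cnt Y a : ℝ) := by
    rw [← nsmul_eq_mul, ← sum_const]
    refine le_trans (sum_le_sum fun a ha => ?_)
      (sum_le_sum_of_subset_of_nonneg (sdiff_subset (t := G.low (2 * x) Y))
        fun a _ _ => Nat.cast_nonneg _)
    have := (mem_sdiff.1 ha).2
    rw [mem_low, not_le] at this
    exact this.le
  have h4 : (2 * ((P \ G.low (2 * x) Y).card : ℝ)) * (x * Y.card / q) ≤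
      P.card * (x * Y.card / q) := by
    calc (2 * ((P \ G.low (2 * x) Y).card : ℝ)) * (x * Y.card / q)
        = ((P \ G.low (2 * x) Y).card : ℝ) * (2 * x * Y.card / q) := by ring
      _ ≤ Y.card * (x * P.card / q) := by linarith
      _ = _ := by ring
  have h5 := le_of_mul_le_mul_right h4 (by positivity)
  have h6 : 2 * (P \ G.low (2 * x) Y).card ≤ P.card := by exact_mod_cast h5
  have h7 := card_sdiff_add_card_inter P (G.low (2 * x) Y)
  omega

theorem GeoB_pool (X Y : Finset Pt) : (G.pool X Y).card = ∑ b ∈ Y, G.cnt X b := by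
  have hmap : Set.MapsTo (fun z : Pt × Pt => z.2) (G.pool X Y : Set (Pt × Pt)) (Y : Set Pt) := by
    intro z hz
    simp only [pool, mem_coe, mem_sel] at hz
    exact hz.2.2
  rw [card_eq_sum_card_fiberwise hmap]
  refine sum_congr rfl fun b hb => ?_
  unfold cnt
  refine card_bij (fun z _ => z.1) ?_ ?_ ?_
  · intro z hz
    simp only [pool, mem_filter, mem_sel] at hz
    rw [mem_inter, ← hz.2]
    exact ⟨hz.1.1, hz.1.2.1⟩
  · intro z hz z' hz' e
    simp only [mem_filter] at hz hz'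
    exact Prod.ext e (hz.2.trans hz'.2.symm)
  · intro a ha
    rw [mem_inter] at ha
    refine ⟨(a, b), ?_, rfl⟩
    simp only [pool, mem_filter, mem_sel, and_true]
    exact ⟨ha.1, ha.2, hb⟩

theorem GeoB_low {x : ℝ} (hx : x ≤ 1 / 4) (X : Finset Pt) :
    ((G.low x X).card : ℝ) * X.card ≤ 16 / 9 * (q : ℝ) ^ (t + 1) := by
  have h1 := G.card_low_le (x := x) (by linarith) X
  have h2 : (9 / 16 : ℝ) ≤ (1 - x) ^ 2 := by nlinarith
  have h3 := mul_le_mul_of_nonneg_left h2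
    (show (0 : ℝ) ≤ ((G.low x X).card : ℝ) * X.card by positivity)
  linarith

/-- Cauchy-Schwarz from `mix_cnt`: the excess is at most `sqrt (q^t / q * |X| |Y|) ≤ E q^t` -/
theorem card_pool_le (X Y : Finset Pt) {E : ℝ} (hE : 0 ≤ E)
    (h : (X.card : ℝ) * Y.card ≤ E ^ 2 * (q : ℝ) ^ (t + 1)) :
    ((G.pool X Y).card : ℝ) ≤ (E ^ 2 + E) * (q : ℝ) ^ t := by
  have hq : (2 : ℝ) ≤ q := by exact_mod_cast G.two_le
  have hq0 : (0 : ℝ) < q := by linarith
  have h2 : ((G.pool X Y).card : ℝ) =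
      X.card * Y.card / q + ∑ b ∈ Y, ((G.cnt X b : ℝ) - X.card / q) := by
    rw [G.GeoB_pool, sum_sub_distrib, sum_const, nsmul_eq_mul]
    push_cast
    ring
  have h3 : (∑ b ∈ Y, ((G.cnt X b : ℝ) - X.card / q)) ^ 2 ≤
      Y.card * ∑ b ∈ Y, ((G.cnt X b : ℝ) - X.card / q) ^ 2 := sq_sum_le_card_mul_sum_sq
  have h4 : ∑ b ∈ Y, ((G.cnt X b : ℝ) - X.card / q) ^ 2 ≤ (q : ℝ) ^ t / q * X.card :=
    le_trans (sum_le_sum_of_subset_of_nonneg (subset_univ _) fun b _ _ => sq_nonneg _)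
      (G.mix_cnt X)
  have h5 : (∑ b ∈ Y, ((G.cnt X b : ℝ) - X.card / q)) ^ 2 ≤ (E * (q : ℝ) ^ t) ^ 2 := by
    calc _ ≤ (Y.card : ℝ) * ((q : ℝ) ^ t / q * X.card) :=
          h3.trans (mul_le_mul_of_nonneg_left h4 (Nat.cast_nonneg _))
      _ = (q : ℝ) ^ t / q * (X.card * Y.card) := by ring
      _ ≤ (q : ℝ) ^ t / q * (E ^ 2 * (q : ℝ) ^ (t + 1)) :=
          mul_le_mul_of_nonneg_left h (by positivity)
      _ = _ := by
          rw [pow_succ (q : ℝ) t]
          field_simp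
  have h6 := (abs_le_of_sq_le_sq' h5 (by positivity)).2
  have h7 : (X.card : ℝ) * Y.card / q ≤ E ^ 2 * (q : ℝ) ^ t := by
    rw [div_le_iff₀ hq0, mul_assoc, ← pow_succ]
    exact h
  rw [h2, add_mul]
  linarith

/-- each low hyperplane carries at most `x |P| / q` of these flags -/
theorem card_pool_low_le {x : ℝ} (hx0 : 0 ≤ x) (hx : x ≤ 1 / 4) {P X Y : Finset Pt} (hX : X ⊆ P)
    (hY : Y ⊆ G.low x P) : ((G.pool X Y).card : ℝ) ≤ 2 * x * (q : ℝ) ^ t := by
  have hq : (2 : ℝ) ≤ q := by exact_mod_cast G.two_le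
  have hq0 : (0 : ℝ) < q := by linarith
  have h1 : ((G.pool X Y).card : ℝ) ≤ Y.card * (x * P.card / q) := by
    rw [G.GeoB_pool, ← nsmul_eq_mul, ← sum_const]
    push_cast
    refine sum_le_sum fun b hb => le_trans ?_ (G.mem_low.1 (hY hb))
    exact_mod_cast card_le_card (inter_subset_inter_left hX)
  have h2 : (Y.card : ℝ) ≤ (G.low x P).card := by exact_mod_cast card_le_card hY
  have h3 := G.GeoB_low hx P
  calc _ ≤ (Y.card : ℝ) * (x * P.card / q) := h1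
    _ ≤ (G.low x P).card * (x * P.card / q) := mul_le_mul_of_nonneg_right h2 (by positivity)
    _ = x / q * ((G.low x P).card * P.card) := by ring
    _ ≤ x / q * (16 / 9 * (q : ℝ) ^ (t + 1)) := mul_le_mul_of_nonneg_left h3 (by positivity)
    _ = 16 / 9 * (x * (q : ℝ) ^ t) := by
        rw [pow_succ]
        field_simp
    _ ≤ _ := by
        have : 0 ≤ x * (q : ℝ) ^ t := by positivity
        linarith

theorem Ext_mono {x x' Om Om' : ℝ} (hx : x ≤ x') (hO : Om ≤ Om') {P : Finset Pt}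
    (h : G.Ext x P Om) : G.Ext x' P Om' := by
  refine ⟨h.1, h.2.trans ?_⟩
  have hq : (2 : ℝ) ≤ q := by exact_mod_cast G.two_le
  have h1 : ((G.low x P).card : ℝ) ≤ (G.low x' P).card := by
    exact_mod_cast card_le_card (G.low_mono hx P)
  have h2 : 0 ≤ Om := by
    by_contra hn
    have h3 := mul_nonpos_of_nonneg_of_nonpos
      (show (0 : ℝ) ≤ ((G.low x P).card : ℝ) * P.card by positivity) (not_le.1 hn).le
    have h4 : (0 : ℝ) < (q : ℝ) ^ (t + 1) := by positivity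
    have := h.2
    linarith
  gcongr

/-- the product of the two sizes is at most `16/9 q^(t+1)` -/
theorem card_BB_le {x : ℝ} (hx : x ≤ 1 / 4) (P Q : Finset Pt) :
    ((G.BB x P Q).card : ℝ) ≤ 5 * (q : ℝ) ^ t := by
  have hq : (2 : ℝ) ≤ q := by exact_mod_cast G.two_le
  have h1 : ((P ∩ G.low x Q).card : ℝ) ≤ (G.low x Q).card := by
    exact_mod_cast card_le_card inter_subset_right
  have h2 : ((Q ∩ G.low x P).card : ℝ) ≤ Q.card := by
    exact_mod_cast card_le_card inter_subset_left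
  have h3 := G.card_pool_le (P ∩ G.low x Q) (Q ∩ G.low x P) (E := 4 / 3) (by norm_num)
    ((mul_le_mul h1 h2 (by positivity) (by positivity)).trans
      ((G.GeoB_low hx Q).trans (le_of_eq (by norm_num))))
  have h4 : (0 : ℝ) < (q : ℝ) ^ t := by positivity
  unfold BB
  linarith

/-- With `A = P ∩ low x Q`, `B = Q ∩ low x P`, `|A| |B| = r^2 q^(t+1)`, `r ≤ 4/3`: the pool has at
most `3 r q^t` elements, so `1 ≤ 3 E r`. Compare `Exact/Valid`. -/
theorem ext_of_BB {x E : ℝ} (hx : x ≤ 1 / 4) (hE : 1 ≤ E) (P Q : Finset Pt)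
    (h : (q : ℝ) ^ t / E ≤ (G.BB x P Q).card) :
    G.Ext x P (9 * E ^ 2) ∧ G.Ext x Q (9 * E ^ 2) ∧
      (q : ℝ) ^ (t + 1) ≤ 9 * E ^ 2 * (P.card * Q.card) ∧
      (P.card : ℝ) * Q.card ≤ 29 * E ^ 2 * (q : ℝ) ^ (t + 1) ∧
      ((G.pool P Q).card : ℝ) ≤ 35 * E ^ 2 * (q : ℝ) ^ t := by
  have hq : (2 : ℝ) ≤ q := by exact_mod_cast G.two_le
  have hQ : (0 : ℝ) < (q : ℝ) ^ t := by positivity
  have hN : (0 : ℝ) < (q : ℝ) ^ (t + 1) := by positivity
  have hE0 : 0 < E := by linarith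
  have a1 : ((P ∩ G.low x Q).card : ℝ) ≤ (G.low x Q).card := by
    exact_mod_cast card_le_card inter_subset_right
  have a2 : ((Q ∩ G.low x P).card : ℝ) ≤ Q.card := by
    exact_mod_cast card_le_card inter_subset_left
  have a3 : ((P ∩ G.low x Q).card : ℝ) ≤ P.card := by
    exact_mod_cast card_le_card inter_subset_left
  have a4 : ((Q ∩ G.low x P).card : ℝ) ≤ (G.low x P).card := by
    exact_mod_cast card_le_card inter_subset_right
  have key : (q : ℝ) ^ (t + 1) ≤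
      9 * E ^ 2 * (((P ∩ G.low x Q).card : ℝ) * (Q ∩ G.low x P).card) := by
    by_contra hn
    have h1 : ((P ∩ G.low x Q).card : ℝ) * (Q ∩ G.low x P).card ≤
        (1 / (3 * E)) ^ 2 * (q : ℝ) ^ (t + 1) := by
      rw [show (1 / (3 * E)) ^ 2 * (q : ℝ) ^ (t + 1) = (q : ℝ) ^ (t + 1) / (9 * E ^ 2) by
        field_simp; norm_num, le_div_iff₀ (by positivity)]
      linarith [not_le.1 hn]
    have h2 := h.trans (G.card_pool_le _ _ (by positivity) h1)
    have h3 : (1 / (3 * E)) ^ 2 + 1 / (3 * E) < 1 / E := by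
      have e1 : 1 / E ≤ 1 := by rw [div_le_one hE0]; exact hE
      have e2 : 0 < 1 / E := by positivity
      have e3 : 1 / (3 * E) = 1 / E / 3 := by field_simp
      rw [e3]
      nlinarith
    have h4 := mul_lt_mul_of_pos_right h3 hQ
    rw [one_div_mul_eq_div] at h4
    linarith
  have hE2 : (0 : ℝ) ≤ 9 * E ^ 2 := by positivity
  have b1 := mul_le_mul a3 a4 (by positivity) (by positivity)
  have b2 := mul_le_mul a1 a2 (by positivity) (by positivity)
  have b3 := mul_le_mul a3 a2 (by positivity) (by positivity)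
  have c3 := key.trans (mul_le_mul_of_nonneg_left b3 hE2)
  have hP : P.Nonempty := by
    rcases P.eq_empty_or_nonempty with e | e
    · rw [e, card_empty, Nat.cast_zero, zero_mul, mul_zero] at c3
      linarith
    · exact e
  have hQ' : Q.Nonempty := by
    rcases Q.eq_empty_or_nonempty with e | e
    · rw [e, card_empty, Nat.cast_zero, mul_zero, mul_zero] at c3
      linarith
    · exact e
  have c1 := key.trans (mul_le_mul_of_nonneg_left b1 hE2)
  have c2 := key.trans (mul_le_mul_of_nonneg_left b2 hE2)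
  have c4 : (P.card : ℝ) * Q.card ≤ (16 / 3 * E) ^ 2 * (q : ℝ) ^ (t + 1) := by
    have d1 := mul_le_mul (G.GeoB_low hx P) (G.GeoB_low hx Q) (by positivity) (by positivity)
    have d2 := key.trans (mul_le_mul_of_nonneg_left
      (mul_le_mul a1 a4 (by positivity) (by positivity)) hE2)
    refine le_of_mul_le_mul_right ?_ hN
    calc (P.card : ℝ) * Q.card * (q : ℝ) ^ (t + 1)
        ≤ P.card * Q.card * (9 * E ^ 2 * (((G.low x Q).card : ℝ) * (G.low x P).card)) :=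
          mul_le_mul_of_nonneg_left d2 (by positivity)
      _ = 9 * E ^ 2 * ((G.low x P).card * P.card * (((G.low x Q).card : ℝ) * Q.card)) := by ring
      _ ≤ 9 * E ^ 2 * (16 / 9 * (q : ℝ) ^ (t + 1) * (16 / 9 * (q : ℝ) ^ (t + 1))) :=
          mul_le_mul_of_nonneg_left d1 hE2
      _ = _ := by ring
  refine ⟨⟨hP, c1.trans (le_of_eq (by ring))⟩, ⟨hQ', c2.trans (le_of_eq (by ring))⟩, c3,
    c4.trans (mul_le_mul_of_nonneg_right (by nlinarith) hN.le),
    (G.card_pool_le P Q (by positivity) c4).trans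
      (mul_le_mul_of_nonneg_right (by nlinarith) hQ.le)⟩

theorem pool_of_cont {x E Γ : ℝ} (hx : x ≤ 1 / 4) (hE : 1 ≤ E) (hΓ : 1 ≤ Γ) (P Q : Finset Pt)
    (h : (q : ℝ) ^ t / E ≤ (G.BB x P Q).card) {X Y : Finset Pt}
    (hX : G.low x Q ⊆ X) (hX' : (X.card : ℝ) * Q.card ≤ Γ * (q : ℝ) ^ (t + 1))
    (hY : G.low x P ⊆ Y) (hY' : (Y.card : ℝ) * P.card ≤ Γ * (q : ℝ) ^ (t + 1)) :
    G.BB x P Q ⊆ G.pool X Y ∧ ((G.pool X Y).card : ℝ) ≤ 12 * Γ ^ 2 * E ^ 2 * (q : ℝ) ^ t := by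
  have hq : (2 : ℝ) ≤ q := by exact_mod_cast G.two_le
  have hQ : (0 : ℝ) < (q : ℝ) ^ t := by positivity
  have hN : (0 : ℝ) < (q : ℝ) ^ (t + 1) := by positivity
  obtain ⟨-, -, c3, -⟩ := G.ext_of_BB hx hE P Q h
  refine ⟨fun z hz => ?_, ?_⟩
  · unfold BB at hz
    rw [mem_pool] at hz ⊢
    exact ⟨hz.1, hX (mem_inter.1 hz.2.1).2, hY (mem_inter.1 hz.2.2).2⟩
  have h1 : 1 ≤ Γ * E := one_le_mul_of_one_le_of_one_le hΓ hE
  have c4 : (X.card : ℝ) * Y.card ≤ (3 * (Γ * E)) ^ 2 * (q : ℝ) ^ (t + 1) := by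
    have d1 := mul_le_mul hX' hY' (by positivity) (by positivity)
    refine le_of_mul_le_mul_right ?_ hN
    calc (X.card : ℝ) * Y.card * (q : ℝ) ^ (t + 1)
        ≤ X.card * Y.card * (9 * E ^ 2 * ((P.card : ℝ) * Q.card)) :=
          mul_le_mul_of_nonneg_left c3 (by positivity)
      _ = 9 * E ^ 2 * (X.card * Q.card * ((Y.card : ℝ) * P.card)) := by ring
      _ ≤ 9 * E ^ 2 * (Γ * (q : ℝ) ^ (t + 1) * (Γ * (q : ℝ) ^ (t + 1))) :=
          mul_le_mul_of_nonneg_left d1 (by positivity)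
      _ = _ := by ring
  refine (G.card_pool_le X Y (by positivity) c4).trans (mul_le_mul_of_nonneg_right ?_ hQ.le)
  rw [show 12 * Γ ^ 2 * E ^ 2 = 12 * (Γ * E) ^ 2 by ring]
  nlinarith

end GP

end Pool.Agent.Work.MP_e10cd8_co.All
end

-- merged part: Pool.Agent.Work.MP_e10cd8_co.All.Boost
section
/-! Containers inside a known superset. -/

namespace Pool.Agent.Work.MP_e10cd8_co.All

open Finset Four

namespace GP

variable {q t : ℕ} {Pt : Type} [Fintype Pt] [DecidableEq Pt] (G : GP q t Pt)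

include G in
theorem Boost_card : Fintype.card Pt = gs q (t + 1) := by
  have h := G.card_perp' ∅
  rw [G.rk_empty, Nat.sub_zero] at h
  rw [← h, ← card_univ]
  congr 1
  ext z
  simp

include G in
theorem Boost_le : (Fintype.card Pt : ℝ) ≤ 2 * (q : ℝ) ^ t := by
  rw [G.Boost_card]
  exact_mod_cast (gs_succ_le G.two_le t).2

include G in
theorem Boost_succ : Fintype.card Pt + 1 ≤ q ^ (t + 1) := by
  rw [G.Boost_card]
  exact (gs_succ_le G.two_le (t + 1)).1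

theorem Boost_one (hq : 1000 ≤ q) (U : Finset Pt) {Om : ℝ} (hOm : 1 ≤ Om) {K : ℝ}
    (hK : K = ((t + 1 : ℕ) : ℝ) * Real.log q) (n : ℕ) :
    ∃ (θ : ℝ) (F : Finset (Finset Pt)), F.card ≤ Fintype.card Pt + 1 ∧ ∀ X ⊆ U, X.Nonempty →
      X.card = n → (U.card : ℝ) ≤ Om * n → ∃ R ∈ F, (R.card : ℝ) ≤ Om * (240 * q * K) ∧
        ∃ T ⊆ R, (T.card : ℝ) ≤ 240 * q * K ∧
          G.low (1 / 8) X ⊆ (sel fun b => (G.cnt T b : ℝ) ≤ θ) ∧
          (sel fun b => (G.cnt T b : ℝ) ≤ θ) ⊆ G.low (1 / 2) X := by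
  have q1 : (1000 : ℝ) ≤ q := by exact_mod_cast hq
  have q0 : (0 : ℝ) < q := by linarith
  have L0 : 0 < K := by
    rw [hK]
    exact mul_pos (Nat.cast_pos.2 (Nat.succ_pos t)) (Real.log_pos (by linarith))
  have t0 : 0 < q * K := mul_pos q0 L0
  by_cases hn : (n : ℝ) ≤ 24 * q * K
  · refine ⟨1 / 4 * n / q, {U}, by simp, fun X hX _ e h => ⟨U, mem_singleton_self _,
      h.trans (mul_le_mul_of_nonneg_left (by linarith) (by linarith)), X, hX, by rw [e]; linarith,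
      e ▸ G.low_mono (x' := 1 / 4) (by norm_num) X, e ▸ G.low_mono (x := 1 / 4) (by norm_num) X⟩⟩
  have n1 := not_le.1 hn
  have n0 : (0 : ℝ) < n := by linarith
  obtain ⟨η, he⟩ : ∃ η : ℝ, η * n = 24 * q * K := ⟨_, div_mul_cancel₀ _ n0.ne'⟩
  have h0 : 0 < η := (mul_pos_iff_of_pos_right n0).1 (by rw [he]; linarith)
  have h1 : η ≤ 1 := le_of_mul_le_mul_right (by rw [he]; linarith) n0
  obtain ⟨F, f1, -, f3⟩ := cover (Ω := U) h0.le h1 (fun X R => ¬ ((10 * (η * U.card) ≤ (R ∩ U).card ∨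
      10 * (η * n) ≤ (R ∩ X).card) ∨
      ((∃ b ∈ G.low (1 / 8) X, 2 * (3 * K) < ((R ∩ (G.pl b ∩ X)).card : ℝ)) ∨
      ∃ b ∈ (G.low (1 / 2) X)ᶜ, ((R ∩ (G.pl b ∩ X)).card : ℝ) ≤ 2 * (3 * K))) ∧ R ⊆ U)
    (Fintype.card Pt + 1) (U.powersetCard n) ((card_le_card fun X hX => mem_powerset.2
      (mem_powersetCard.1 hX).1).trans_lt (by
        rw [card_powerset]
        exact Nat.pow_lt_pow_right one_lt_two (Nat.lt_succ_of_le (card_le_univ U)))) fun X hX => by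
      obtain ⟨x1, x2⟩ := mem_powersetCard.1 hX
      have u0 : (0 : ℝ) < U.card := n0.trans_le (by exact_mod_cast x2 ▸ card_le_card x1)
      have c : ∀ b, (G.pl b ∩ X ∩ U).card = G.cnt X b := fun b => by
        rw [inter_assoc, inter_eq_left.2 x1, cnt]
      have s : ∀ (I : Finset Pt) (p : Pt → Finset Pt → Prop), (∀ b ∈ I, Pr η U (p b) ≤
          Real.exp (-(3 * K) / 3)) → Pr η U (fun R => ∃ b ∈ I, p b R) ≤ 1 / 10 :=
        fun I p k => by
          refine (Pr_exists h0.le h1 I p).trans ((sum_le_card_nsmul _ _ _ k).trans ?_)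
          have e : -(3 * K) / 3 = -(((t + 1 : ℕ) : ℝ) * Real.log q) := by rw [hK]; ring
          rw [nsmul_eq_mul, e, Real.exp_neg, Real.exp_nat_mul, Real.exp_log q0, ← div_eq_mul_inv,
            div_le_iff₀ (by positivity), pow_succ]
          have : (I.card : ℝ) ≤ 2 * q ^ t := (Nat.cast_le.2 (card_le_univ I)).trans G.Boost_le
          have := mul_le_mul_of_nonneg_left q1 (pow_pos q0 t).le
          have := pow_pos q0 t
          linarith
      have a1 := markov (Ω := U) h0.le h1 (f := fun R => ((R ∩ U).card : ℝ))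
        (fun _ _ => Nat.cast_nonneg _) (t := 10 * (η * U.card)) (by positivity)
      have a2 := markov (Ω := U) h0.le h1 (f := fun R => ((R ∩ X).card : ℝ))
        (fun _ _ => Nat.cast_nonneg _) (t := 10 * (η * n)) (by positivity)
      rw [Ex_card, inter_self, div_mul_cancel_right₀ (by positivity)] at a1
      rw [Ex_card, inter_eq_left.2 x1, x2, div_mul_cancel_right₀ (by positivity)] at a2
      have a3 := s _ _ fun b (hb : b ∈ G.low (1 / 8) X) => thr_up (Ω := U) h0.le h1 (G.pl b ∩ X)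
        (m := 3 * K) (by positivity) (by
          rw [c]
          have := G.mem_low.1 hb
          rw [x2, le_div_iff₀ q0] at this
          have := mul_le_mul_of_nonneg_left this h0.le
          exact le_of_mul_le_mul_right (by linarith) q0)
      have a4 := s _ _ fun b (hb : b ∈ (G.low (1 / 2) X)ᶜ) => thr_down (Ω := U) h0.le h1
        (G.pl b ∩ X) (m := 3 * K) (by positivity) (by
          rw [c]
          have := not_le.1 (G.mem_low.not.1 (mem_compl.1 hb))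
          rw [x2, div_lt_iff₀ q0] at this
          have := mul_le_mul_of_nonneg_left this.le h0.le
          exact le_of_mul_le_mul_right (by linarith) q0)
      refine le_trans ?_ (Pr_mono h0.le h1 fun R hR k => ⟨k, hR⟩)
      rw [Pr_not]
      linarith [(Pr_or h0.le h1 _ _).trans (add_le_add ((Pr_or h0.le h1 _ _).trans
        (add_le_add a1 a2)) ((Pr_or h0.le h1 _ _).trans (add_le_add a3 a4)))]
  refine ⟨2 * (3 * K), F, f1, fun X hX _ e h => ?_⟩
  obtain ⟨R, r1, r2, r3⟩ := f3 X (mem_powersetCard.2 ⟨hX, e⟩)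
  simp only [not_or, not_le, not_exists, not_and, not_lt, inter_eq_left.2 r3] at r2
  obtain ⟨⟨b1, b2⟩, b3, b4⟩ := r2
  have c : ∀ b, G.cnt (R ∩ X) b = (R ∩ (G.pl b ∩ X)).card := fun b => by
    rw [cnt, inter_left_comm]
  have b5 : (R.card : ℝ) ≤ Om * (240 * q * K) := by
    have i1 := mul_le_mul_of_nonneg_left h h0.le
    have i2 : η * (Om * n) = Om * (24 * q * K) := by rw [← he]; ring
    linarith
  refine ⟨R, r1, b5, R ∩ X, inter_subset_left,
    by linarith, fun b hb => mem_sel.2 (c b ▸ b3 b hb), fun b hb => by_contra fun k => ?_⟩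
  rw [mem_sel, c] at hb
  exact (b4 b (mem_compl.2 k)).not_ge hb

theorem Boost_bi {α β : Type} [DecidableEq β] (I : Finset α) (f : α → Finset β) (c d : ℝ)
    (d0 : 0 ≤ d) (k : (I.card : ℝ) ≤ c) (k' : ∀ a ∈ I, ((f a).card : ℝ) ≤ d) :
    ((I.biUnion f).card : ℝ) ≤ c * d := by
  refine (Nat.cast_le.2 card_biUnion_le).trans ?_
  rw [Nat.cast_sum]
  exact (sum_le_card_nsmul _ _ _ k').trans
    ((nsmul_eq_mul _ _).le.trans (mul_le_mul_of_nonneg_right k d0))

/-- Copy `boost` of `Four/Prob3` with `m = 3 (t + 1) L`, `η = 24 (t + 1) L q / n`, samples of size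
at most `240 (t + 1) q L`; failure at most `2 q^t q^(-(t+1))`; `card_pt_succ_le`. -/
theorem boost (hq : 1000 ≤ q) (U : Finset Pt) {Om : ℝ} (hOm : 1 ≤ Om) :
    ∃ F : Finset (Finset Pt),
      (F.card : ℝ) ≤ Real.exp (300 * (t + 1) * q * Real.log q * (1 + Real.log Om)) ∧
      ∀ X ⊆ U, X.Nonempty → (U.card : ℝ) ≤ Om * X.card →
        ∃ Y ∈ F, G.low (1 / 8) X ⊆ Y ∧ (Y.card : ℝ) * X.card ≤ 4 * (q : ℝ) ^ (t + 1) := by
  have q1 : (1000 : ℝ) ≤ q := by exact_mod_cast hq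
  have q0 : (0 : ℝ) < q := by linarith
  obtain ⟨K, hK⟩ : ∃ K : ℝ, K = ((t + 1 : ℕ) : ℝ) * Real.log q := ⟨_, rfl⟩
  have L0 : 0 < K := by
    rw [hK]
    exact mul_pos (Nat.cast_pos.2 (Nat.succ_pos t)) (Real.log_pos (by linarith))
  have O0 := Real.log_nonneg hOm
  choose θ F f1 f2 using G.Boost_one hq U hOm hK
  refine ⟨(range (Fintype.card Pt + 1)).biUnion fun n => (selIn (F n) fun R =>
    (R.card : ℝ) ≤ Om * (240 * q * K)).biUnion fun R => (selIn R.powerset fun T =>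
      (T.card : ℝ) ≤ 240 * q * K).image fun T => sel fun b => (G.cnt T b : ℝ) ≤ θ n, ?_,
    fun X hX hne h => ?_⟩
  · have Q : ((Fintype.card Pt + 1 : ℕ) : ℝ) ≤ Real.exp K := by
      rw [hK, Real.exp_nat_mul, Real.exp_log q0]
      exact_mod_cast G.Boost_succ
    refine (Boost_bi _ _ _ _ (by positivity) ((congrArg _ (card_range _)).trans_le Q) fun n _ =>
      Boost_bi _ _ _ (Real.exp (240 * q * K * (1 + Real.log Om))) (by positivity)
      ((Nat.cast_le.2 ((card_le_card (selIn_subset _ _)).trans (f1 n))).trans Q)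
      fun R hR => (Nat.cast_le.2 card_image_le).trans ?_).trans ?_
    · have := sum_small_le R (p := 1) (x := 1 / Om) (t := 240 * q * K) zero_le_one
        (by positivity) ((div_le_one (by linarith)).2 hOm)
      simp only [one_pow, sum_const, nsmul_eq_mul, mul_one, one_div_one_div] at this
      refine this.trans (Real.exp_le_exp.2 ?_)
      have := (mem_selIn.1 hR).2
      rw [mul_comm, ← div_le_iff₀ (by linarith)] at this
      rw [one_div, mul_comm Om⁻¹, ← div_eq_mul_inv]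
      linarith
    · rw [← Real.exp_add, ← Real.exp_add, Real.exp_le_exp]
      have e : 300 * ((t : ℝ) + 1) * q * Real.log q * (1 + Real.log Om) =
          300 * q * K * (1 + Real.log Om) := by
        rw [hK]
        push_cast
        ring
      have i1 := mul_nonneg (mul_pos q0 L0).le O0
      have i2 := mul_le_mul_of_nonneg_right q1 L0.le
      rw [e]
      linarith
  · obtain ⟨R, r1, r2, T, t1, t2, t3, t4⟩ := f2 _ X hX hne rfl h
    refine ⟨_, mem_biUnion.2 ⟨X.card, mem_range.2 (Nat.lt_succ_of_le (card_le_univ X)),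
      mem_biUnion.2 ⟨R, mem_selIn.2 ⟨r1, r2⟩, mem_image.2
        ⟨T, mem_selIn.2 ⟨mem_powerset.2 t1, t2⟩, rfl⟩⟩⟩, t3, ?_⟩
    have i1 := G.card_low_le (x := 1 / 2) (by norm_num) X
    have i2 := mul_le_mul_of_nonneg_right (Nat.cast_le (α := ℝ).2 (card_le_card t4))
      (Nat.cast_nonneg (α := ℝ) X.card)
    linarith

/-- union of the families of `boost` over `U ∈ F0`, with `X = P ∩ U`; `low_subset_low` -/
theorem cont_of_corr (hq : 1000 ≤ q) (F0 : Finset (Finset Pt)) {A0 c W x : ℝ}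
    (hA : (F0.card : ℝ) ≤ Real.exp A0) (hW : 1 ≤ W) (hx : 0 ≤ x) (hc : x * c ≤ 1 / 8) :
    ∃ F : Finset (Finset Pt),
      (F.card : ℝ) ≤ Real.exp (A0 + 300 * (t + 1) * q * Real.log q * (1 + Real.log W)) ∧
      ∀ P : Finset Pt, P.Nonempty → ∀ U ∈ F0, (P.card : ℝ) ≤ c * (P ∩ U).card →
        (U.card : ℝ) ≤ W * (P ∩ U).card →
        ∃ Y ∈ F, G.low x P ⊆ Y ∧ (Y.card : ℝ) * P.card ≤ 4 * c * (q : ℝ) ^ (t + 1) := by
  choose B b1 b2 using fun U => G.boost hq U hW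
  refine ⟨F0.biUnion B, ?_, fun P hP U hU h1 h2 => ?_⟩
  · rw [Real.exp_add]
    exact Boost_bi _ _ _ _ (Real.exp_pos _).le hA fun U _ => b1 U
  · have p0 : (0 : ℝ) < P.card := Nat.cast_pos.2 hP.card_pos
    have u0 : (0 : ℝ) ≤ (P ∩ U).card := Nat.cast_nonneg _
    have ne : (P ∩ U).Nonempty := by
      rw [← card_pos]
      refine Nat.pos_of_ne_zero fun k => ?_
      rw [k, Nat.cast_zero, mul_zero] at h1
      linarith
    have c0 : 0 ≤ c := by
      by_contra k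
      have := mul_nonpos_of_nonpos_of_nonneg (not_le.1 k).le u0
      linarith
    obtain ⟨Y, y1, y2, y3⟩ := b2 U (P ∩ U) inter_subset_right ne h2
    refine ⟨Y, mem_biUnion.2 ⟨U, hU, y1⟩,
      (G.low_subset_low inter_subset_left hx h1 hc).trans y2, ?_⟩
    have i1 := mul_le_mul_of_nonneg_left h1 (Nat.cast_nonneg (α := ℝ) Y.card)
    have i2 := mul_le_mul_of_nonneg_left y3 c0
    linarith

/-- `low x P` is extremal at level `2 x` by `half_low`; its container holds half of `P` -/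
theorem corr_of_cont {x Om Γ : ℝ} (hx : 0 < x) (hΓ : 0 ≤ Γ) {Dom : Finset Pt → Prop}
    {F : Finset (Finset Pt)} (hF : G.Cont (2 * x) (2 * Om) Γ Dom F) {P : Finset Pt}
    (hP : G.Ext x P Om) (hD : Dom (G.low x P)) :
    ∃ U ∈ F, P.card ≤ 2 * (P ∩ U).card ∧ (U.card : ℝ) ≤ Γ * Om * P.card := by
  obtain ⟨p0, p1⟩ := hP
  have q0 : (0 : ℝ) < q := Nat.cast_pos.2 (lt_of_lt_of_le two_pos G.two_le)
  have qq := pow_pos q0 (t + 1)
  have d0 : (0 : ℝ) ≤ (G.low x P).card := Nat.cast_nonneg _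
  have c0 : (0 : ℝ) ≤ P.card := Nat.cast_nonneg _
  have O0 : 0 ≤ Om := by
    by_contra k
    have := mul_nonpos_of_nonneg_of_nonpos (mul_nonneg d0 c0) (not_le.1 k).le
    linarith
  have ne : (G.low x P).Nonempty := by
    rw [← card_pos]
    refine Nat.pos_of_ne_zero fun k => ?_
    rw [k, Nat.cast_zero, zero_mul, zero_mul] at p1
    linarith
  have d1 : (0 : ℝ) < (G.low x P).card := Nat.cast_pos.2 ne.card_pos
  have hh := G.half_low hx (subset_refl (G.low x P))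
  have h2 : (P.card : ℝ) ≤ 2 * (G.low (2 * x) (G.low x P)).card := by
    exact_mod_cast hh.trans (Nat.mul_le_mul_left 2 (card_le_card inter_subset_right))
  obtain ⟨U, u1, u2, u3⟩ := hF _ hD ⟨ne, by
    have := mul_le_mul_of_nonneg_left h2 (mul_nonneg d0 O0)
    linarith⟩
  refine ⟨U, u1, hh.trans (Nat.mul_le_mul_left 2 (card_le_card
    (inter_subset_inter_left u2))), le_of_mul_le_mul_right ?_ d1⟩
  have := mul_le_mul_of_nonneg_left p1 hΓ
  linarith

theorem Cont_mono {x x' Om Om' Γ Γ' : ℝ} (hx : x ≤ x') (hO : Om ≤ Om') (hΓ : Γ' ≤ Γ)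
    {Dom : Finset Pt → Prop} {F : Finset (Finset Pt)} (h : G.Cont x' Om' Γ' Dom F) :
    G.Cont x Om Γ Dom F := by
  intro P hD hE
  obtain ⟨Y, y1, y2, y3⟩ := h P hD (G.Ext_mono hx hO hE)
  exact ⟨Y, y1, (G.low_mono hx P).trans y2, y3.trans (mul_le_mul_of_nonneg_right hΓ
    (pow_nonneg (Nat.cast_nonneg _) _))⟩

end GP

end Pool.Agent.Work.MP_e10cd8_co.All
end

-- merged part: Pool.Agent.Work.MP_e10cd8_co.All.KPrj
section
/-! Projection from a centre: collisions, good centres, and lifting to a cone. -/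

namespace Pool.Agent.Work.MP_e10cd8_co.All

open Finset Four

variable {q t : ℕ} {Pt Pt' : Type} [Fintype Pt] [DecidableEq Pt] [Fintype Pt'] [DecidableEq Pt']
  {G : GP q (t + 1) Pt} {G' : GP q t Pt'}

theorem Prj.mem_cl {c : Pt} {π : Pt → Pt'} {φ : Pt' → Pt} (h : Prj G G' c π φ) {a a' : Pt}
    (hne : a ≠ a') (ha : a ≠ c) (ha' : a' ≠ c) (he : π a = π a') : c ∈ G.cl {a, a'} := by
  by_contra hn
  have h0 : a' ∈ G.cl {c, a} := by
    refine G.mem_perp.2 fun b hb => ?_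
    have hb' := G.mem_perp.1 hb
    obtain ⟨b', rfl⟩ := h.surj b ((G.symm _ _).1 (hb' (mem_insert_self _ _)))
    exact (G.symm _ _).1 ((h.inc _ ha' b').1 (he ▸ (h.inc _ ha b').2 (hb' (by simp))))
  have h1 : ({c, a, a'} : Finset Pt) ⊆ G.cl {c, a} :=
    insert_subset (G.subset_cl _ (mem_insert_self _ _))
      (insert_subset (G.subset_cl _ (by simp)) (singleton_subset_iff.2 h0))
  have h2 := G.rk_lt (A := {a, a'}) (B := {c, a, a'}) (subset_insert _ _) (mem_insert_self _ _) hn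
  have h3 := G.rk_mono h1
  rw [G.rk_cl, G.rk_two _ _ ha.symm] at h3
  rw [G.rk_two _ _ hne] at h2
  omega

theorem prj_col {π : Pt → Pt → Pt'} {φ : Pt → Pt' → Pt} (hp : ∀ c, Prj G G' c (π c) (φ c))
    (a a' : Pt) (hne : a ≠ a') :
    ((selIn univ fun z => a ≠ z ∧ a' ≠ z ∧ π z a = π z a').card : ℝ) ≤ 2 * q := by
  have h1 : (selIn univ fun z => a ≠ z ∧ a' ≠ z ∧ π z a = π z a') ⊆ G.cl {a, a'} := fun z hz =>
    let k := (mem_selIn.1 hz).2
    (hp z).mem_cl hne k.1 k.2.1 k.2.2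
  have h2 := card_le_card h1
  rw [G.card_cl, G.rk_two _ _ hne] at h2
  have h3 : gs q 2 = 1 + q := by simp [gs, sum_range_succ]
  have h4 := G.two_le
  exact_mod_cast h2.trans (show gs q 2 ≤ 2 * q by omega)

theorem Prj.good {c : Pt} {π : Pt → Pt'} {φ : Pt' → Pt} (h : Prj G G' c π φ) {x Om Γ : ℝ}
    (hx : 0 < x) (hOm : 0 ≤ Om) (hΓ : 0 ≤ Γ) {F' : Finset (Finset Pt')}
    (hF : G'.Cont x (6 * Om) Γ (fun _ => True) F') {P : Finset Pt} (hP : G.Ext (x / 4) P Om)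
    (h1 : c ∉ P) (h2 : c ∉ G.low (1 / 2) (G.low (x / 4) P))
    (h3 : 100 * ((selIn P fun a => ∃ a' ∈ P, a ≠ a' ∧ π a = π a').card : ℝ) ≤ P.card) :
    ∃ X ∈ F', (X.card : ℝ) ≤ 3 * Γ * Om * P.card ∧
      99 * (P.card : ℝ) ≤ 200 * (selIn P fun a => a ≠ c ∧ π a ∈ X).card := by
  have q0 : (0 : ℝ) < q := by
    have := G.two_le
    exact_mod_cast (show 0 < q by omega)
  have p0 : (0 : ℝ) < P.card := Nat.cast_pos.2 hP.1.card_pos
  obtain ⟨P0, hP0⟩ : ∃ P0, P0 = P \ selIn P fun a => ∃ a' ∈ P, a ≠ a' ∧ π a = π a' := ⟨_, rfl⟩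
  have s0 : P0 ⊆ P := hP0 ▸ sdiff_subset
  have ne : ∀ a ∈ P, a ≠ c := fun a ha e => h1 (e ▸ ha)
  have e1 : (P0.image π).card = P0.card := card_image_of_injOn fun a ha a' ha' e => by
    by_contra k
    have := Finset.mem_sdiff.1 (hP0 ▸ mem_coe.1 ha)
    exact this.2 (mem_selIn.2 ⟨this.1, a', s0 (mem_coe.1 ha'), k, e⟩)
  have e2 : 99 * (P.card : ℝ) ≤ 100 * (P0.image π).card := by
    have := card_sdiff_add_card_eq_card (selIn_subset P fun a => ∃ a' ∈ P, a ≠ a' ∧ π a = π a')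
    rw [← hP0] at this
    have k := congrArg (Nat.cast : ℕ → ℝ) this
    rw [Nat.cast_add] at k
    rw [e1]
    linarith
  have e3 : ((P0.image π).card : ℝ) ≤ P.card :=
    Nat.cast_le.2 (card_image_le.trans (card_le_card s0))
  have e4 : G.pl c ∩ G.low (x / 4) P ⊆ (G'.low (x / 2) (P0.image π)).image φ := by
    intro b hb
    obtain ⟨b', rfl⟩ := h.surj b (mem_inter.1 hb).1
    refine mem_image_of_mem _ (G'.mem_low.2 ?_)
    have k1 : G'.pl b' ∩ P0.image π ⊆ (G.pl (φ b') ∩ P).image π := by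
      intro u hu
      obtain ⟨a, ha, rfl⟩ := mem_image.1 (mem_inter.1 hu).2
      exact mem_image_of_mem _
        (mem_inter.2 ⟨(h.inc a (ne a (s0 ha)) b').1 (mem_inter.1 hu).1, s0 ha⟩)
    have k2 : (G'.cnt (P0.image π) b' : ℝ) ≤ G.cnt P (φ b') :=
      Nat.cast_le.2 ((card_le_card k1).trans card_image_le)
    refine (k2.trans (G.mem_low.1 (mem_inter.1 hb).2)).trans (div_le_div_of_nonneg_right ?_ q0.le)
    nlinarith
  have e5 : ((G.low (x / 4) P).card : ℝ) ≤ 2 * q * (G'.low (x / 2) (P0.image π)).card := by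
    have k1 : (G.cnt (G.low (x / 4) P) c : ℝ) ≤ (G'.low (x / 2) (P0.image π)).card :=
      Nat.cast_le.2 ((card_le_card e4).trans card_image_le)
    have k2 := (lt_of_not_ge fun k => h2 (G.mem_low.2 k)).le.trans k1
    rw [div_le_iff₀ q0] at k2
    linarith
  have e6 : G'.Ext (x / 2) (P0.image π) (3 * Om) := by
    refine ⟨card_pos.1 (Nat.cast_pos.1 (show (0 : ℝ) < _ by linarith)), ?_⟩
    refine le_of_mul_le_mul_left ?_ q0
    have k1 := hP.2
    have l0 : (0 : ℝ) ≤ (G'.low (x / 2) (P0.image π)).card := Nat.cast_nonneg _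
    have k2 := mul_le_mul_of_nonneg_right e5 (mul_nonneg p0.le hOm)
    have k3 := mul_le_mul_of_nonneg_left e2 (mul_nonneg (mul_nonneg q0.le l0) hOm)
    have k4 := mul_nonneg (mul_nonneg (mul_nonneg q0.le l0) hOm) p0.le
    rw [pow_succ] at k1
    nlinarith
  obtain ⟨X, hX, a1, a2⟩ := G'.corr_of_cont (x := x / 2) (Om := 3 * Om) (by positivity) hΓ
    (Dom := fun _ => True) (F := F') (by convert hF using 1 <;> ring) e6 trivial
  refine ⟨X, hX, a2.trans ?_, ?_⟩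
  · nlinarith [mul_le_mul_of_nonneg_left e3 (mul_nonneg hΓ hOm)]
  · have k1 : P0.image π ∩ X ⊆ (selIn P fun a => a ≠ c ∧ π a ∈ X).image π := by
      intro u hu
      obtain ⟨a, ha, rfl⟩ := mem_image.1 (mem_inter.1 hu).1
      exact mem_image_of_mem _ (mem_selIn.2 ⟨s0 ha, ne a (s0 ha), (mem_inter.1 hu).2⟩)
    have k2 := a1.trans (Nat.mul_le_mul_left 2 ((card_le_card k1).trans card_image_le))
    have k3 : ((P0.image π).card : ℝ) ≤ 2 * (selIn P fun a => a ≠ c ∧ π a ∈ X).card := by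
      exact_mod_cast k2
    linarith

theorem Prj.card_cone {c : Pt} {π : Pt → Pt'} {φ : Pt' → Pt} (h : Prj G G' c π φ)
    (R : Finset Pt') : (sel fun a => a ≠ c ∧ π a ∈ R).card = q * R.card := by
  rw [card_eq_sum_card_fiberwise (f := π) (t := R) fun a ha => (mem_sel.1 (mem_coe.1 ha)).2,
    mul_comm, ← smul_eq_mul, ← sum_const]
  refine sum_congr rfl fun y hy => (congrArg card ?_).trans (h.fib y)
  ext a
  simp only [mem_filter, mem_sel]
  exact ⟨fun k => ⟨k.1.1, k.2⟩, fun k => ⟨⟨k.1, k.2 ▸ hy⟩, k.2⟩⟩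

/-- containers pass to the lower dimension -/
theorem Prj.kl_down {c : Pt} {π : Pt → Pt'} {φ : Pt' → Pt} (h : Prj G G' c π φ) {x A Γ : ℝ}
    (hK : G.KLp x A Γ) : G'.KLp x A Γ := by
  have q0 : (0 : ℝ) < q := by
    have := G.two_le
    exact_mod_cast (show 0 < q by omega)
  intro Om hOm
  obtain ⟨F, a1, a2⟩ := hK Om hOm
  refine ⟨F.image fun Y => sel fun b' => φ b' ∈ Y, (Nat.cast_le.2 card_image_le).trans a1,
    fun P _ hP => ?_⟩
  have p0 : (0 : ℝ) < P.card := Nat.cast_pos.2 hP.1.card_pos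
  obtain ⟨C, hC⟩ : ∃ C, C = sel fun a => a ≠ c ∧ π a ∈ P := ⟨_, rfl⟩
  have e1 : (C.card : ℝ) = q * P.card := by rw [hC, h.card_cone, Nat.cast_mul]
  have e2 : ∀ b' ∈ G'.low x P, φ b' ∈ G.low x C := by
    intro b' hb
    have k1 : G.pl (φ b') ∩ C = sel fun a => a ≠ c ∧ π a ∈ G'.pl b' ∩ P := by
      ext a
      simp only [hC, mem_inter, mem_sel]
      exact ⟨fun k => ⟨k.2.1, (h.inc a k.2.1 b').2 k.1, k.2.2⟩,
        fun k => ⟨(h.inc a k.1 b').1 k.2.1, k.1, k.2.2⟩⟩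
    have k2 : (G.cnt C (φ b') : ℝ) = q * G'.cnt P b' := by
      unfold GP.cnt
      rw [k1, h.card_cone, Nat.cast_mul]
    rw [G.mem_low, k2, e1]
    exact (mul_le_mul_of_nonneg_left (G'.mem_low.1 hb) q0.le).trans (le_of_eq (by ring))
  have e3 : ∀ (B : Finset Pt') (Y : Finset Pt), (∀ b' ∈ B, φ b' ∈ Y) → (B.card : ℝ) ≤ Y.card :=
    fun B Y k => Nat.cast_le.2 (card_le_card_of_injOn φ k h.inj.injOn)
  obtain ⟨Y, hY, b1, b2⟩ := a2 C trivial
    ⟨card_pos.1 (Nat.cast_pos.1 (show (0 : ℝ) < _ by rw [e1]; positivity)), by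
      have k1 := mul_le_mul_of_nonneg_left hP.2 q0.le
      have k2 := mul_le_mul_of_nonneg_right (e3 _ _ e2)
        (show 0 ≤ q * P.card * Om by positivity)
      rw [e1, pow_succ]
      nlinarith⟩
  refine ⟨_, mem_image_of_mem _ hY, fun b' hb => mem_sel.2 (b1 (e2 b' hb)), ?_⟩
  refine le_of_mul_le_mul_left ?_ q0
  have k1 := mul_le_mul_of_nonneg_right
    (e3 (sel fun b' => φ b' ∈ Y) Y fun b' k => (mem_sel (p := fun b' => φ b' ∈ Y)).1 k)
    (show 0 ≤ q * (P.card : ℝ) by positivity)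
  rw [e1, pow_succ] at b2
  nlinarith

end Pool.Agent.Work.MP_e10cd8_co.All
end

-- merged part: Pool.Agent.Work.MP_e10cd8_co.Four.Corr
section
/-! CORR: a small family of sets one of which correlates with each extremal set (paper 5). -/

namespace Pool.Agent.Work.MP_e10cd8_co.Four
namespace PG
open Finset

variable {q : ℕ} {Pt : Type} [Fintype Pt] [DecidableEq Pt] (G : PG q Pt)

theorem Corr_pow {w : ℝ} {c : ℕ} (hp : Par q w c) {N k : ℕ} (hN : N ≤ q ^ k)
    (hk : k ≤ 64 * ((c + 4) * q)) : (N : ℝ) ≤ Real.exp (2 ^ 30 * q * Real.log q * Real.log w) := by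
  have hq := hp.q_pos
  have h1 : (N : ℝ) ≤ Real.exp (k * Real.log q) := by
    rw [Real.exp_nat_mul, Real.exp_log hq]
    exact_mod_cast hN
  refine h1.trans (Real.exp_le_exp.2 ?_)
  have h2 : (k : ℝ) ≤ 64 * ((c + 4) * q) := by exact_mod_cast hk
  have h3 : 64 * ((c : ℝ) + 4) ≤ 2 ^ 30 * Real.log w := by linarith [hp.hc2, hp.twenty_le_log]
  have h4 := mul_le_mul_of_nonneg_right h3 hq.le
  have h5 : (k : ℝ) ≤ 2 ^ 30 * Real.log w * q := by linarith
  have h6 := mul_le_mul_of_nonneg_right h5 (zero_le_one.trans hp.one_le_L)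
  linarith

theorem Corr_E {w : ℝ} {c : ℕ} (hp : Par q w c) : 1 ≤ q * Real.log q * Real.log w := by
  have h1 : (1000 : ℝ) ≤ q := by exact_mod_cast hp.thousand_le_q
  exact one_le_mul_of_one_le_of_one_le
    (one_le_mul_of_one_le_of_one_le (by linarith) hp.one_le_L) (by linarith [hp.twenty_le_log])

theorem Corr_c {w : ℝ} {c : ℕ} (hp : Par q w c) : c + 4 ≤ q := by
  have h : (c : ℝ) + 4 ≤ q := hp.c_le.trans ((le_self_pow₀ hp.one_le_w (by norm_num)).trans hp.hq)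
  exact_mod_cast h

theorem Corr_Q (G : PG q Pt) (hq : 1000 ≤ q) : Fintype.card Pt + 1 ≤ q ^ 4 := by
  have h : Fintype.card Pt ≤ 2 * q ^ 3 := by exact_mod_cast G.card_pt_le
  have h1 : 1 ≤ q ^ 3 := Nat.one_le_pow _ _ (by omega)
  have h2 : 1000 * q ^ 3 ≤ q * q ^ 3 := Nat.mul_le_mul_right _ hq
  have h3 : q ^ 4 = q * q ^ 3 := by ring
  omega

theorem Corr_sq (hq : 1000 ≤ q) : 2 * q ^ 2 + 1 ≤ q ^ 3 := by
  have h1 : 1 ≤ q ^ 2 := Nat.one_le_pow _ _ (by omega)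
  have h2 : 1000 * q ^ 2 ≤ q * q ^ 2 := Nat.mul_le_mul_right _ hq
  have h3 : q ^ 3 = q * q ^ 2 := by ring
  omega

theorem Corr_small {ι : Type} [DecidableEq ι] (Ω : Finset ι) {a b i j : ℕ} (t : ℕ)
    (h : Ω.card = a * b) (ha : a ≤ q ^ i) (hb : b + 1 ≤ q ^ j) (hq : 0 < q) :
    (selIn Ω.powerset fun T => T.card ≤ t).card ≤ q ^ ((i + j) * t) := by
  refine (card_small_le Ω t).trans ?_
  rw [pow_mul]
  refine Nat.pow_le_pow_left ?_ t
  have h1 : 1 ≤ q ^ i := Nat.one_le_pow _ _ hq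
  calc Ω.card + 1 ≤ q ^ i * b + q ^ i := by
        rw [h]
        exact Nat.add_le_add (Nat.mul_le_mul_right _ ha) h1
    _ = q ^ i * (b + 1) := by ring
    _ ≤ q ^ i * q ^ j := Nat.mul_le_mul_left _ hb
    _ = _ := by ring

theorem Corr_T (G : PG q Pt) {w : ℝ} {c : ℕ} (hp : Par q w c) :
    (selIn (range (c + 4) ×ˢ (univ : Finset Pt)).powerset
      fun T => T.card ≤ 10 * (c + 4) * q).card ≤ q ^ (50 * ((c + 4) * q)) := by
  have hq := hp.thousand_le_q
  refine (Corr_small (q := q) (i := 1) (j := 4) _ _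
    (by rw [card_product, card_range, card_univ]) (by rw [pow_one]; exact Corr_c hp)
    (G.Corr_Q hq) (by omega)).trans (le_of_eq ?_)
  congr 1
  ring

/-- the value table read from a set of pairs -/
def Corr_nu (n : ℕ) (D : Finset (Pt × ℕ)) (a : Pt) : ℕ :=
  if D.image Prod.fst ∩ G.pl a = ∅ then n / q else (D.filter fun z => z.1 ∈ G.pl a).sup Prod.snd

theorem Corr_dec (c : ℕ) (β : ℝ) (P H : Finset Pt) (v : ℕ) (T : Finset (ℕ × Pt)) :
    G.dec c β (G.Corr_nu P.card (H.image fun π => (π, (P \ G.pl π).card / q))) H v T =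
      G.dec c β (G.nuT P H) H v T := by
  have e : (H.image fun π => (π, (P \ G.pl π).card / q)).image Prod.fst = H := by
    rw [image_image]
    exact image_id
  ext a
  simp only [dec, mem_sel]
  refine and_congr_right fun ha => ?_
  have h : G.Corr_nu P.card (H.image fun π => (π, (P \ G.pl π).card / q)) a = G.nuT P H a := by
    unfold Corr_nu nuT
    rw [e]
    rcases G.th_cases ha with ⟨h, h'⟩ | ⟨π, h, h'⟩
    · rw [if_pos h, h', sdiff_empty]
    · have hπ : π ∈ H ∩ G.pl a := h ▸ mem_singleton_self π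
      rw [if_neg (h ▸ singleton_ne_empty π), h']
      refine le_antisymm (Finset.sup_le fun z hz => ?_) ?_
      · obtain ⟨h1, h2⟩ := mem_filter.1 hz
        obtain ⟨π', h3, rfl⟩ := mem_image.1 h1
        have h4 : π' = π := mem_singleton.1 (h ▸ mem_inter.2 ⟨h3, h2⟩)
        rw [h4]
      · exact le_sup (f := Prod.snd) (b := (π, (P \ G.pl π).card / q))
          (mem_filter.2 ⟨mem_image_of_mem _ (mem_inter.1 hπ).1, (mem_inter.1 hπ).2⟩)
  rw [h]

/-- The family of all outputs of the main decoder. Parameters: `n, v ≤ 2 q^2`, a set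
`D ⊆ univ ×ˢ range (q^2+1)` of at most `q` pairs (plane, value), and `T ⊆ range (c+4) ×ˢ univ` of
size at most `10 (c+4) q` (`card_small_le`). From `D` read `H = D.image fst` and
`ν a = n / q` if no plane of `H` contains `a`, otherwise the supremum of the values of the pairs
whose plane contains `a`; for `D = H.image fun π => (π, |P \ pl π| / q)` this agrees with `nuT` at
single points (`th_cases`), so the decoded sets agree. -/
theorem fam_main {w : ℝ} {c : ℕ} (hp : Par q w c) :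
    ∃ F : Finset (Finset Pt), (F.card : ℝ) ≤ Real.exp (2 ^ 31 * q * Real.log q * Real.log w) ∧
      ∀ P H : Finset Pt, P.card ≤ q ^ 2 → H.card ≤ q → ∀ T ⊆ range (c + 4) ×ˢ P,
        T.card ≤ 10 * (c + 4) * q → ∀ v ≤ 2 * q ^ 2,
          G.dec c (1 - eta q P) (G.nuT P H) H v T ∈ F := by
  have hq := hp.thousand_le_q
  have hE := Corr_E hp
  refine ⟨(range (q ^ 2 + 1) ×ˢ range (2 * q ^ 2 + 1) ×ˢ
    (selIn ((univ : Finset Pt) ×ˢ range (q ^ 2 + 1)).powerset fun D => D.card ≤ q) ×ˢ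
    selIn (range (c + 4) ×ˢ (univ : Finset Pt)).powerset fun T => T.card ≤ 10 * (c + 4) * q).image
    fun x => G.dec c (1 - (q : ℝ) / x.1) (G.Corr_nu x.1 x.2.2.1) (x.2.2.1.image Prod.fst)
      x.2.1 x.2.2.2, ?_, fun P H hP hH T hT hT' v hv => ?_⟩
  · refine (Corr_pow hp (k := 3 + (3 + ((4 + 3) * q + 50 * ((c + 4) * q))))
      (card_image_le.trans ?_) ?_).trans (Real.exp_le_exp.2 (by linarith))
    · have h1 := Corr_sq hq
      have h2 := G.Corr_Q hq
      rw [card_product, card_product, card_product, card_range, card_range, pow_add, pow_add,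
        pow_add]
      refine Nat.mul_le_mul (by omega) (Nat.mul_le_mul h1 (Nat.mul_le_mul ?_ (G.Corr_T hp)))
      have h3 : 1 ≤ q ^ 2 := Nat.one_le_pow _ _ (by omega)
      exact Corr_small _ _ (by rw [card_product, card_range, card_univ]) (by omega) (by omega)
        (by omega)
    · have h1 : 4 * q ≤ (c + 4) * q := Nat.mul_le_mul_right _ (by omega)
      omega
  · refine mem_image.2 ⟨(P.card, v, H.image fun π => (π, (P \ G.pl π).card / q), T), ?_, ?_⟩
    · simp only [mem_product, mem_range, mem_selIn, mem_powerset]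
      refine ⟨by omega, by omega, ⟨fun z hz => ?_, card_image_le.trans hH⟩,
        hT.trans (product_subset_product_right (subset_univ _)), hT'⟩
      obtain ⟨π, -, rfl⟩ := mem_image.1 hz
      refine mem_product.2 ⟨mem_univ _, mem_range.2 (Nat.lt_succ_of_le ?_)⟩
      exact (Nat.div_le_self _ _).trans ((card_le_card sdiff_subset).trans hP)
    · have e : (H.image fun π => (π, (P \ G.pl π).card / q)).image Prod.fst = H := by
        rw [image_image]
        exact image_id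
      dsimp only
      rw [e]
      exact G.Corr_dec c _ P H v T

/-- The planar case: parameters `π`, `y ≤ Q`, `v`, `T`, then `boost` for `U = decP`, `Om = w^3`,
`X = Y ∩ U`. Half of `P ∩ pl π` is in `low (1/2^25) X` (`half_low`), and
`|X| ≥ |Y| / 2 ≥ q^4 / (2 n w)`. -/
theorem fam_planar {w : ℝ} {c : ℕ} (hp : Par q w c) :
    ∃ F : Finset (Finset Pt), (F.card : ℝ) ≤ Real.exp (2 ^ 31 * q * Real.log q * Real.log w) ∧
      ∀ P : Finset Pt, P.card ≤ q ^ 2 → G.Ext (1 / 2 ^ 27) P w → ∀ π, P.card < 2 * G.cnt P π →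
        8 * w ^ 2 ≤ sig q P → sig q P ^ 2 * w ^ 20 < q →
          ∃ U ∈ F, P.card ≤ 4 * (P ∩ U).card ∧ (U.card : ℝ) ≤ 8 * w * P.card := by
  have hq := hp.thousand_le_q
  have hE := Corr_E hp
  have hw0 := hp.w_pos
  have hw : (1300 : ℝ) ≤ w := le_trans (by norm_num) hp.hw
  choose Fb hFb hFb' using fun U : Finset Pt =>
    G.boost hq U (Om := w ^ 3) (one_le_pow₀ hp.one_le_w)
  refine ⟨((univ : Finset Pt) ×ˢ range (Fintype.card Pt + 1) ×ˢ range (2 * q + 1) ×ˢ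
    selIn (range (c + 4) ×ˢ (univ : Finset Pt)).powerset
      fun T => T.card ≤ 10 * (c + 4) * q).biUnion
    fun x => Fb (G.decP c x.1 x.2.1 x.2.2.1 x.2.2.2), ?_, fun P hP hX π hπ h1 h2 => ?_⟩
  · refine (Nat.cast_le.2 card_biUnion_le).trans ?_
    rw [Nat.cast_sum]
    refine (sum_le_card_nsmul _ _ (Real.exp (2 ^ 30 * q * Real.log q * Real.log w))
      fun x _ => (hFb _).trans (Real.exp_le_exp.2 ?_)).trans ?_
    · have a1 : 1300 * (1 + Real.log (w ^ 3)) ≤ 2 ^ 30 * Real.log w := by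
        rw [Real.log_pow]
        push_cast
        linarith [hp.twenty_le_log]
      have a2 := mul_le_mul_of_nonneg_right a1
        (mul_nonneg hp.q_pos.le (zero_le_one.trans hp.one_le_L))
      linarith
    · rw [nsmul_eq_mul]
      refine (mul_le_mul_of_nonneg_right (Corr_pow hp (k := 4 + (4 + (3 + 50 * ((c + 4) * q))))
        ?_ ?_) (Real.exp_pos _).le).trans ?_
      · have a1 := Corr_sq hq
        have a2 := G.Corr_Q hq
        have a3 : q ≤ q ^ 2 := Nat.le_self_pow (by norm_num) q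
        rw [card_product, card_product, card_product, card_range, card_range, card_univ, pow_add,
          pow_add, pow_add]
        exact Nat.mul_le_mul (by omega)
          (Nat.mul_le_mul a2 (Nat.mul_le_mul (by omega) (G.Corr_T hp)))
      · have a1 : 4 * q ≤ (c + 4) * q := Nat.mul_le_mul_right _ (by omega)
        omega
      · rw [← Real.exp_add]
        exact Real.exp_le_exp.2 (by linarith)
  · obtain ⟨Y, hY⟩ : ∃ Y, Y = G.low (1 / 2 ^ 26) (P ∩ G.pl π) := ⟨_, rfl⟩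
    obtain ⟨T, hT, hT', v, hv, a1, a2⟩ := G.planar_rec hp hP hX hπ h1 h2 hY
    have a3 : P.card ≤ 2 * (P ∩ G.pl π).card := by
      rw [inter_comm]
      exact hπ.le
    have a4 : G.low (1 / 2 ^ 27) P ⊆ Y := hY ▸ G.low_subset_low (t := 2) inter_subset_left
      (by norm_num) (by exact_mod_cast a3) (by norm_num)
    have hn0 : (0 : ℝ) ≤ P.card := Nat.cast_nonneg _
    have a5 : (q : ℝ) ^ 4 ≤ Y.card * P.card * w := hX.2.trans (mul_le_mul_of_nonneg_right
      (mul_le_mul_of_nonneg_right (Nat.cast_le.2 (card_le_card a4)) hn0) hw0.le)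
    have a6 : (0 : ℝ) < Y.card := by
      refine (Nat.cast_nonneg _ : (0 : ℝ) ≤ Y.card).lt_of_ne fun k => ?_
      rw [← k, zero_mul, zero_mul] at a5
      exact a5.not_gt (pow_pos hp.q_pos 4)
    have a7 : (Y.card : ℝ) ≤ 2 * (Y ∩ G.decP c π Y.card v T).card := by exact_mod_cast a1
    obtain ⟨U, hU, b1, b2⟩ := hFb' (G.decP c π Y.card v T) (Y ∩ G.decP c π Y.card v T)
      inter_subset_right (card_pos.1 (Nat.cast_pos.1 (by linarith : (0 : ℝ) < _))) (by
        have c1 := mul_le_mul_of_nonneg_left a7 (show 0 ≤ 650 * w ^ 2 by positivity)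
        have c2 := mul_le_mul_of_nonneg_right hw
          (show 0 ≤ w ^ 2 * (Y ∩ G.decP c π Y.card v T).card by positivity)
        linarith)
    refine ⟨U, mem_biUnion.2 ⟨(π, Y.card, v, T), ?_, hU⟩, ?_, ?_⟩
    · simp only [mem_product, mem_range, mem_selIn, mem_powerset, mem_univ, true_and]
      exact ⟨Nat.lt_succ_of_le (card_le_univ _), by omega,
        hT.trans (product_subset_product_right (subset_univ _)), hT'⟩
    · have c1 := G.half_low (x := 1 / 2 ^ 26) (by norm_num) (P := P ∩ G.pl π)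
        (Y := Y ∩ G.decP c π Y.card v T) (hY ▸ inter_subset_left)
      have c2 := card_le_card (inter_subset_inter (inter_subset_left (s₁ := P) (s₂ := G.pl π))
        ((G.low_mono (show 2 * (1 / 2 ^ 26 : ℝ) ≤ 1 / 8 by norm_num) _).trans b1))
      omega
    · refine le_of_mul_le_mul_right ?_ a6
      have c1 := mul_le_mul_of_nonneg_left a7 (Nat.cast_nonneg U.card : (0 : ℝ) ≤ _)
      linarith

/-- If `q < w^100` take `{univ}`. Otherwise `c = ⌈2^23 log w⌉₊` gives `Par q w c`; the family is the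
union of: all sets of at most `4 (c+4) q` points, all planes `pl π` (planar case with
`σ < 8 w^2`), `fam_planar`, and `fam_main` (with `heavy_ok`, `main_rec`). -/
theorem corr (hq : 1000 ≤ q) {w : ℝ} (hw : (2 : ℝ) ^ 30 ≤ w) (hL : Real.log q ≤ w) :
    ∃ F : Finset (Finset Pt), (F.card : ℝ) ≤ Real.exp (2 ^ 32 * q * Real.log q * Real.log w) ∧
      ∀ P : Finset Pt, P.card ≤ q ^ 2 → G.Ext (1 / 2 ^ 27) P w →
        ∃ U ∈ F, P.card ≤ 4 * (P ∩ U).card ∧ (U.card : ℝ) ≤ w ^ 400 * P.card := by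
  have hw1 : 1 ≤ w := le_trans (by norm_num) hw
  have hw30 : 30 ≤ w := le_trans (by norm_num) hw
  have hw0 : 0 ≤ w := zero_le_one.trans hw1
  have hle : ∀ (x : ℝ) (k : ℕ), x ≤ 30 → k < 400 → x * w ^ k ≤ w ^ 400 := fun x k hx hk =>
    calc x * w ^ k ≤ w * w ^ k := mul_le_mul_of_nonneg_right (hx.trans hw30) (pow_nonneg hw0 _)
      _ = w ^ (k + 1) := by ring
      _ ≤ _ := pow_le_pow_right₀ hw1 hk
  rcases lt_or_ge (q : ℝ) (w ^ 100) with h | h
  · refine ⟨{univ}, ?_, fun P _ hX => ⟨univ, mem_singleton_self _, ?_, ?_⟩⟩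
    · rw [card_singleton, Nat.cast_one]
      have a1 := Real.log_natCast_nonneg q
      have a2 := Real.log_nonneg hw1
      exact Real.one_le_exp (by positivity)
    · rw [inter_univ]
      omega
    · have a1 : (1 : ℝ) ≤ P.card := by exact_mod_cast hX.1.card_pos
      have a2 : (q : ℝ) ^ 3 ≤ (w ^ 100) ^ 3 := pow_le_pow_left₀ (Nat.cast_nonneg _) h.le 3
      rw [← pow_mul] at a2
      have a3 := hle 2 (100 * 3) (by norm_num) (by norm_num)
      refine G.card_pt_le.trans (le_trans ?_ (le_mul_of_one_le_right (pow_nonneg hw0 _) a1))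
      linarith
  obtain ⟨c, hp⟩ : ∃ c, Par q w c := ⟨⌈2 ^ 23 * Real.log w⌉₊, hw, hL, Nat.le_ceil _,
    (Nat.ceil_lt_add_one (mul_nonneg (by norm_num) (Real.log_nonneg hw1))).le, h⟩
  obtain ⟨F3, h3, h3'⟩ := G.fam_planar hp
  obtain ⟨F4, h4, h4'⟩ := G.fam_main hp
  have hE := Corr_E hp
  have hQ := G.Corr_Q hq
  have hc : 4 * q ≤ (c + 4) * q := Nat.mul_le_mul_right _ (by omega)
  refine ⟨((selIn (univ : Finset Pt).powerset fun T => T.card ≤ 4 * (c + 4) * q) ∪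
    univ.image G.pl) ∪ (F3 ∪ F4), ?_, fun P hP hX => ?_⟩
  · have a1 := Corr_pow hp (Corr_small (q := q) (a := 1) (i := 0) (j := 4) (univ : Finset Pt)
      (4 * (c + 4) * q) (by rw [one_mul, card_univ]) (by simp) hQ (by omega))
      (by rw [mul_assoc]; omega)
    have a2 := Corr_pow hp (N := (univ.image G.pl).card) (k := 4)
      ((card_le_univ _ : (univ : Finset Pt).card ≤ _).trans' card_image_le |>.trans (by omega))
      (by omega)
    have a3 : Real.exp (2 ^ 30 * q * Real.log q * Real.log w) ≤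
        Real.exp (2 ^ 31 * q * Real.log q * Real.log w) := Real.exp_le_exp.2 (by linarith)
    have a4 : 4 ≤ Real.exp (2 ^ 31 * q * Real.log q * Real.log w) :=
      le_trans (by linarith) (Real.add_one_le_exp _)
    have a5 : Real.exp (2 ^ 32 * q * Real.log q * Real.log w) =
        Real.exp (2 ^ 31 * q * Real.log q * Real.log w) *
          Real.exp (2 ^ 31 * q * Real.log q * Real.log w) := by
      rw [← Real.exp_add]
      congr 1
      ring
    refine (Nat.cast_le.2 ((card_union_le _ _).trans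
      (Nat.add_le_add (card_union_le _ _) (card_union_le _ _)))).trans ?_
    push_cast
    rw [a5]
    have a6 := mul_le_mul_of_nonneg_right a4 (Real.exp_pos
      (2 ^ 31 * q * Real.log q * Real.log w)).le
    linarith
  have hn0 : (0 : ℝ) ≤ P.card := Nat.cast_nonneg _
  rcases lt_or_ge P.card (4 * (c + 4) * q) with hn | hn
  · refine ⟨P, mem_union_left _ (mem_union_left _
      (mem_selIn.2 ⟨mem_powerset.2 (subset_univ _), hn.le⟩)), ?_,
      le_mul_of_one_le_left hn0 (one_le_pow₀ hw1)⟩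
    rw [inter_self]
    omega
  by_cases hh : (q : ℝ) ≤ sig q P ^ 2 * w ^ 20 ∨ ∀ b, 2 * G.cnt P b ≤ P.card
  · obtain ⟨H, hH, hH'⟩ := G.heavy_ok hp hn hP hh
    obtain ⟨T, hT, hT', v, hv, a1, a2⟩ := G.main_rec hp hn hP hX hH'
    exact ⟨_, mem_union_right _ (mem_union_right _ (h4' P H hP hH T hT hT' v hv)), by omega,
      a2.trans (mul_le_mul_of_nonneg_right (hle 30 22 le_rfl (by norm_num)) hn0)⟩
  obtain ⟨h1, h2⟩ := not_or.1 hh
  obtain ⟨π, hπ⟩ := not_forall.1 h2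
  rcases le_or_gt (8 * w ^ 2) (sig q P) with hσ | hσ
  · obtain ⟨U, hU, a1, a2⟩ := h3' P hP hX π (not_le.1 hπ) hσ (not_le.1 h1)
    have a3 := hle 8 1 (by norm_num) (by norm_num)
    rw [pow_one] at a3
    exact ⟨U, mem_union_right _ (mem_union_left _ hU), a1,
      a2.trans (mul_le_mul_of_nonneg_right a3 hn0)⟩
  · refine ⟨G.pl π, mem_union_left _ (mem_union_right _ (mem_image_of_mem _ (mem_univ _))), ?_,
      (G.card_pl_le π).trans ?_⟩
    · unfold cnt at hπ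
      rw [inter_comm]
      omega
    · rw [← sig_mul_card (q := q) hX.1]
      have a1 := mul_le_mul_of_nonneg_right hσ.le hn0
      have a2 := mul_le_mul_of_nonneg_right (hle 16 2 (by norm_num) (by norm_num)) hn0
      linarith

end PG
end Pool.Agent.Work.MP_e10cd8_co.Four
end

-- merged part: Pool.Agent.Work.MP_e10cd8_co.All.ANum
section
/-! Numerical consequences of the side conditions. Compare `Exact/XNum`. -/

namespace Pool.Agent.Work.MP_e10cd8_co.All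

open Finset Four

theorem ap_nonneg (q t H k : ℕ) : 0 ≤ ap q t H k := by
  unfold ap
  positivity

namespace NP
variable {q t H D k : ℕ}

theorem H_ge (h : NP q t H D k) : (10 : ℝ) ^ 6 * (t + 1) ^ 4 ≤ H := by
  exact_mod_cast h.hH

theorem H_ge' (h : NP q t H D k) : (10 : ℝ) ^ 7 ≤ H := by
  have h1 := h.H_ge
  have h2 : (3 : ℝ) ≤ (t : ℝ) + 1 := by
    have : (2 : ℝ) ≤ t := by exact_mod_cast h.ht
    linarith
  have h3 : (3 : ℝ) ^ 4 ≤ ((t : ℝ) + 1) ^ 4 := pow_le_pow_left₀ (by norm_num) h2 4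
  linarith

theorem q_ge (h : NP q t H D k) : (1000 : ℝ) ≤ q := by
  exact_mod_cast h.hq

theorem ANum_H1 (h : NP q t H D k) : (1 : ℝ) ≤ H := le_trans (by norm_num) h.H_ge'

theorem ANum_H0 (h : NP q t H D k) : (0 : ℝ) < H := lt_of_lt_of_le one_pos h.ANum_H1

theorem ANum_q0 (h : NP q t H D k) : (0 : ℝ) < q := lt_of_lt_of_le (by norm_num) h.q_ge

theorem ANum_tH (h : NP q t H D k) : 1000 * ((t : ℝ) + 1) ≤ H := by
  have h1 := h.H_ge
  have h2 : (1 : ℝ) ≤ (t : ℝ) + 1 := le_add_of_nonneg_left (Nat.cast_nonneg t)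
  have h3 : (t : ℝ) + 1 ≤ ((t : ℝ) + 1) ^ 4 := le_self_pow₀ h2 (by norm_num)
  linarith

theorem ANum_L3 (h : NP q t H D k) : 3 ≤ Real.log q := by
  have h1 := h.q_ge
  rw [Real.le_log_iff_exp_le h.ANum_q0]
  have e : Real.exp 3 = Real.exp 1 ^ 3 := by rw [← Real.exp_nat_mul]; norm_num
  have e1 : Real.exp 1 ≤ 3 := Real.exp_one_lt_d9.le.trans (by norm_num)
  have e2 : Real.exp 1 ^ 3 ≤ 3 ^ 3 := pow_le_pow_left₀ (Real.exp_pos 1).le e1 3
  rw [e]
  linarith

theorem ell_ge (h : NP q t H D k) : 1 ≤ Real.log (Real.log q) := by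
  have h1 := h.ANum_L3
  rw [Real.le_log_iff_exp_le (by linarith)]
  have := Real.exp_one_lt_d9
  linarith

theorem D_ge (h : NP q t H D k) : 1000 * (H : ℝ) ^ 3 ≤ D := by
  have h1 := h.ell_ge
  have h2 := h.hD2
  have h3 : (0 : ℝ) ≤ 1000 * (H : ℝ) ^ 3 := by positivity
  exact (le_mul_of_one_le_right h3 h1).trans h2

theorem L_ge (h : NP q t H D k) : 10 ^ 6 * (H : ℝ) ^ 6 ≤ Real.log q := by
  have h1 := pow_le_pow_left₀ (by positivity) h.D_ge 2
  calc 10 ^ 6 * (H : ℝ) ^ 6 = (1000 * (H : ℝ) ^ 3) ^ 2 := by ring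
    _ ≤ _ := h1.trans h.hD1

theorem k_pos (h : NP q t H D k) : (0 : ℝ) < k := by
  have h1 := h.ANum_H0
  have h2 := h.ANum_q0
  have h3 : 0 < Real.log q := lt_of_lt_of_le (by norm_num) h.ANum_L3
  exact lt_of_lt_of_le (by positivity) h.hk1

theorem k_le (h : NP q t H D k) : (k : ℝ) ≤ q * Real.log q ^ 2 := by
  have h1 := h.L_ge
  have h2 := h.ANum_q0
  have h3 : 0 < Real.log q := lt_of_lt_of_le (by norm_num) h.ANum_L3
  have h4 : (0 : ℝ) ≤ (H : ℝ) ^ 6 := by positivity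
  have h5 : 5 * (H : ℝ) ^ 6 ≤ Real.log q := by linarith
  calc (k : ℝ) ≤ 5 * (H : ℝ) ^ 6 * q * Real.log q := h.hk2
    _ ≤ Real.log q * q * Real.log q := by gcongr
    _ = q * Real.log q ^ 2 := by ring

theorem ANum_qL (h : NP q t H D k) : q * Real.log q ≤ k := by
  have h1 : (1 : ℝ) ≤ (H : ℝ) ^ 6 := one_le_pow₀ h.ANum_H1
  have h2 := h.ANum_q0
  have h3 : 0 < Real.log q := lt_of_lt_of_le (by norm_num) h.ANum_L3
  calc q * Real.log q = 1 * q * Real.log q := by ring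
    _ ≤ (H : ℝ) ^ 6 * q * Real.log q := by gcongr
    _ ≤ (k : ℝ) := h.hk1

theorem ANum_at0 (h : NP q t H D k) : at0 q H ≤ k / H ^ 2 := by
  have h1 := h.ANum_H0
  rw [le_div_iff₀ (by positivity)]
  calc at0 q H * (H : ℝ) ^ 2 = (H : ℝ) ^ 6 * q * Real.log q := by unfold at0; ring
    _ ≤ (k : ℝ) := h.hk1

theorem q_le_k (h : NP q t H D k) : q ≤ k := by
  have h1 := h.ANum_qL
  have h2 := h.ANum_L3
  have h3 := h.ANum_q0
  have h4 : (q : ℝ) ≤ q * Real.log q := le_mul_of_one_le_right h3.le (by linarith)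
  exact_mod_cast h4.trans h1

theorem one_le_div (h : NP q t H D k) : 1000 ≤ (k : ℝ) / H ^ 2 := by
  refine le_trans ?_ h.ANum_at0
  have h1 : (1 : ℝ) ≤ (H : ℝ) ^ 4 := one_le_pow₀ h.ANum_H1
  have h2 := h.q_ge
  have h3 : 1 ≤ Real.log q := le_trans (by norm_num) h.ANum_L3
  calc (1000 : ℝ) = 1 * 1000 * 1 := by norm_num
    _ ≤ (H : ℝ) ^ 4 * q * Real.log q := by gcongr

theorem at0_le (h : NP q t H D k) : at0 q H ≤ k / H ^ 2 := by
  exact h.ANum_at0

theorem le_at0 (h : NP q t H D k) : (k : ℝ) ≤ 5 * H ^ 2 * at0 q H := by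
  calc (k : ℝ) ≤ 5 * (H : ℝ) ^ 6 * q * Real.log q := h.hk2
    _ = 5 * H ^ 2 * at0 q H := by unfold at0; ring

theorem ap_le_one (h : NP q t H D k) : ap q t H k ≤ 1 := by
  have h1 : (1 : ℝ) ≤ (H : ℝ) ^ 10 := one_le_pow₀ h.ANum_H1
  have q1 : (1 : ℝ) ≤ q := le_trans (by norm_num) h.q_ge
  have L1 : 1 ≤ Real.log q := le_trans (by norm_num) h.ANum_L3
  have h2 : Real.log q ^ 2 ≤ q := (pow_le_pow_right₀ L1 (by norm_num)).trans h.hbig
  have h3 : (q : ℝ) ^ 2 ≤ (q : ℝ) ^ t := pow_le_pow_right₀ q1 h.ht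
  refine div_le_one_of_le₀ ?_ (by positivity)
  calc (k : ℝ) ≤ q * Real.log q ^ 2 := h.k_le
    _ ≤ q * q := by gcongr
    _ = 1 * (q : ℝ) ^ 2 := by ring
    _ ≤ (H : ℝ) ^ 10 * (q : ℝ) ^ t := by gcongr

theorem aw_ge (h : NP q t H D k) : (k : ℝ) / H ≤ aw H k := by
  have h0 : 0 < H := by exact_mod_cast h.ANum_H0
  have h1 : k ≤ aw H k * H := by
    have := Nat.lt_div_mul_add (a := k) h0
    unfold aw
    rw [add_mul, one_mul]
    exact this.le
  rw [div_le_iff₀ h.ANum_H0]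
  exact_mod_cast h1

theorem ANum_kH (h : NP q t H D k) : (k : ℝ) / H = H * (k / H ^ 2) := by
  have h1 := h.ANum_H0.ne'
  field_simp

theorem aw_le (h : NP q t H D k) : (aw H k : ℝ) ≤ 2 * k / H := by
  have h0 := Nat.cast_div_le (α := ℝ) (m := k) (n := H)
  have h1 := h.ANum_kH
  have h2 := h.one_le_div
  have h3 := h.H_ge'
  have h4 : (k : ℝ) / H ^ 2 ≤ k / H := by nlinarith
  unfold aw
  rw [Nat.cast_add, Nat.cast_one, mul_div_assoc]
  linarith

theorem aw_add_le (h : NP q t H D k) : (aw H k : ℝ) + 3 * at0 q H ≤ 3 * k / H := by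
  have h0 := h.aw_le
  have h1 := h.ANum_kH
  have h2 := h.one_le_div
  have h3 := h.H_ge'
  have h4 : 3 * ((k : ℝ) / H ^ 2) ≤ k / H := by nlinarith
  have h5 := h.at0_le
  rw [mul_div_assoc] at h0 ⊢
  linarith

theorem ad_ge (h : NP q t H D k) : (k : ℝ) / (H ^ 3 * q) ≤ ad q H k := by
  have h0 : 0 < H ^ 3 * q :=
    Nat.mul_pos (pow_pos (by exact_mod_cast h.ANum_H0) 3) (by exact_mod_cast h.ANum_q0)
  have h1 : k ≤ ad q H k * (H ^ 3 * q) := by
    have := Nat.lt_div_mul_add (a := k) h0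
    unfold ad
    rw [add_mul, one_mul]
    exact this.le
  have h2 := h.ANum_H0
  have h3 := h.ANum_q0
  rw [div_le_iff₀ (by positivity)]
  exact_mod_cast h1

theorem ANum_quot (h : NP q t H D k) : (H : ℝ) ^ 3 * Real.log q ≤ (k : ℝ) / (H ^ 3 * q) := by
  have h2 := h.ANum_H0
  have h3 := h.ANum_q0
  rw [le_div_iff₀ (by positivity)]
  calc (H : ℝ) ^ 3 * Real.log q * (H ^ 3 * q) = (H : ℝ) ^ 6 * q * Real.log q := by ring
    _ ≤ (k : ℝ) := h.hk1

theorem ad_le (h : NP q t H D k) : (ad q H k : ℝ) ≤ 2 * k / (H ^ 3 * q) := by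
  have h0 := Nat.cast_div_le (α := ℝ) (m := k) (n := H ^ 3 * q)
  have h1 := h.ANum_quot
  have h2 : (1 : ℝ) ≤ (H : ℝ) ^ 3 := one_le_pow₀ h.ANum_H1
  have L1 : 1 ≤ Real.log q := le_trans (by norm_num) h.ANum_L3
  have h3 : 1 ≤ (H : ℝ) ^ 3 * Real.log q := one_le_mul_of_one_le_of_one_le h2 L1
  unfold ad
  rw [Nat.cast_mul, Nat.cast_pow] at h0
  rw [Nat.cast_add, Nat.cast_one, mul_div_assoc]
  linarith

theorem am0_le (h : NP q t H D k) : am0 q t ≤ ad q H k := by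
  have h1 := h.ANum_tH
  have h2 : (H : ℝ) ≤ (H : ℝ) ^ 3 := le_self_pow₀ h.ANum_H1 (by norm_num)
  have h3 : (0 : ℝ) ≤ t := Nat.cast_nonneg t
  have L0 : 0 ≤ Real.log q := le_trans (by norm_num) h.ANum_L3
  have h4 : 3 * ((t : ℝ) + 1) ≤ (H : ℝ) ^ 3 := by linarith
  exact (mul_le_mul_of_nonneg_right h4 L0).trans (h.ANum_quot.trans h.ad_ge)

theorem am2_bounds (h : NP q t H D k) : 15 ≤ am2 q ∧ am2 q ≤ D := by
  have h1 := h.ell_ge
  have h2 : (1 : ℝ) ≤ (H : ℝ) ^ 3 := one_le_pow₀ h.ANum_H1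
  have h3 : (78 : ℝ) ≤ 1000 * (H : ℝ) ^ 3 := by linarith
  unfold am2
  exact ⟨by linarith, (mul_le_mul_of_nonneg_right h3 (by linarith)).trans h.hD2⟩

theorem ANum_D1 (h : NP q t H D k) : (1 : ℝ) ≤ D := by
  have h1 := h.D_ge
  have h2 : (1 : ℝ) ≤ (H : ℝ) ^ 3 := one_le_pow₀ h.ANum_H1
  linarith

theorem D_le_k (h : NP q t H D k) : 16 * D ≤ k := by
  have h1 := h.ANum_D1
  have h2 : (D : ℝ) ≤ Real.log q := (le_self_pow₀ h1 (by norm_num)).trans h.hD1
  have h3 := h.q_ge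
  have h4 : 16 * (D : ℝ) ≤ q * Real.log q :=
    mul_le_mul (by linarith) h2 (by linarith) (by linarith)
  exact_mod_cast h4.trans h.ANum_qL

/-- room for the fine samples -/
theorem fine_le (h : NP q t H D k) : 16 * (t + 1) * (k : ℝ) ≤ D * at0 q H := by
  have h1 := h.ANum_tH
  have h2 := h.ANum_H0
  have h3 : (0 : ℝ) ≤ t := Nat.cast_nonneg t
  have h4 : 80 * ((t : ℝ) + 1) ≤ 1000 * H := by linarith
  have h5 : 0 ≤ at0 q H := by
    have L0 : 0 ≤ Real.log q := le_trans (by norm_num) h.ANum_L3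
    unfold at0
    positivity
  calc 16 * (t + 1) * (k : ℝ) ≤ 16 * (t + 1) * (5 * H ^ 2 * at0 q H) :=
        mul_le_mul_of_nonneg_left h.le_at0 (by positivity)
    _ = 80 * ((t : ℝ) + 1) * (H ^ 2 * at0 q H) := by ring
    _ ≤ 1000 * H * (H ^ 2 * at0 q H) := mul_le_mul_of_nonneg_right h4 (by positivity)
    _ = 1000 * (H : ℝ) ^ 3 * at0 q H := by ring
    _ ≤ D * at0 q H := mul_le_mul_of_nonneg_right h.D_ge h5

theorem pow_le_exp_aJ (h : NP q t H D k) : (q : ℝ) ^ t ≤ Real.exp (aJ q t) := by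
  rw [← Real.exp_log (pow_pos h.ANum_q0 t), Real.log_pow, Real.exp_le_exp]
  have := Nat.lt_floor_add_one (t * Real.log q)
  unfold aJ
  rw [Nat.cast_add, Nat.cast_one]
  exact this.le

theorem aJ_le (h : NP q t H D k) : aJ q t + 1 ≤ q := by
  have h1 := h.ANum_tH
  have h2 : (H : ℝ) ≤ (H : ℝ) ^ 6 := le_self_pow₀ h.ANum_H1 (by norm_num)
  have h3 := h.L_ge
  have h4 : (0 : ℝ) ≤ t := Nat.cast_nonneg t
  have L3 := h.ANum_L3
  have h5 : (t : ℝ) + 1 ≤ Real.log q := by linarith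
  have h6 := Nat.floor_le (show 0 ≤ t * Real.log q by positivity)
  have h7 : Real.log q ^ 2 ≤ q := (pow_le_pow_right₀ (by linarith) (by norm_num)).trans h.hbig
  have h8 : ((t : ℝ) + 1) * Real.log q ≤ Real.log q * Real.log q :=
    mul_le_mul_of_nonneg_right h5 (by linarith)
  have h9 : ((aJ q t + 1 : ℕ) : ℝ) ≤ q := by
    unfold aJ
    rw [Nat.cast_add, Nat.cast_add, Nat.cast_one]
    linarith
  exact_mod_cast h9

/-- `x ≥ q / k ≥ L^(-2)`, `exp (2 j) ≤ L^8`, `29 ≤ L` -/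
theorem ax_sq_ge (h : NP q t H D k) (s j : ℕ) (hj : (j : ℝ) ≤ 4 * Real.log (Real.log q)) :
    Real.exp (-am2 q / 6) * (29 * Real.exp j ^ 2) ≤ ax q H k s ^ 2 := by
  have L3 := h.ANum_L3
  have L0 : 0 < Real.log q := by linarith
  have k0 := h.k_pos
  have q0 := h.ANum_q0
  have eL : Real.exp (Real.log (Real.log q)) = Real.log q := Real.exp_log L0
  have L29 : 29 ≤ Real.log q := by
    have h1 := h.L_ge
    have h2 : (1 : ℝ) ≤ (H : ℝ) ^ 6 := one_le_pow₀ h.ANum_H1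
    linarith
  have e1 : Real.exp (-am2 q / 6) = 1 / Real.log q ^ 13 := by
    rw [← eL, ← Real.exp_nat_mul, one_div, ← Real.exp_neg]
    unfold am2
    congr 1
    push_cast
    ring
  have e2 : Real.exp j ≤ Real.log q ^ 4 := by
    rw [← eL, ← Real.exp_nat_mul, Real.exp_le_exp]
    exact_mod_cast hj
  have e3 : 1 / Real.log q ^ 2 ≤ ax q H k s := by
    have s1 : (1 : ℝ) ≤ (s : ℝ) + 1 := le_add_of_nonneg_left (Nat.cast_nonneg s)
    have s2 : (1 : ℝ) ≤ (H : ℝ) * (s + 1) := one_le_mul_of_one_le_of_one_le h.ANum_H1 s1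
    unfold ax
    rw [div_le_div_iff₀ (by positivity) k0, one_mul]
    calc (k : ℝ) ≤ q * Real.log q ^ 2 := h.k_le
      _ = 1 * q * Real.log q ^ 2 := by ring
      _ ≤ _ := by gcongr
  calc Real.exp (-am2 q / 6) * (29 * Real.exp j ^ 2)
      ≤ 1 / Real.log q ^ 13 * (Real.log q * (Real.log q ^ 4) ^ 2) := by
        rw [e1]
        gcongr
    _ = (1 / Real.log q ^ 2) ^ 2 := by field_simp
    _ ≤ ax q H k s ^ 2 := pow_le_pow_left₀ (by positivity) e3 2

theorem ANum_E (h : NP q t H D k) :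
    Real.exp (-(Real.log (Real.log q) / 2)) ^ 2 * Real.log q = 1 := by
  have L0 : 0 < Real.log q := lt_of_lt_of_le (by norm_num) h.ANum_L3
  have e : Real.exp (-(Real.log (Real.log q) / 2)) ^ 2 = (Real.log q)⁻¹ := by
    rw [← Real.exp_nat_mul]
    have : ((2 : ℕ) : ℝ) * -(Real.log (Real.log q) / 2) = -Real.log (Real.log q) := by
      push_cast
      ring
    rw [this, Real.exp_neg, Real.exp_log L0]
  rw [e, inv_mul_cancel₀ L0.ne']

/-- `2 x ≤ 34 H D q / k`, `D ≤ sqrt L = exp (ℓ / 2)` -/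
theorem ax_small (h : NP q t H D k) :
    2 * ax q H k (16 * D) ≤ Real.exp (-(Real.log (Real.log q) / 2)) ∧
      ax q H k (16 * D) ≤ 1 / 4 := by
  have L3 := h.ANum_L3
  have L0 : 0 < Real.log q := by linarith
  have k0 := h.k_pos
  have q0 := h.ANum_q0
  have D1 := h.ANum_D1
  have H0 := h.ANum_H0
  have hE := h.ANum_E
  have E0 := Real.exp_pos (-(Real.log (Real.log q) / 2))
  generalize Real.exp (-(Real.log (Real.log q) / 2)) = E at hE E0 ⊢
  have h1 : 34 ≤ (H : ℝ) ^ 5 := le_trans (le_trans (by norm_num) h.H_ge')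
    (le_self_pow₀ h.ANum_H1 (by norm_num))
  have h2 : 2 * ax q H k (16 * D) * Real.log q ≤ D := by
    have a1 : ((16 * D : ℕ) : ℝ) + 1 ≤ 17 * D := by push_cast; linarith
    unfold ax
    rw [← mul_div_assoc, div_mul_eq_mul_div, div_le_iff₀ k0]
    calc 2 * ((H : ℝ) * (((16 * D : ℕ) : ℝ) + 1) * q) * Real.log q
        ≤ 2 * ((H : ℝ) * (17 * D) * q) * Real.log q := by gcongr
      _ = D * (34 * (H * q * Real.log q)) := by ring
      _ ≤ D * ((H : ℝ) ^ 5 * (H * q * Real.log q)) := by gcongr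
      _ = D * ((H : ℝ) ^ 6 * q * Real.log q) := by ring
      _ ≤ D * k := mul_le_mul_of_nonneg_left h.hk1 (by linarith)
  have h3 : D * E ≤ 1 := by
    refine le_of_pow_le_pow_left₀ (n := 2) (by norm_num) zero_le_one ?_
    calc (D * E) ^ 2 = E ^ 2 * (D : ℝ) ^ 2 := by ring
      _ ≤ E ^ 2 * Real.log q := mul_le_mul_of_nonneg_left h.hD1 (by positivity)
      _ = 1 ^ 2 := by rw [hE, one_pow]
  have h4 : 2 * ax q H k (16 * D) ≤ E := by
    calc 2 * ax q H k (16 * D) = 2 * ax q H k (16 * D) * (E ^ 2 * Real.log q) := by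
          rw [hE, mul_one]
      _ = 2 * ax q H k (16 * D) * Real.log q * E * E := by ring
      _ ≤ D * E * E := by gcongr
      _ ≤ 1 * E := mul_le_mul_of_nonneg_right h3 E0.le
      _ = E := one_mul E
  have h5 : 2 * E ≤ 1 := by
    have a1 : (1 : ℝ) ≤ (H : ℝ) ^ 3 := one_le_pow₀ h.ANum_H1
    have a2 := h.D_ge
    have a3 : (2 : ℝ) ≤ D := by linarith
    exact (mul_le_mul_of_nonneg_right a3 E0.le).trans h3
  exact ⟨h4, by linarith⟩

theorem tiny_le (h : NP q t H D k) :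
    16 * (k : ℝ) ≤ Real.exp (-(Real.log (Real.log q) / 2)) * (q : ℝ) ^ 2 := by
  have L3 := h.ANum_L3
  have L0 : 0 < Real.log q := by linarith
  have q0 := h.ANum_q0
  have hE := h.ANum_E
  have E0 := Real.exp_pos (-(Real.log (Real.log q) / 2))
  have E1 : Real.exp (-(Real.log (Real.log q) / 2)) ≤ 1 := by
    have := h.ell_ge
    exact Real.exp_le_one_iff.2 (by linarith)
  generalize Real.exp (-(Real.log (Real.log q) / 2)) = E at hE E0 E1 ⊢
  have h1 := h.L_ge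
  have h2 : (0 : ℝ) ≤ (H : ℝ) ^ 6 := by positivity
  have h3 : 80 * (H : ℝ) ^ 6 ≤ Real.log q := by linarith
  have h4 : Real.log q ^ 3 ≤ q := (pow_le_pow_right₀ (by linarith) (by norm_num)).trans h.hbig
  have h5 : E ^ 2 ≤ E := pow_le_of_le_one E0.le E1 (by norm_num)
  calc 16 * (k : ℝ) ≤ 16 * (5 * (H : ℝ) ^ 6 * q * Real.log q) :=
        mul_le_mul_of_nonneg_left h.hk2 (by norm_num)
    _ = 80 * (H : ℝ) ^ 6 * (q * Real.log q) := by ring
    _ ≤ Real.log q * (q * Real.log q) := mul_le_mul_of_nonneg_right h3 (by positivity)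
    _ = Real.log q * (q * Real.log q) * (E ^ 2 * Real.log q) := by rw [hE, mul_one]
    _ = E ^ 2 * (q * Real.log q ^ 3) := by ring
    _ ≤ E * (q * q) := by gcongr
    _ = E * (q : ℝ) ^ 2 := by ring

/-- `choose_mul_pow_le`, `e / H^6 ≤ exp (-10)` -/
theorem pool_factor (h : NP q t H D k) {B : ℕ} {y : ℝ} (hy : 0 ≤ y)
    (hB : (B : ℝ) ≤ (H : ℝ) ^ 3 * Real.exp (-y) * (q : ℝ) ^ t) :
    (B.choose (aw H k) : ℝ) * ap q t H k ^ aw H k ≤ Real.exp (-((10 + y) * k / H)) := by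
  have q0 := h.ANum_q0
  have H0 := h.ANum_H0
  have w1 : 1 ≤ aw H k := by unfold aw; exact Nat.le_add_left 1 _
  have w0 : (0 : ℝ) < aw H k := by exact_mod_cast w1
  have p0 := ap_nonneg q t H k
  have e1 : Real.exp 1 ≤ 3 := Real.exp_one_lt_d9.le.trans (by norm_num)
  have e2 : Real.exp 10 ≤ 3 ^ 10 := by
    have e : Real.exp 10 = Real.exp 1 ^ 10 := by rw [← Real.exp_nat_mul]; norm_num
    rw [e]
    exact pow_le_pow_left₀ (Real.exp_pos 1).le e1 10
  have H6 : (10 : ℝ) ^ 7 ≤ (H : ℝ) ^ 6 := h.H_ge'.trans (le_self_pow₀ h.ANum_H1 (by norm_num))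
  have e3 : 3 / (H : ℝ) ^ 6 ≤ Real.exp (-10) := by
    rw [Real.exp_neg, ← one_div, div_le_div_iff₀ (by positivity) (Real.exp_pos _)]
    linarith
  have e4 : 3 / (H : ℝ) ^ 6 * Real.exp (-y) ≤ Real.exp (-(10 + y)) := by
    rw [neg_add, Real.exp_add]
    exact mul_le_mul_of_nonneg_right e3 (Real.exp_pos _).le
  have key : Real.exp 1 * B * ap q t H k / aw H k ≤ Real.exp (-(10 + y)) := by
    rw [div_le_iff₀ w0]
    calc Real.exp 1 * B * ap q t H k
        ≤ 3 * ((H : ℝ) ^ 3 * Real.exp (-y) * (q : ℝ) ^ t) * ap q t H k := by gcongr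
      _ = 3 / (H : ℝ) ^ 6 * Real.exp (-y) * (k / H) := by unfold ap; field_simp
      _ ≤ _ := mul_le_mul e4 h.aw_ge (by positivity) (Real.exp_pos _).le
  refine (choose_mul_pow_le B _ w1 p0).trans ((pow_le_pow_left₀ (by positivity) key _).trans ?_)
  rw [← Real.exp_nat_mul, Real.exp_le_exp, mul_div_assoc, mul_neg, neg_le_neg_iff, mul_comm]
  exact mul_le_mul_of_nonneg_right h.aw_ge (by linarith)

end NP

end Pool.Agent.Work.MP_e10cd8_co.All
end

-- merged part: Pool.Agent.Work.MP_e10cd8_co.All.Rnd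
section
/-! Two rounds (paper 4). -/

namespace Pool.Agent.Work.MP_e10cd8_co.All

open Finset Four

namespace GP

variable {q t : ℕ} {Pt : Type} [Fintype Pt] [DecidableEq Pt] (G : GP q t Pt)

/-- `T0` valid for `Z`, pair from `H2`, `T1` valid for `Z ∩ pool`; `Ts` is the one of larger level.
`W = (T0 ∪ A ∪ B) \ T1 ⊆ Z ⊆ pool (PP T1) (QQ T1)`, whose size is bounded by `ext_of_BB`;
`aw_add_le`. -/
theorem two_rounds {H D k : ℕ} (h : NP q t H D k) {PP QQ : Finset (Pt × Pt) → Finset Pt} {x : ℝ}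
    (hx : x ≤ 1 / 8) {Z : Finset (Pt × Pt)} (hS : G.Smp PP QQ x H k Z)
    (hZ : 100 * (k : ℝ) / H ≤ Z.card) (lev : Finset (Pt × Pt) → ℕ)
    (F : ℕ → Finset (Finset Pt × Finset Pt)) (hF : Monotone F)
    (H1 : ∀ Z' ⊆ Z, 100 * (k : ℝ) / H ≤ Z'.card → ∀ T, G.Valid PP QQ x H k Z Z' T →
      (q : ℝ) ^ t / Real.exp (lev T) ≤ (G.BB x (PP T) (QQ T)).card)
    (H2 : ∀ T, G.Valid PP QQ x H k Z Z T → ∃ XY ∈ F (lev T),
      ((G.pool XY.1 XY.2).card : ℝ) ≤ (H : ℝ) ^ 3 * Real.exp (4 * lev T) * (q : ℝ) ^ t ∧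
      100 * (k : ℝ) / H ≤ (Z ∩ G.pool XY.1 XY.2).card) :
    ∃ Ts Z', Z' ⊆ Z ∧ 100 * (k : ℝ) / H ≤ Z'.card ∧ G.Valid PP QQ x H k Z Z' Ts ∧
      ∀ (A B : Finset (Pt × Pt)) (i : ℕ) (β : ℝ), A ⊆ Z → B ⊆ Z →
        (A.card : ℝ) + B.card ≤ at0 q H → i ≤ k + 2 →
        ((G.mn x H k (PP Ts) (QQ Ts) A B i).card : ℝ) ≤ β * (q : ℝ) ^ t →
        3 * (k : ℝ) / H ≤ (Z ∩ G.mn x H k (PP Ts) (QQ Ts) A B i).card →
        hits (G.Cov PP QQ x H k (lev Ts) (F (lev Ts)) β) (aw H k) Z := by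
  obtain ⟨T0, hT0⟩ := hS Z Subset.rfl
  obtain ⟨XY, hXY, hpool, hbig⟩ := H2 T0 hT0
  obtain ⟨T1, hT1⟩ := hS (Z ∩ G.pool XY.1 XY.2) inter_subset_left
  have hB1 := H1 _ inter_subset_left hbig T1 hT1
  have hE : (1 : ℝ) ≤ Real.exp (lev T1) := Real.one_le_exp (Nat.cast_nonneg _)
  have hp1 := (G.ext_of_BB (by linarith) hE (PP T1) (QQ T1) hB1).2.2.2.2
  have hT0Z : T0 ⊆ Z := hT0.sub
  have hT1Z : T1 ⊆ Z := hT1.sub.trans inter_subset_left
  have key : ∀ Ts, (Ts = T0 ∨ Ts = T1) → lev T0 ≤ lev Ts → lev T1 ≤ lev Ts →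
      ∀ (A B : Finset (Pt × Pt)) (i : ℕ) (β : ℝ), A ⊆ Z → B ⊆ Z →
        (A.card : ℝ) + B.card ≤ at0 q H → i ≤ k + 2 →
        ((G.mn x H k (PP Ts) (QQ Ts) A B i).card : ℝ) ≤ β * (q : ℝ) ^ t →
        3 * (k : ℝ) / H ≤ (Z ∩ G.mn x H k (PP Ts) (QQ Ts) A B i).card →
        hits (G.Cov PP QQ x H k (lev Ts) (F (lev Ts)) β) (aw H k) Z := by
    intro Ts hTs h0 h1 A B i β hA hB hAB hi hβ h3
    have h0' : (lev T0 : ℝ) ≤ lev Ts := by exact_mod_cast h0
    have h1' : (lev T1 : ℝ) ≤ lev Ts := by exact_mod_cast h1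
    have hWZ : (T0 ∪ A ∪ B) \ T1 ⊆ Z :=
      sdiff_subset.trans (union_subset (union_subset hT0Z hA) hB)
    have hWn : ((T0 ∪ A ∪ B) \ T1).card ≤ T0.card + A.card + B.card :=
      (card_le_card sdiff_subset).trans ((card_union_le _ _).trans
        (Nat.add_le_add_right (card_union_le _ _) _))
    have hW : (((T0 ∪ A ∪ B) \ T1).card : ℝ) ≤ 2 * at0 q H := by
      have h4 : (((T0 ∪ A ∪ B) \ T1).card : ℝ) ≤ T0.card + A.card + B.card := by
        exact_mod_cast hWn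
      have := hT0.card
      linarith
    have hsub : T0 ∪ A ∪ B ⊆ T1 ∪ (T0 ∪ A ∪ B) \ T1 := by
      rw [union_sdiff_self_eq_union]
      exact subset_union_right
    have hTs' : Ts ⊆ T1 ∪ (T0 ∪ A ∪ B) \ T1 := by
      rcases hTs with rfl | rfl
      · exact (subset_union_left.trans subset_union_left).trans hsub
      · exact subset_union_left
    refine ⟨(T1 ∪ (T0 ∪ A ∪ B) \ T1, G.mn x H k (PP Ts) (QQ Ts) A B i), ?_,
      union_subset hT1Z hWZ, ?_⟩
    · refine mem_sel.2 ⟨XY, hF h0 hXY, T1, (T0 ∪ A ∪ B) \ T1,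
        hT1.sub.trans inter_subset_right, hpool.trans ?_, hT1.card, hWZ.trans hT1.all,
        hp1.trans ?_, hW, disjoint_sdiff, rfl,
        ⟨Ts, hTs', A, (subset_union_right.trans subset_union_left).trans hsub, B,
          subset_union_right.trans hsub, i, hi, rfl⟩, hβ⟩
      · gcongr
      · rw [← Real.exp_nat_mul]
        push_cast
        gcongr
    · have h4 := card_le_card_sdiff_add_card (s := Z ∩ G.mn x H k (PP Ts) (QQ Ts) A B i)
        (t := T1 ∪ (T0 ∪ A ∪ B) \ T1)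
      have h5 := card_union_le T1 ((T0 ∪ A ∪ B) \ T1)
      have h6 : ((Z ∩ G.mn x H k (PP Ts) (QQ Ts) A B i).card : ℝ) ≤
          (((Z ∩ G.mn x H k (PP Ts) (QQ Ts) A B i) \ (T1 ∪ (T0 ∪ A ∪ B) \ T1)).card : ℝ) +
            (T1.card + ((T0 ∪ A ∪ B) \ T1).card) := by
        exact_mod_cast h4.trans (Nat.add_le_add_left h5 _)
      have h7 := h.aw_add_le
      have h8 := hT1.card
      have h9 : (aw H k : ℝ) ≤
          (((Z ∩ G.mn x H k (PP Ts) (QQ Ts) A B i) \ (T1 ∪ (T0 ∪ A ∪ B) \ T1)).card : ℝ) := by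
        linarith
      exact_mod_cast h9
  rcases le_total (lev T0) (lev T1) with hl | hl
  · exact ⟨T1, _, inter_subset_left, hbig, hT1, key T1 (Or.inr rfl) hl le_rfl⟩
  · exact ⟨T0, Z, Subset.rfl, hZ, hT0, key T0 (Or.inl rfl) le_rfl hl⟩

end GP

end Pool.Agent.Work.MP_e10cd8_co.All
end

-- merged part: Pool.Agent.Work.MP_e10cd8_co.All.Span
section
/-! Greedy domination and the span reduction (paper 2). -/

namespace Pool.Agent.Work.MP_e10cd8_co.All

open Finset Four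

theorem Span_split {β : Type} (V : Finset β) (p : β → Prop) :
    ((selIn V p).card : ℝ) + (selIn V fun z => ¬ p z).card = V.card := by
  rw [card_selIn, card_selIn, ← sum_add_distrib, card_eq_sum_ones, Nat.cast_sum]
  refine sum_congr rfl fun z _ => ?_
  by_cases hz : p z
  · rw [ind_pos hz, ind_neg (not_not.2 hz)]; simp
  · rw [ind_neg hz, ind_pos hz]; simp

theorem Span_dom {α β : Type} [DecidableEq α] {K : Finset α} (U : Finset β)
    (rel : β → α → Prop) {d : ℝ} (hK : K.Nonempty) (hdK : d ≤ K.card)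
    (h : ∀ z ∈ U, d ≤ (selIn K (rel z)).card) (m : ℕ) :
    ∃ T ⊆ K, T.card ≤ m ∧
      ((selIn U fun z => ¬ ∃ a ∈ T, rel z a).card : ℝ) ≤ (1 - d / K.card) ^ m * U.card := by
  have hK0 : (0 : ℝ) < K.card := by exact_mod_cast card_pos.2 hK
  have hx : 0 ≤ 1 - d / K.card := sub_nonneg.2 ((div_le_one hK0).2 hdK)
  induction m with
  | zero =>
    refine ⟨∅, empty_subset _, by simp, ?_⟩
    rw [pow_zero, one_mul]
    exact_mod_cast card_le_card (selIn_subset _ _)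
  | succ m ih =>
    obtain ⟨T, hTK, hTc, hT⟩ := ih
    set V := selIn U fun z => ¬ ∃ a ∈ T, rel z a with hV
    have h1 : ∑ _t ∈ K, d / K.card * V.card ≤ ∑ t ∈ K, ∑ z ∈ V, ind (rel z t) := by
      rw [sum_comm, sum_const, nsmul_eq_mul, ← mul_assoc, mul_div_cancel₀ _ hK0.ne', mul_comm,
        ← nsmul_eq_mul, ← sum_const]
      refine sum_le_sum fun z hz => ?_
      rw [← card_selIn]
      exact h z (selIn_subset _ _ hz)
    obtain ⟨t, htK, ht⟩ := exists_le_of_sum_le hK h1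
    refine ⟨insert t T, insert_subset htK hTK, (card_insert_le _ _).trans (by omega), ?_⟩
    have h2 : (selIn U fun z => ¬ ∃ a ∈ insert t T, rel z a) = selIn V fun z => ¬ rel z t := by
      ext z
      simp only [hV, mem_selIn, exists_mem_insert, not_or]
      exact ⟨fun k => ⟨⟨k.1, k.2.2⟩, k.2.1⟩, fun k => ⟨k.1.1, k.2, k.1.2⟩⟩
    have h3 := Span_split V fun z => rel z t
    rw [← card_selIn] at ht
    rw [h2, pow_succ', mul_assoc]
    have := mul_le_mul_of_nonneg_left hT hx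
    linarith

/-- greedy, compare `Four.dominate`: after `m` steps the uncovered share is at most
`(1 - d / |K|) ^ m ≤ exp (-1) ≤ 1/2` -/
theorem dominate2 {α β : Type} [DecidableEq α] (K : Finset α) (U : Finset β)
    (rel : β → α → Prop) {d : ℝ} (hd : 0 < d) (h : ∀ z ∈ U, d ≤ (selIn K (rel z)).card) (m : ℕ)
    (hm : (K.card : ℝ) ≤ d * m) :
    ∃ T ⊆ K, T.card ≤ m ∧ U.card ≤ 2 * (selIn U fun z => ∃ a ∈ T, rel z a).card := by
  rcases U.eq_empty_or_nonempty with rfl | ⟨z0, hz0⟩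
  · exact ⟨∅, empty_subset _, by simp, by simp⟩
  have hdK : d ≤ K.card :=
    (h z0 hz0).trans (by exact_mod_cast card_le_card (selIn_subset _ _))
  have hK0 : (0 : ℝ) < K.card := hd.trans_le hdK
  obtain ⟨T, hT, hc, h1⟩ := Span_dom U rel (card_pos.1 (by exact_mod_cast hK0)) hdK h m
  refine ⟨T, hT, hc, ?_⟩
  have hx : 0 ≤ 1 - d / K.card := sub_nonneg.2 ((div_le_one hK0).2 hdK)
  have h2 : 1 - d / K.card ≤ Real.exp (-(d / K.card)) := by
    linarith [Real.add_one_le_exp (-(d / K.card))]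
  have h3 : (1 - d / K.card) ^ m ≤ 1 / 2 := by
    refine (pow_le_pow_left₀ hx h2 _).trans ?_
    rw [← Real.exp_nat_mul]
    have h4 : (m : ℝ) * -(d / K.card) ≤ -1 := by
      rw [mul_neg, neg_le_neg_iff, ← mul_div_assoc, le_div_iff₀ hK0]
      linarith
    refine (Real.exp_le_exp.2 h4).trans ?_
    rw [Real.exp_neg, one_div]
    exact inv_anti₀ two_pos (by linarith [Real.add_one_le_exp (1 : ℝ)])
  have h5 := Span_split U fun z => ∃ a ∈ T, rel z a
  have h6 := mul_le_mul_of_nonneg_right h3 (Nat.cast_nonneg (α := ℝ) U.card)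
  have h7 : (U.card : ℝ) ≤ 2 * (selIn U fun z => ∃ a ∈ T, rel z a).card := by linarith
  exact_mod_cast h7

namespace GP

variable {q t : ℕ} {Pt : Type} [Fintype Pt] [DecidableEq Pt] (G : GP q t Pt)

theorem Span_step (T : Finset (Pt × Pt)) (u : Pt × Pt) (a : Pt) :
    (G.rk (G.spn T a) : ℝ) + ind (a ∈ G.pl u.2 ∧ u.1 ∉ G.spn T a) ≤
      G.rk (G.spn (insert u T) a) := by
  have h0 := G.spn_mono (subset_insert u T) a
  by_cases h : a ∈ G.pl u.2 ∧ u.1 ∉ G.spn T a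
  · rw [ind_pos h]
    have h1 : u.1 ∈ G.spn (insert u T) a := G.subset_cl _ (mem_insert_of_mem
      (mem_image.2 ⟨u, mem_selIn.2 ⟨mem_insert_self _ _, h.1⟩, rfl⟩))
    exact_mod_cast G.rk_lt h0 h1 (by rw [G.cl_spn]; exact h.2)
  · rw [ind_neg h, add_zero]
    exact_mod_cast G.rk_mono h0

theorem Span_rk {Z T : Finset (Pt × Pt)} (hZ : G.indep Z) (hT : T ⊆ Z) {z : Pt × Pt} (hz : z ∈ Z) :
    G.rk (G.spn T z.1) ≤ t ∧ G.rk (G.spn (sw T) z.2) ≤ t :=
  ⟨G.rk_le_of_subset_pl (G.spn_subset_pl hZ hT hz), G.rk_le_of_subset_pl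
    (G.spn_subset_pl (z := z.swap) (G.indep_sw hZ) (sw_mono hT) (mem_sw.2 hz))⟩

theorem Span_nw (T : Finset (Pt × Pt)) {Z Z' : Finset (Pt × Pt)} (h : Z' ⊆ Z) (a : Pt) :
    (G.nw T Z' a).card ≤ (G.nw T Z a).card :=
  card_le_card fun _ k => mem_selIn.2 ⟨h (mem_selIn.1 k).1, (mem_selIn.1 k).2⟩

/-- `Φ T = ∑ z ∈ Z, (rk (spn T z.1) + rk (spn (sw T) z.2)) ≤ 2 t |Z|`. Induction on `m`: there is
`T ⊆ Z`, `|T| ≤ m`, that is good or has `m d ≤ 4 Φ T` (a flag that is new for more than `d / 4`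
members raises their ranks, `rk_lt`). If `|Z| ≤ d` take `T = ∅`. -/
theorem span_good {Z : Finset (Pt × Pt)} (hZ : G.indep Z) {d : ℕ} (hd : 1 ≤ d) :
    ∃ T ⊆ Z, T.card * d ≤ 8 * (t + 1) * Z.card ∧ Z.card ≤ 2 * (selIn Z fun z =>
      (G.nw T Z z.1).card ≤ d ∧ (G.nw (sw T) (sw Z) z.2).card ≤ d).card := by
  classical
  obtain ⟨Φ, hΦ⟩ : ∃ Φ : Finset (Pt × Pt) → ℝ, ∀ T, Φ T =
    ∑ z ∈ Z, ((G.rk (G.spn T z.1) : ℝ) + G.rk (G.spn (sw T) z.2)) := ⟨_, fun _ => rfl⟩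
  obtain ⟨T, hT, hm⟩ := exists_max_image (Z.powerset.filter fun T => (T.card : ℝ) * d ≤ 2 * Φ T)
    card ⟨∅, mem_filter.2 ⟨empty_mem_powerset _, by
      rw [hΦ, card_empty, Nat.cast_zero, zero_mul]; positivity⟩⟩
  obtain ⟨hTZ, hT⟩ := mem_filter.1 hT
  rw [mem_powerset] at hTZ
  refine ⟨T, hTZ, ?_, by_contra fun hn => ?_⟩
  · have h1 : Φ T ≤ ∑ _z ∈ Z, (2 * t : ℝ) := by
      rw [hΦ]
      refine sum_le_sum fun z hz => ?_
      obtain ⟨h1, h2⟩ := G.Span_rk hZ hTZ hz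
      exact_mod_cast (by omega : G.rk (G.spn T z.1) + G.rk (G.spn (sw T) z.2) ≤ 2 * t)
    rw [sum_const, nsmul_eq_mul] at h1
    have h2 : (0 : ℝ) ≤ Z.card * t := by positivity
    have h3 : (T.card : ℝ) * d ≤ 8 * (t + 1) * Z.card := by
      nlinarith [Nat.cast_nonneg (α := ℝ) Z.card]
    exact_mod_cast h3
  have d1 : (1 : ℝ) ≤ d := by exact_mod_cast hd
  have h1 := Span_split Z fun z =>
    (G.nw T Z z.1).card ≤ d ∧ (G.nw (sw T) (sw Z) z.2).card ≤ d
  have h2 : 2 * ((selIn Z fun z =>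
      (G.nw T Z z.1).card ≤ d ∧ (G.nw (sw T) (sw Z) z.2).card ≤ d).card : ℝ) < Z.card := by
    exact_mod_cast not_le.1 hn
  have h3 : ((selIn Z fun z => ¬ ((G.nw T Z z.1).card ≤ d ∧
      (G.nw (sw T) (sw Z) z.2).card ≤ d)).card : ℝ) * d ≤ ∑ u ∈ Z, ∑ z ∈ Z,
      (ind (z.1 ∈ G.pl u.2 ∧ u.1 ∉ G.spn T z.1) +
        ind (z.2 ∈ G.pl u.swap.2 ∧ u.swap.1 ∉ G.spn (sw T) z.2)) := by
    rw [sum_comm, card_selIn, sum_mul]
    refine sum_le_sum fun z _ => ?_
    rw [sum_add_distrib, ← card_selIn, ← card_selIn,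
      ← card_selIn_sw Z fun u => z.2 ∈ G.pl u.2 ∧ u.1 ∉ G.spn (sw T) z.2]
    change _ ≤ ((G.nw T Z z.1).card : ℝ) + (G.nw (sw T) (sw Z) z.2).card
    by_cases k : (G.nw T Z z.1).card ≤ d ∧ (G.nw (sw T) (sw Z) z.2).card ≤ d
    · rw [ind_neg (not_not.2 k), zero_mul]
      positivity
    · rw [ind_pos k, one_mul]
      exact_mod_cast (by omega : d ≤ (G.nw T Z z.1).card + (G.nw (sw T) (sw Z) z.2).card)
  have h4 : ∑ _u ∈ Z, (d : ℝ) / 2 < ∑ u ∈ Z, ∑ z ∈ Z,
      (ind (z.1 ∈ G.pl u.2 ∧ u.1 ∉ G.spn T z.1) +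
        ind (z.2 ∈ G.pl u.swap.2 ∧ u.swap.1 ∉ G.spn (sw T) z.2)) := by
    refine lt_of_lt_of_le ?_ h3
    rw [sum_const, nsmul_eq_mul]
    nlinarith
  obtain ⟨u, hu, h5⟩ := exists_lt_of_sum_lt h4
  have h6 : Φ T + d / 2 < Φ (insert u T) := by
    refine (add_lt_add_right h5 _).trans_le ?_
    rw [hΦ, hΦ, ← sum_add_distrib]
    refine sum_le_sum fun z _ => ?_
    have e : sw (insert u T) = insert u.swap (sw T) := image_insert _ _ _
    have s1 := G.Span_step T u z.1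
    have s2 := G.Span_step (sw T) u.swap z.2
    rw [e]
    linarith
  have h7 : u ∉ T := fun k => by
    rw [insert_eq_of_mem k] at h6
    linarith
  have h8 := hm (insert u T) (mem_filter.2 ⟨mem_powerset.2 (insert_subset hu hTZ), by
    rw [card_insert_of_notMem h7]
    push_cast
    linarith⟩)
  rw [card_insert_of_notMem h7] at h8
  omega

/-- pigeonhole over the `t^2` pairs of ranks -/
theorem span_class {Z : Finset (Pt × Pt)} (hZ : G.indep Z) {d : ℕ} (hd : 1 ≤ d) :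
    ∃ T ⊆ Z, T.card * d ≤ 8 * (t + 1) * Z.card ∧ ∃ u v, ∃ Z' ⊆ Z, Z.card ≤ 2 * t ^ 2 * Z'.card ∧
      G.Cl1 T u d Z' ∧ G.Cl1 (sw T) v d (sw Z') := by
  obtain ⟨T, hT, hc, hg⟩ := G.span_good hZ hd
  refine ⟨T, hT, hc, ?_⟩
  set Zg := selIn Z fun z => (G.nw T Z z.1).card ≤ d ∧ (G.nw (sw T) (sw Z) z.2).card ≤ d with hZg
  have t2 := G.ht
  obtain ⟨⟨u, v⟩, huv, hm⟩ := exists_max_image (Icc 1 t ×ˢ Icc 1 t)
    (fun w : ℕ × ℕ => (Zg.filter fun z => (G.rk (G.spn T z.1), G.rk (G.spn (sw T) z.2)) = w).card)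
    ⟨(1, 1), by simp only [mem_product, mem_Icc]; omega⟩
  have c1 := card_le_mul_card_image_of_maps_to (s := Zg) (t := Icc 1 t ×ˢ Icc 1 t)
    (f := fun z => (G.rk (G.spn T z.1), G.rk (G.spn (sw T) z.2))) (fun z hz => by
      obtain ⟨h1, h2⟩ := G.Span_rk hZ hT (selIn_subset _ _ hz)
      exact mem_product.2 ⟨mem_Icc.2 ⟨G.one_le_rk ⟨_, G.mem_spn _ _⟩, h1⟩,
        mem_Icc.2 ⟨G.one_le_rk ⟨_, G.mem_spn _ _⟩, h2⟩⟩) _ hm
  rw [card_product, Nat.card_Icc, Nat.add_sub_cancel] at c1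
  set Z' := Zg.filter fun z => (G.rk (G.spn T z.1), G.rk (G.spn (sw T) z.2)) = (u, v) with hZ'
  have s1 : Z' ⊆ Z := (filter_subset _ _).trans (selIn_subset _ _)
  have m1 : ∀ z ∈ Z', G.rk (G.spn T z.1) = u ∧ G.rk (G.spn (sw T) z.2) = v ∧
      (G.nw T Z z.1).card ≤ d ∧ (G.nw (sw T) (sw Z) z.2).card ≤ d := fun z hz => by
    obtain ⟨h1, h2⟩ := mem_filter.1 hz
    exact ⟨(Prod.ext_iff.1 h2).1, (Prod.ext_iff.1 h2).2, (mem_selIn.1 h1).2⟩
  obtain ⟨hu, hv⟩ := mem_product.1 huv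
  refine ⟨u, v, Z', s1, by nlinarith, ⟨(mem_Icc.1 hu).1, (mem_Icc.1 hu).2, fun z hz => (m1 z hz).1,
    fun z hz => G.spn_subset_pl hZ hT (s1 hz),
    fun z hz => (G.Span_nw T s1 _).trans (m1 z hz).2.2.1⟩,
    (mem_Icc.1 hv).1, (mem_Icc.1 hv).2, fun z hz => (m1 _ (mem_sw.1 hz)).2.1,
    fun z hz => G.spn_subset_pl (G.indep_sw hZ) (sw_mono hT) (sw_mono s1 hz),
    fun z hz => (G.Span_nw (sw T) (sw_mono s1) _).trans (m1 _ (mem_sw.1 hz)).2.2.2⟩

end GP

end Pool.Agent.Work.MP_e10cd8_co.All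
end

-- merged part: Pool.Agent.Work.MP_e10cd8_co.All.AWt
section
/-! The weight of a cover (paper 4). Compare `Exact/Wt`, `Exact/WtA`. -/

namespace Pool.Agent.Work.MP_e10cd8_co.All

open Finset Four

theorem AWt_mono {φ : Type} {p : ℝ} (hp : 0 ≤ p) (w0 : ℕ) {C C' : Finset (Finset φ × Finset φ)}
    (h : C ⊆ C') : wtC p w0 C ≤ wtC p w0 C' :=
  Finset.sum_le_sum_of_subset_of_nonneg h fun _ _ _ => by positivity

theorem AWt_t0 {q t H D k : ℕ} (h : NP q t H D k) : (H : ℝ) ^ 4 ≤ at0 q H := by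
  have h1 := h.H_ge'
  have h2 := h.q_ge
  have h3 := h.L_ge
  have h4 : (1 : ℝ) ≤ (H : ℝ) ^ 6 := one_le_pow₀ (by linarith)
  have h5 : (1 : ℝ) * 1 ≤ q * Real.log q :=
    mul_le_mul (by linarith) (by linarith) (by norm_num) (by linarith)
  unfold at0
  rw [mul_assoc]
  exact le_mul_of_one_le_right (by positivity) (by linarith)

theorem AWt_exp {q t H D k : ℕ} (h : NP q t H D k) : (k : ℝ) + 3 ≤ Real.exp (at0 q H) := by
  have h1 := h.H_ge'
  have h2 := AWt_t0 h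
  have h3 := h.le_at0
  have h4 : (20 : ℝ) ≤ (H : ℝ) ^ 2 := by nlinarith
  have h5 : 20 * (H : ℝ) ^ 2 ≤ at0 q H := by
    refine le_trans ?_ h2
    rw [show (H : ℝ) ^ 4 = (H : ℝ) ^ 2 * (H : ℝ) ^ 2 by ring]
    exact mul_le_mul_of_nonneg_right h4 (by positivity)
  have t0 : 0 ≤ at0 q H := by linarith
  have h6 := Real.quadratic_le_exp_of_nonneg t0
  have h7 := mul_le_mul_of_nonneg_right h5 t0
  nlinarith

theorem AWt_small {φ : Type} [DecidableEq φ] {q t H D k : ℕ} (h : NP q t H D k) (Ω : Finset φ)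
    {a : ℝ} (s : ℝ) (ha : 0 ≤ a) (hΩ : (Ω.card : ℝ) ≤ (H : ℝ) ^ 3 * Real.exp a * (q : ℝ) ^ t) :
    ∑ T ∈ selIn Ω.powerset (fun T => (T.card : ℝ) ≤ s), ap q t H k ^ T.card ≤
      Real.exp (s * a + at0 q H) := by
  have h1 := h.H_ge'
  have q0 : (0 : ℝ) < q := by linarith [h.q_ge]
  have H0 : (0 : ℝ) < H := by linarith
  have e0 := Real.exp_pos a
  have e1 : 1 ≤ Real.exp a := Real.one_le_exp ha
  have p0 := ap_nonneg q t H k
  have t0 : 0 ≤ at0 q H := le_trans (by positivity) (AWt_t0 h)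
  refine (sum_small_le Ω (x := 1 / Real.exp a) p0 (by positivity)
    (div_le_one_of_le₀ e1 e0.le)).trans (Real.exp_le_exp.2 ?_)
  rw [one_div_one_div, Real.log_exp]
  have b : 1 / Real.exp a * ap q t H k * Ω.card ≤ k / (H : ℝ) ^ 7 := by
    calc _ ≤ 1 / Real.exp a * ap q t H k * ((H : ℝ) ^ 3 * Real.exp a * (q : ℝ) ^ t) := by gcongr
      _ = _ := by unfold ap; field_simp
  have c : (k : ℝ) / (H : ℝ) ^ 7 ≤ at0 q H := by
    rw [div_le_iff₀ (by positivity)]
    refine h.le_at0.trans ?_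
    have c1 : (5 : ℝ) ≤ (H : ℝ) ^ 5 :=
      le_trans (by linarith) (le_self_pow₀ (by linarith) (by norm_num))
    have c2 : 5 * (H : ℝ) ^ 2 ≤ (H : ℝ) ^ 7 := by
      rw [show (H : ℝ) ^ 7 = (H : ℝ) ^ 5 * (H : ℝ) ^ 2 by ring]
      exact mul_le_mul_of_nonneg_right c1 (by positivity)
    rw [mul_comm (at0 q H)]
    exact mul_le_mul_of_nonneg_right c2 t0
  linarith

namespace GP

variable {q t : ℕ} {Pt : Type} [Fintype Pt] [DecidableEq Pt] (G : GP q t Pt)

/-- the items of the menu over the set `U` -/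
noncomputable def AWt_menu (PP QQ : Finset (Pt × Pt) → Finset Pt) (x : ℝ) (H k : ℕ)
    (U : Finset (Pt × Pt)) : Finset (Finset (Pt × Pt)) :=
  (U.powerset ×ˢ U.powerset ×ˢ U.powerset ×ˢ range (k + 3)).image fun c =>
    G.mn x H k (PP c.1) (QQ c.1) c.2.1 c.2.2.1 c.2.2.2

theorem AWt_menu_card {H D k : ℕ} (h : NP q t H D k) (PP QQ : Finset (Pt × Pt) → Finset Pt)
    (x : ℝ) (U : Finset (Pt × Pt)) (hU : (U.card : ℝ) ≤ 3 * at0 q H) :
    ((G.AWt_menu PP QQ x H k U).card : ℝ) ≤ Real.exp (10 * at0 q H) := by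
  have a : (G.AWt_menu PP QQ x H k U).card ≤ 2 ^ U.card * (2 ^ U.card * (2 ^ U.card * (k + 3))) := by
    unfold AWt_menu
    refine card_image_le.trans (le_of_eq ?_)
    simp only [card_product, card_powerset, card_range]
  have b : (2 : ℝ) ^ U.card ≤ Real.exp (3 * at0 q H) := by
    refine le_trans ?_ (Real.exp_le_exp.2 hU)
    rw [← mul_one (U.card : ℝ), Real.exp_nat_mul]
    exact pow_le_pow_left₀ (by norm_num) (by linarith [Real.add_one_le_exp (1 : ℝ)]) _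
  have c := AWt_exp h
  calc _ ≤ (2 : ℝ) ^ U.card * (2 ^ U.card * (2 ^ U.card * (k + 3))) := by exact_mod_cast a
    _ ≤ Real.exp (3 * at0 q H) * (Real.exp (3 * at0 q H) * (Real.exp (3 * at0 q H) *
        Real.exp (at0 q H))) := by gcongr
    _ = _ := by
      rw [← Real.exp_add, ← Real.exp_add, ← Real.exp_add]
      congr 1
      ring

/-- `Cov` is contained in the image of the tuples (pair, `T1`, `W`, three subsets of `T1 ∪ W`,
index). `sum_small_le` with `x = exp (-4 j)` and with `x = exp (-2 j)` bounds the sums over `T1` and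
`W` by `exp (t0 (4 j + 1))` (`le_at0`); the menu has at most `8 ^ (3 t0) (k + 3) ≤ exp (8 t0)`
items; `pool_factor`, `at0_le`. -/
theorem wt_Cov {H D k : ℕ} (h : NP q t H D k) (PP QQ : Finset (Pt × Pt) → Finset Pt) (x : ℝ)
    (j : ℕ) (F : Finset (Finset Pt × Finset Pt)) {β y : ℝ} (hy : 0 ≤ y) (hj : (j : ℝ) ≤ 2 * y)
    (hF : (F.card : ℝ) ≤ Real.exp (k * (y + 1) / (4 * H)))
    (hβ : β ≤ (H : ℝ) ^ 3 * Real.exp (-y)) :
    wtC (ap q t H k) (aw H k) (G.Cov PP QQ x H k j F β) ≤ Real.exp (-(9 * k / H)) := by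
  have p0 := ap_nonneg q t H k
  have H1 := h.H_ge'
  have H0 : (0 : ℝ) < H := by linarith
  have k0 := h.k_pos
  have j0 : (0 : ℝ) ≤ j := Nat.cast_nonneg j
  have t0 : 0 ≤ at0 q H := le_trans (by positivity) (AWt_t0 h)
  set E := Real.exp (-((10 + y) * k / H)) with hE
  have E0 : 0 ≤ E := (Real.exp_pos _).le
  have sub : G.Cov PP QQ x H k j F β ⊆ (selIn F fun XY =>
      ((G.pool XY.1 XY.2).card : ℝ) ≤ (H : ℝ) ^ 3 * Real.exp (4 * j) * (q : ℝ) ^ t).biUnion
      fun XY => (selIn (selIn (G.pool XY.1 XY.2).powerset fun T => (T.card : ℝ) ≤ at0 q H)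
        fun T1 => ((G.pool (PP T1) (QQ T1)).card : ℝ) ≤
          35 * Real.exp (2 * j) * (q : ℝ) ^ t).biUnion
        fun T1 => (selIn (selIn (G.pool (PP T1) (QQ T1)).powerset
          fun W => (W.card : ℝ) ≤ 2 * at0 q H) fun W => Disjoint T1 W).biUnion fun W =>
          (selIn (G.AWt_menu PP QQ x H k (T1 ∪ W))
            fun B => (B.card : ℝ) ≤ β * (q : ℝ) ^ t).image fun B => (T1 ∪ W, B) := by
    intro z hz
    obtain ⟨XY, h1, T1, W, h2, h3, h4, h5, h6, h7, h8, h9, ⟨Ts, s1, A, s2, B, s3, i, s4, s5⟩,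
      h10⟩ := mem_sel.1 hz
    rw [h9] at s1 s2 s3
    refine mem_biUnion.2 ⟨XY, mem_selIn.2 ⟨h1, h3⟩, mem_biUnion.2 ⟨T1, mem_selIn.2
      ⟨mem_selIn.2 ⟨mem_powerset.2 h2, h4⟩, h6⟩, mem_biUnion.2 ⟨W, mem_selIn.2
        ⟨mem_selIn.2 ⟨mem_powerset.2 h5, h7⟩, h8⟩, mem_image.2 ⟨z.2, mem_selIn.2
          ⟨mem_image.2 ⟨(Ts, A, B, i), ?_, s5.symm⟩, h10⟩, Prod.ext h9.symm rfl⟩⟩⟩⟩
    exact mem_product.2 ⟨mem_powerset.2 s1, mem_product.2 ⟨mem_powerset.2 s2,
      mem_product.2 ⟨mem_powerset.2 s3, mem_range.2 (Nat.lt_succ_of_le s4)⟩⟩⟩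
  refine (AWt_mono p0 _ sub).trans ((wtC_biUnion_le p0 _ _ _).trans ?_)
  refine (sum_le_card_nsmul _ _ (Real.exp (at0 q H * (4 * j) + at0 q H) *
    (Real.exp (2 * at0 q H * (2 * j) + at0 q H) * (Real.exp (10 * at0 q H) * E)))
    fun XY hXY => ?_).trans ?_
  · refine (wtC_biUnion_le p0 _ _ _).trans ?_
    have s1 := (sum_le_sum_of_subset_of_nonneg (selIn_subset _ fun T1 =>
      ((G.pool (PP T1) (QQ T1)).card : ℝ) ≤ 35 * Real.exp (2 * j) * (q : ℝ) ^ t)
      fun _ _ _ => by positivity).trans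
      (AWt_small h (G.pool XY.1 XY.2) (at0 q H) (by positivity) (mem_selIn.1 hXY).2)
    refine le_trans ?_ (mul_le_mul_of_nonneg_right s1 (by positivity))
    rw [sum_mul]
    refine sum_le_sum fun T1 hT => (wtC_biUnion_le p0 _ _ _).trans ?_
    have c35 : (35 : ℝ) ≤ (H : ℝ) ^ 3 :=
      le_trans (by linarith) (le_self_pow₀ (by linarith) (by norm_num))
    have s2 := (sum_le_sum_of_subset_of_nonneg (selIn_subset _ fun W => Disjoint T1 W)
      fun _ _ _ => by positivity).trans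
      (AWt_small h (G.pool (PP T1) (QQ T1)) (a := 2 * j) (2 * at0 q H) (by positivity)
        ((mem_selIn.1 hT).2.trans (by gcongr)))
    refine le_trans ?_ (mul_le_mul_of_nonneg_left
      (mul_le_mul_of_nonneg_right s2 (by positivity)) (by positivity))
    rw [sum_mul, mul_sum]
    refine sum_le_sum fun W hW => (wtC_image_le p0 _ _ _).trans ?_
    have d := (mem_selIn.1 hW).2
    refine (sum_le_card_nsmul _ _ (ap q t H k ^ T1.card * (ap q t H k ^ W.card * E))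
      fun B hB => ?_).trans ?_
    · have := h.pool_factor (B := B.card) hy
        ((mem_selIn.1 hB).2.trans (mul_le_mul_of_nonneg_right hβ (by positivity)))
      simp only []
      rw [card_union_of_disjoint d, pow_add, mul_assoc]
      gcongr
    · have u : ((T1 ∪ W).card : ℝ) ≤ 3 * at0 q H := by
        have u1 := (mem_selIn.1 (mem_selIn.1 hT).1).2
        have u2 := (mem_selIn.1 (mem_selIn.1 hW).1).2
        rw [card_union_of_disjoint d]
        push_cast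
        linarith
      have : ((selIn (G.AWt_menu PP QQ x H k (T1 ∪ W))
          fun B => (B.card : ℝ) ≤ β * (q : ℝ) ^ t).card : ℝ) ≤ Real.exp (10 * at0 q H) :=
        le_trans (by exact_mod_cast card_le_card (selIn_subset _ _))
          (G.AWt_menu_card h PP QQ x _ u)
      rw [nsmul_eq_mul]
      refine (mul_le_mul_of_nonneg_right this (by positivity)).trans (le_of_eq ?_)
      ring
  · rw [nsmul_eq_mul]
    have a0 : ((selIn F fun XY => ((G.pool XY.1 XY.2).card : ℝ) ≤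
        (H : ℝ) ^ 3 * Real.exp (4 * j) * (q : ℝ) ^ t).card : ℝ) ≤
        Real.exp (k * (y + 1) / (4 * H)) :=
      le_trans (by exact_mod_cast card_le_card (selIn_subset _ _)) hF
    refine (mul_le_mul_of_nonneg_right a0 (by positivity)).trans ?_
    rw [hE, ← Real.exp_add, ← Real.exp_add, ← Real.exp_add, ← Real.exp_add, Real.exp_le_exp]
    have b1 : at0 q H ≤ k / H / 100 := by
      refine h.at0_le.trans ?_
      rw [div_div]
      refine div_le_div_of_nonneg_left k0.le (by positivity) ?_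
      nlinarith
    have b2 : (k : ℝ) * (y + 1) / (4 * H) = k / H * (y + 1) / 4 := by field_simp
    have b3 : (10 + y) * (k : ℝ) / H = (10 + y) * (k / H) := by ring
    have b4 : 9 * (k : ℝ) / H = 9 * (k / H) := by ring
    rw [b2, b3, b4]
    have u0 : (0 : ℝ) ≤ k / H := by positivity
    generalize (k : ℝ) / H = u at b1 u0 ⊢
    have b5 : at0 q H * j ≤ u / 100 * (2 * y) := mul_le_mul b1 hj j0 (by positivity)
    have b6 := mul_nonneg u0 hy
    nlinarith

end GP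

end Pool.Agent.Work.MP_e10cd8_co.All
end

-- merged part: Pool.Agent.Work.MP_e10cd8_co.All.AAsym
section
/-! Choice of the prime. Compare `Exact/XAsym`. -/

namespace Pool.Agent.Work.MP_e10cd8_co.All

open Finset Four

theorem AAsym_D (A t : ℝ) (hA : 0 ≤ A) (h1 : 1 ≤ t) (h2 : 16 * A ≤ Real.log t) : ∃ D : ℕ,
    (D : ℝ) ^ 2 ≤ t ∧ A * Real.log t ≤ D := by
  have t0 : 0 < t := by linarith
  have s1 : 1 ≤ √t := Real.one_le_sqrt.2 h1
  have s2 : √t ^ 2 = t := Real.sq_sqrt t0.le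
  have f1 : (⌊√t⌋₊ : ℝ) ≤ √t := Nat.floor_le (by linarith)
  have f2 : √t < ⌊√t⌋₊ + 1 := Nat.lt_floor_add_one _
  have f3 : (1 : ℝ) ≤ ⌊√t⌋₊ := by exact_mod_cast Nat.le_floor (by simpa using s1)
  have f4 : √t ≤ 2 * ⌊√t⌋₊ := by linarith
  have e : √t = Real.exp (Real.log t / 2) := by
    rw [Real.exp_half, Real.exp_log t0]
  have l0 : 0 ≤ Real.log t := Real.log_nonneg h1
  have e2 : (Real.log t / 2) ^ 2 / 2 ≤ √t := by
    rw [e]
    simpa [Nat.factorial] using Real.pow_div_factorial_le_exp (Real.log t / 2) (by linarith) 2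
  refine ⟨⌊√t⌋₊, ?_, ?_⟩
  · calc (⌊√t⌋₊ : ℝ) ^ 2 ≤ √t ^ 2 := by gcongr
      _ = t := s2
  · generalize Real.log t = u at *
    have a1 : 16 * A * u ≤ u * u := mul_le_mul_of_nonneg_right h2 l0
    have a2 : (u / 2) ^ 2 / 2 = u * u / 8 := by ring
    have a3 : 16 * A * u = 16 * (A * u) := by ring
    linarith

theorem AAsym_q (A : ℝ) (hA : 0 ≤ A) : ∃ T : ℝ, ∀ q : ℕ, 0 < q → T ≤ Real.log q →
    Real.log q ^ 4 ≤ (q : ℝ) ∧
    ∃ D : ℕ, (D : ℝ) ^ 2 ≤ Real.log q ∧ A * Real.log (Real.log q) ≤ D := by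
  obtain ⟨T, h⟩ := Filter.eventually_atTop.1
    (((Real.tendsto_exp_div_pow_atTop 4).eventually_ge_atTop 1).and
      ((Real.tendsto_log_atTop.eventually_ge_atTop (16 * A)).and
        (Filter.eventually_ge_atTop (1 : ℝ))))
  refine ⟨T, fun q q0 hq => ?_⟩
  obtain ⟨a, b, c⟩ := h _ hq
  refine ⟨?_, AAsym_D _ _ hA c b⟩
  rw [Real.exp_log (by exact_mod_cast q0), le_div_iff₀ (by positivity), one_mul] at a
  exact a

theorem AAsym_fin (j : ℕ) (K B n q L : ℝ) (hK : 0 < K) (hB : 0 < B) (hq : 1 ≤ q) (hL : 0 < L)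
    (h1 : n ≤ 5 * K * q * L) (h2 : 2 * B ≤ n) :
    1 / (2 * B * (5 * K) ^ (j + 1)) * n ^ (j + 2) / L ^ (j + 1) ≤
      n * q ^ (j + 2) / (q * B) - 1 := by
  have n0 : 0 < n := by linarith
  have q0 : 0 < q := by linarith
  have e : n * q ^ (j + 2) / (q * B) = n * q ^ (j + 1) / B := by
    field_simp
    ring
  have a1 : 2 ≤ n * q ^ (j + 1) / B := by
    rw [le_div_iff₀ hB]
    exact h2.trans (le_mul_of_one_le_right n0.le (one_le_pow₀ hq))
  have a2 : 1 / (2 * B * (5 * K) ^ (j + 1)) * n ^ (j + 2) / L ^ (j + 1) ≤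
      n * q ^ (j + 1) / B / 2 := by
    have b : n ^ (j + 1) ≤ (5 * K * q * L) ^ (j + 1) := pow_le_pow_left₀ n0.le h1 _
    calc _ = n * n ^ (j + 1) / (2 * B * (5 * K) ^ (j + 1) * L ^ (j + 1)) := by
          field_simp
          ring
      _ ≤ n * (5 * K * q * L) ^ (j + 1) / (2 * B * (5 * K) ^ (j + 1) * L ^ (j + 1)) := by gcongr
      _ = _ := by
          rw [mul_pow (5 * K * q), mul_pow (5 * K)]
          field_simp
  rw [e]
  linarith

/-- `C0 = H^6`, `x = ⌈n / (4 C0 log n)⌉₊`, `q` a prime with `x < q ≤ 2 x`, `D = ⌊sqrt (log q)⌋₊`;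
the conditions on `q` alone hold for all large `q` -/
theorem aparams (j H : ℕ) (hH : 10 ^ 6 * (j + 2 + 1) ^ 4 ≤ H) :
    ∃ c : ℝ, 0 < c ∧ ∃ n₀ : ℕ, ∀ n : ℕ, n₀ ≤ n → ∃ q D : ℕ, q.Prime ∧ NP q (j + 2) H D n ∧
      c * (n : ℝ) ^ (j + 2) / Real.log n ^ (j + 1) ≤
        (n : ℝ) * (q : ℝ) ^ (j + 2) / (q * (H : ℝ) ^ 10) - 1 := by
  have H1 : (10 : ℝ) ^ 6 ≤ H := by
    have : 10 ^ 6 ≤ H := le_trans (Nat.le_mul_of_pos_right _ (by positivity)) hH
    exact_mod_cast this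
  have H0 : (0 : ℝ) < H := lt_of_lt_of_le (by positivity) H1
  have H2 : (10 : ℝ) ^ 7 ≤ H := by
    have a : 3 ^ 4 ≤ (j + 2 + 1) ^ 4 := Nat.pow_le_pow_left (by omega) 4
    have : 10 ^ 7 ≤ H := le_trans (le_trans (by norm_num) (Nat.mul_le_mul_left _ a)) hH
    exact_mod_cast this
  have K1 : (2 : ℝ) ^ 41 ≤ (H : ℝ) ^ 6 :=
    le_trans (by norm_num) (pow_le_pow_left₀ (by positivity) H2 6)
  obtain ⟨T, hT⟩ := AAsym_q (1000 * (H : ℝ) ^ 3) (by positivity)
  have t := Real.tendsto_log_atTop.comp (tendsto_natCast_atTop_atTop (R := ℝ))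
  obtain ⟨n₀, h⟩ := Filter.eventually_atTop.1
    (((t.eventually_ge_atTop (200 * (H : ℝ) ^ 6)).and (t.eventually_ge_atTop (5 / 4 * T))).and
      ((tendsto_natCast_atTop_atTop (R := ℝ)).eventually_ge_atTop (2 * (H : ℝ) ^ 10)))
  refine ⟨1 / (2 * (H : ℝ) ^ 10 * (5 * (H : ℝ) ^ 6) ^ (j + 1)), by positivity, n₀, fun n hn => ?_⟩
  have g0 : 200 * (H : ℝ) ^ 6 ≤ Real.log n := (h n hn).1.1
  obtain ⟨q, a, b, c, d, e, -⟩ := XAsym_aux _ K1 n g0
  have g : 5 / 4 * T ≤ Real.log n := (h n hn).1.2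
  obtain ⟨k, D, k1, k2⟩ := hT q a.pos (by linarith)
  have q1 : (1000 : ℝ) ≤ q := by exact_mod_cast b
  have K2 : (1 : ℝ) ≤ (H : ℝ) ^ 6 := le_trans (by norm_num) K1
  have l1 : 1 ≤ Real.log q := by linarith
  have qn : (q : ℝ) ≤ n := by
    refine le_trans ?_ d
    calc (q : ℝ) = 1 * q * 1 := by ring
      _ ≤ _ := by gcongr
  have l2 : Real.log q ≤ Real.log n := Real.log_le_log (by linarith) qn
  refine ⟨q, D, a, ⟨by omega, hH, b, k, k1, k2, d, e⟩, ?_⟩
  refine AAsym_fin j _ _ _ _ _ (by positivity) (by positivity) (by linarith) (by linarith)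
    (e.trans ?_) (h n hn).2
  gcongr

end Pool.Agent.Work.MP_e10cd8_co.All
end
end
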