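import Pool.Agent.Work.MP_e10cd8_co.All.ACover
import Pool.Agent.Work.MP_e10cd8_co.All.AAsym
import Pool.Agent.Work.MP_e10cd8_co.All.KL
import Pool.Agent.Work.MP_e10cd8_co.Upper.Main

namespace Pool.Agent.Work.MP_e10cd8_co.All

theorem lower_succ (j : ℕ) : ∃ c : ℝ, 0 < c ∧ ∃ n₀ : ℕ, ∀ n N : ℕ, n₀ ≤ n →
    (N : ℝ) ≤ c * (n : ℝ) ^ (j + 2) / Real.log n ^ (j + 1) →
      ∃ G : Digraph (Fin N), (∀ v, ¬ G.Adj v v) ∧
        (¬ ∃ S : Finset (Fin N), S.card = n ∧ ∀ u ∈ S, ∀ v ∈ S, ¬ G.Adj u v) ∧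
        ¬ ∃ f : Fin (j + 3) → Fin N, Function.Injective f ∧
          ∀ i i', i < i' → G.Adj (f i) (f i') := by
  obtain ⟨x, A, Γ, x0, x1, A0, Γ0, hK⟩ := kl_all j
  obtain ⟨H, hH⟩ := exists_nat_ge (10 ^ 6 * ((j : ℝ) + 2 + 1) ^ 4 + 1 / x + A + Γ)
  have p1 : (0 : ℝ) ≤ 10 ^ 6 * ((j : ℝ) + 2 + 1) ^ 4 := by positivity
  have p2 : 0 < 1 / x := by positivity
  have h1 : 10 ^ 6 * (j + 2 + 1) ^ 4 ≤ H := by
    have : 10 ^ 6 * ((j : ℝ) + 2 + 1) ^ 4 ≤ H := by linarith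
    exact_mod_cast this
  have h2 : 1 / (H : ℝ) ≤ x := (one_div_le x0 (by linarith)).1 (by linarith)
  obtain ⟨c, hc, n₀, h⟩ := aparams j H h1
  refine ⟨c, hc, n₀, fun n N hn hN => ?_⟩
  obtain ⟨q, D, hq, hP, hle⟩ := h n hn
  obtain ⟨Pt, _, _, G, hG⟩ := hK q hq hP.hq
  obtain ⟨X, hX, hcard, hI⟩ := G.host hP h2 x1 A0 (by linarith) Γ0 (by linarith) hG
  exact G.digraph hX hI (by exact_mod_cast hN.trans (hle.trans hcard))

theorem lower (j : ℕ) : ∃ c : ℝ, 0 < c ∧ ∃ n₀ : ℕ, ∀ n N : ℕ, n₀ ≤ n →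
    (N : ℝ) ≤ c * (n : ℝ) ^ (j + 1) / Real.log n ^ j →
      ∃ G : Digraph (Fin N), (∀ v, ¬ G.Adj v v) ∧
        (¬ ∃ S : Finset (Fin N), S.card = n ∧ ∀ u ∈ S, ∀ v ∈ S, ¬ G.Adj u v) ∧
        ¬ ∃ f : Fin (j + 2) → Fin N, Function.Injective f ∧
          ∀ i i', i < i' → G.Adj (f i) (f i') := by
  cases j with
  | succ j => exact lower_succ j
  | zero =>
    refine ⟨1 / 2, by norm_num, 1, fun n N hn hN => ⟨⟨fun _ _ => False⟩, fun _ h => h, ?_, ?_⟩⟩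
    · rintro ⟨S, h1, -⟩
      have a1 : (n : ℝ) ≤ N := by
        have := Finset.card_le_univ S
        rw [h1, Fintype.card_fin] at this
        exact_mod_cast this
      have a2 : (1 : ℝ) ≤ n := by exact_mod_cast hn
      simp only [zero_add, pow_one, pow_zero, div_one] at hN
      linarith
    · rintro ⟨f, -, h⟩
      exact h 0 1 (by decide)

theorem order (m : ℕ) (hm : 2 ≤ m) : ∃ c C : ℝ, 0 < c ∧ ∃ n₀ : ℕ, ∀ n : ℕ, n₀ ≤ n → ∃ k : ℕ,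
    IsLeast {N : ℕ | ∀ G : Digraph (Fin N), (∀ v, ¬ G.Adj v v) →
      (∃ S : Finset (Fin N), S.card = n ∧ ∀ u ∈ S, ∀ v ∈ S, ¬ G.Adj u v) ∨
        ∃ f : Fin m → Fin N, Function.Injective f ∧ ∀ i j, i < j → G.Adj (f i) (f j)} k ∧
    c * (n : ℝ) ^ (m - 1) / Real.log n ^ (m - 2) ≤ k ∧
      (k : ℝ) ≤ C * (n : ℝ) ^ (m - 1) / Real.log n ^ (m - 2) := by
  obtain ⟨j, rfl⟩ : ∃ j, m = j + 2 := ⟨m - 2, by omega⟩
  obtain ⟨c, hc, n₀, h⟩ := lower j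
  obtain ⟨C, n₁, h'⟩ := Upper.upper j
  rw [show j + 2 - 1 = j + 1 from rfl, show j + 2 - 2 = j from rfl]
  refine ⟨c, |C| + 1, hc, max (max n₀ n₁) 2, fun n hn => ?_⟩
  have h0 : n₀ ≤ n := le_of_max_le_left (le_of_max_le_left hn)
  have h1 : n₁ ≤ n := le_of_max_le_right (le_of_max_le_left hn)
  have h2 : (2 : ℝ) ≤ n := by exact_mod_cast le_of_max_le_right hn
  have l0 : 0 < Real.log n := Real.log_pos (by linarith)
  have l1 : Real.log n ≤ n := (Real.log_le_sub_one_of_pos (by linarith)).trans (by linarith)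
  have f1 : 1 ≤ (n : ℝ) ^ (j + 1) / Real.log n ^ j := by
    rw [le_div_iff₀ (by positivity), one_mul]
    exact (pow_le_pow_left₀ l0.le l1 j).trans (pow_le_pow_right₀ (by linarith) (Nat.le_succ j))
  set A := {N : ℕ | ∀ G : Digraph (Fin N), (∀ v, ¬ G.Adj v v) →
      (∃ S : Finset (Fin N), S.card = n ∧ ∀ u ∈ S, ∀ v ∈ S, ¬ G.Adj u v) ∨
        ∃ f : Fin (j + 2) → Fin N, Function.Injective f ∧
          ∀ i i', i < i' → G.Adj (f i) (f i')} with hA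
  have m1 : ⌈|C| * ((n : ℝ) ^ (j + 1) / Real.log n ^ j)⌉₊ ∈ A := by
    refine h' n _ h1 (le_trans ?_ (Nat.le_ceil _))
    rw [mul_div_assoc]
    exact mul_le_mul_of_nonneg_right (le_abs_self C) (by linarith)
  have m2 : sInf A ∈ A := Nat.sInf_mem ⟨_, m1⟩
  refine ⟨sInf A, ⟨m2, fun N hN => Nat.sInf_le hN⟩, ?_, ?_⟩
  · by_contra k
    obtain ⟨G, g1, g2, g3⟩ := h n _ h0 (not_le.1 k).le
    exact (m2 G g1).elim g2 g3
  · have a1 : ((sInf A : ℕ) : ℝ) ≤ (⌈|C| * ((n : ℝ) ^ (j + 1) / Real.log n ^ j)⌉₊ : ℕ) :=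
      Nat.cast_le.2 (Nat.sInf_le m1)
    have a2 := Nat.ceil_lt_add_one (a := |C| * ((n : ℝ) ^ (j + 1) / Real.log n ^ j))
      (by positivity)
    rw [mul_div_assoc, add_mul]
    linarith

end Pool.Agent.Work.MP_e10cd8_co.All
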